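import Pool.Agent.H82.MV.Plan

/-!
# The data on the events from the variations

`NvU`: near the window, at the scale `s`, outside a set of measure `τ s` of windows, the variation over
the window `w'` of the derivative of the label of `c i` in the direction of `c l` is small, at the
nodes with given offsets, for one degree. `mevY_of`: the data `MevY` from the variations.
-/

set_option autoImplicit false

namespace Pool.MV

open MeasureTheory Set Filter Topology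
open Pool.Agent.H49.Ent Pool.Agent.H32.Dense Pool.STK Pool.KA Pool.KSAT Pool.K2S Pool.PB
open Pool.GEN Pool.S6C Pool.CHT Pool.SHR Pool.ZL Pool.PKG Pool.Z4 Pool.ZFI
open Pool.Z3 (NodQ Att3 nod_fac att3_line att3_grid)
open Pool.ISO (lvN)
open Pool.LEV (Law)

variable {n : ℕ} {hn : 2 ≤ n} {S : PCl n} {P : ℝ → ℝ → ℝ} {r : ℝ → ℝ}
  {P' : ℕ → List (Fin n) × Fin n → ℝ → ℝ → ℝ} {Λ : Finset (Fin n) → Fin n → ℝ → ℝ → ℝ}
  {o : Od n}

/-- The variations at one node are small: exponents up to `x`, the error `y`. -/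
def NvP (S : PCl n) (c : ℕ → Fin n) (r l i D : ℕ) (β : ℕ → ℝ → ℝ → ℝ) (E ϱ a w x y : ℝ) : Prop :=
  ∀ e Li w' : ℝ, 0 < e → e ≤ x → 0 ≤ Li → Li ≤ x → w ≤ w' → w' ≤ a →
    NVD S c r l i D β e E ϱ a w w' Li (Li + (a - w') + y)

/-- **The variations near a window.** -/
def NvU (S : PCl n) (c : ℕ → Fin n) (r l i : ℕ) (β : ℕ → ℝ → ℝ → ℝ) (E ϱ g : ℝ) : Prop :=
  ∀ (D : ℕ) (th c₀ τ : ℝ), 0 < th → 1 ≤ c₀ → 0 < τ → ∃ ε s₁ : ℝ, 0 < ε ∧ 0 < s₁ ∧
    ∀ s p q : ℝ, 0 < s → s < s₁ → |p| ≤ s → |q| ≤ s → q + th * s ≤ p →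
      volume {w : ℝ | |w - g| ≤ c₀ * s ∧
        ¬ NvP S c r l i D β E ϱ (w + p) (w + q) (ε * s) (th * s)} ≤ ENNReal.ofReal (τ * s)

/-- Larger errors. -/
theorem nvd_mono {m : ℕ} {S : PCl m} {c : ℕ → Fin m} {r l i D : ℕ} {β : ℕ → ℝ → ℝ → ℝ}
    {e E ϱ a₀ w w' Li Lo Lo' : ℝ} (h : NVD S c r l i D β e E ϱ a₀ w w' Li Lo) (hLo : Lo ≤ Lo') :
    NVD S c r l i D β e E ϱ a₀ w w' Li Lo' := by
  obtain ⟨Dr, δ, hδ, h1⟩ := h
  refine ⟨Dr, δ, hδ, fun d hd ψ₀ hψ₀ => ?_⟩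
  obtain ⟨ψ, hψ, h2⟩ := h1 d hd ψ₀ hψ₀
  refine ⟨ψ, hψ, fun κ₁ hκ₁ => Bas.mono 0 (h2 κ₁ hκ₁) ?_⟩
  rintro J - F A h3 B₀ G H hB hP hN
  refine (h3 B₀ G H hB hP hN).mono le_rfl le_rfl (Nat.floor_le_floor ?_) le_rfl
  exact mul_le_mul_of_nonneg_right (by linarith) (Nat.cast_nonneg J)

/-- The variations for all the coordinates above `l` together. -/
theorem nvU_all {S : PCl n} {c : ℕ → Fin n} {r l : ℕ} {β : ℕ → ℝ → ℝ → ℝ} {E ϱ g : ℝ}
    (h : ∀ i, l < i → i ≤ r → NvU S c r l i β E ϱ g) (D : ℕ) {th c₀ τ : ℝ} (hth : 0 < th)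
    (hc₀ : 1 ≤ c₀) (hτ : 0 < τ) : ∃ ε s₁ : ℝ, 0 < ε ∧ 0 < s₁ ∧ ∀ i, l < i → i ≤ r →
    ∀ s p q : ℝ, 0 < s → s < s₁ → |p| ≤ s → |q| ≤ s → q + th * s ≤ p →
      volume {w : ℝ | |w - g| ≤ c₀ * s ∧
        ¬ NvP S c r l i D β E ϱ (w + p) (w + q) (ε * s) (th * s)} ≤ ENNReal.ofReal (τ * s) := by
  have key : ∀ i, ∃ ε s₁ : ℝ, 0 < ε ∧ 0 < s₁ ∧ (l < i → i ≤ r →
    ∀ s p q : ℝ, 0 < s → s < s₁ → |p| ≤ s → |q| ≤ s → q + th * s ≤ p →
      volume {w : ℝ | |w - g| ≤ c₀ * s ∧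
        ¬ NvP S c r l i D β E ϱ (w + p) (w + q) (ε * s) (th * s)} ≤ ENNReal.ofReal (τ * s)) := by
    intro i
    by_cases hi : l < i ∧ i ≤ r
    · obtain ⟨ε, s₁, h1, h2, h3⟩ := h i hi.1 hi.2 D th c₀ τ hth hc₀ hτ
      exact ⟨ε, s₁, h1, h2, fun _ _ => h3⟩
    · exact ⟨1, 1, one_pos, one_pos, fun h1 h2 => absurd ⟨h1, h2⟩ hi⟩
  choose ε s₁ hε hs₁ hk using key
  obtain ⟨ε₀, hε₀, hε₁⟩ := fin_pos (r + 1) (f := ε) fun i _ => hε i
  obtain ⟨s₀, hs₀, hs₂⟩ := fin_pos (r + 1) (f := s₁) fun i _ => hs₁ i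
  refine ⟨ε₀, s₀, hε₀, hs₀, fun i hi hir s p q hs hss hp hq hpq => ?_⟩
  refine (measure_mono ?_).trans (hk i hi hir s p q hs (hss.trans_le (hs₂ i (by omega))) hp hq hpq)
  rintro w ⟨h1, h2⟩
  refine ⟨h1, fun h3 => h2 fun e Li w' k1 k2 k3 k4 k5 k6 => ?_⟩
  have h4 : ε₀ * s ≤ ε i * s := mul_le_mul_of_nonneg_right (hε₁ i (by omega)) hs.le
  exact h3 e Li w' k1 (k2.trans h4) k3 (k4.trans h4) k5 k6

/-- **The data on the events from the variations.** -/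
theorem mevY_of (H : Pk hn S P r P' Λ) (hTop : Pool.TOP.TopS n) (hF : FZX (n - 1)) {l : ℕ}
    (hl : l < n - 1) {X : ℝ → Prop}
    (hX : ∀ g ∈ Gs P r P' Λ o, X g → DgL hn P P' o g ∧ DfO hn P' o g ∧
      ∃ t : ℝ, AffA (LF hn P P' o l) g 1 t)
    (hNV : ∀ g ∈ Gs P r P' Λ o, X g → ∀ E ϱ : ℝ, 0 < E → 0 < ϱ →
      (∀ i ≤ n - 1, lvN (P' o.2) (cc hn o.1.1) (n - 1) P i g g + E + 8 * ϱ < 1) →
      ∀ i, l < i → i ≤ n - 1 → NvU S (cc hn o.1.1) (n - 1) l i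
        (lvN (P' o.2) (cc hn o.1.1) (n - 1) P) E ϱ g) : MevY hn S P r P' Λ o l X := by
  intro gap hgap g hg hXg
  obtain ⟨hDg, hdf, t, hA⟩ := hX g hg hXg
  obtain ⟨α, Q, c, F⟩ := H.fac hTop hF hg
  have hg0 := F.g0
  have hg1 := F.g1
  obtain ⟨E, ϱ, hE, hϱ, hroom, ⟨ρ₂, hρ₂, hlv⟩, hQ, hD⟩ := nodU_fac F H hDg hdf
  obtain ⟨Mg, R⟩ := rat_ex n 2 hgap
  have hn1 : (1 : ℝ) ≤ n := by exact_mod_cast (by omega : 1 ≤ n)
  have hMg : (1 : ℝ) < Mg := by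
    by_contra hcon
    push Not at hcon
    have h4 : gap * ((Mg : ℝ) - 1) ≤ 0 := mul_nonpos_of_nonneg_of_nonpos hgap.le (by linarith)
    have h5 := R.big
    have h6 : 0 < 8 * (n : ℝ) * (2 + 1) := by positivity
    linarith
  have hMg1 : 1 ≤ Mg := by exact_mod_cast hMg.le
  -- the scale
  obtain ⟨κ, hκ⟩ : ∃ κ : ℝ, κ = 2 * (Mg : ℝ) ^ n := ⟨_, rfl⟩
  have hpow : (1 : ℝ) ≤ (Mg : ℝ) ^ n := one_le_pow₀ hMg.le
  have hκ2 : 2 ≤ κ := by rw [hκ]; linarith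
  have hκ0 : 0 < κ := by linarith
  obtain ⟨τ, hτ⟩ : ∃ τ : ℝ, τ = 1 / (16 * κ * n) := ⟨_, rfl⟩
  have hτ0 : 0 < τ := by rw [hτ]; positivity
  have hτκ : ∀ d : ℝ, n * (2 * (τ * (κ * d))) = d / 8 := fun d => by
    rw [hτ]
    field_simp
    ring
  obtain ⟨D, hDD⟩ := hD 1 τ zero_le_one hτ0
  obtain ⟨ε, s₁, hε, hs₁, hnv⟩ := nvU_all (hNV g hg hXg E ϱ hE hϱ hroom) D
    (show 0 < 1 / κ by positivity) le_rfl hτ0
  obtain ⟨s₂, hs₂, hnd⟩ := hDD ε hε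
  obtain ⟨s₃, hs₃, hnq⟩ := hQ ε 2 hε (by norm_num)
  obtain ⟨m₀, hm₀⟩ : ∃ m₀ : ℝ, m₀ = min ε (1 / κ) := ⟨_, rfl⟩
  have hm00 : 0 < m₀ := by rw [hm₀]; exact lt_min hε (by positivity)
  have hm01 : m₀ ≤ ε := by rw [hm₀]; exact min_le_left _ _
  have hm02 : m₀ ≤ 1 / κ := by rw [hm₀]; exact min_le_right _ _
  obtain ⟨C₀, hC₀⟩ := exists_nat_ge (max (max (4 * (n : ℝ)) (gap * Mg)) (max gap (gap / (8 * m₀))))
  have hC01 : 4 * (n : ℝ) ≤ C₀ := (le_max_left _ _).trans ((le_max_left _ _).trans hC₀)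
  refine ⟨C₀, by
    have : (1 : ℝ) ≤ C₀ := by linarith
    exact_mod_cast this, fun C hC lam T rho V hrho hgE => ?_⟩
  have hCC : (C₀ : ℝ) ≤ C := by exact_mod_cast hC
  have hC1 : 4 * (n : ℝ) ≤ C := hC01.trans hCC
  have hC2 : gap * Mg ≤ C := ((le_max_right _ _).trans ((le_max_left _ _).trans hC₀)).trans hCC
  have hC3 : gap ≤ C := ((le_max_left _ _).trans ((le_max_right _ _).trans hC₀)).trans hCC
  have hC4 : gap / (8 * m₀) ≤ C :=
    ((le_max_right _ _).trans ((le_max_right _ _).trans hC₀)).trans hCC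
  have hCp : (1 : ℝ) ≤ C := by linarith
  rw [div_le_iff₀ (by positivity)] at hC4
  have hC5 : gap / (8 * C) ≤ m₀ := by
    rw [div_le_iff₀ (by positivity)]
    linarith
  have hep : epg n C gap ≤ 1 := by
    unfold epg
    rw [div_le_one (by positivity)]
    nlinarith
  have hlam : lam l ≤ 2 := by
    have h1 := (abs_le.1 ((eg_lam hgE hrho le_rfl (by omega) hA).trans hep)).2
    linarith
  have R' := R.mono hlam
  obtain ⟨ϱ', hϱ'⟩ : ∃ ϱ' : ℝ, ϱ' = min (min (min s₁ s₂) (min s₃ ρ₂)) (min (min ϱ rho)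
    (min g (1 - g))) / (4 * κ) := ⟨_, rfl⟩
  have hm0 : 0 < min (min (min s₁ s₂) (min s₃ ρ₂)) (min (min ϱ rho) (min g (1 - g))) :=
    lt_min (lt_min (lt_min hs₁ hs₂) (lt_min hs₃ hρ₂)) (lt_min (lt_min hϱ hrho)
      (lt_min hg0 (by linarith)))
  refine ⟨ϱ', by rw [hϱ']; positivity, fun δ hδ hδϱ => ?_⟩
  have hδ0 : (0 : ℝ) < δ := by exact_mod_cast hδ
  obtain ⟨s, hs⟩ : ∃ s : ℝ, s = κ * δ := ⟨_, rfl⟩
  have hs0 : 0 < s := by rw [hs]; positivity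
  have hs4 : 4 * s < min (min (min s₁ s₂) (min s₃ ρ₂)) (min (min ϱ rho) (min g (1 - g))) := by
    rw [hϱ', lt_div_iff₀ (by positivity)] at hδϱ
    rw [hs]
    linarith
  simp only [lt_min_iff] at hs4
  obtain ⟨⟨⟨q1, q2⟩, q3, q4⟩, ⟨q5, q6⟩, q7, q8⟩ := hs4
  have hδs : 2 * δ ≤ s := by
    rw [hs]
    exact mul_le_mul_of_nonneg_right hκ2 hδ0.le
  -- the offsets
  obtain ⟨Xq, hXq⟩ : ∃ Xq : ℚ, Xq = 2 * δ := ⟨_, rfl⟩
  have hXr : (Xq : ℝ) = 2 * δ := by rw [hXq]; push_cast; ring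
  have hXq0 : 0 < Xq := by rw [hXq]; linarith
  have hxk : ∀ k, k ≤ n → (Xq : ℝ) * (Mg : ℝ) ^ k ≤ s := by
    intro k hk
    have h1 : (Mg : ℝ) ^ k ≤ (Mg : ℝ) ^ n := pow_le_pow_right₀ hMg.le hk
    rw [hXr, hs, hκ]
    have h2 := mul_le_mul_of_nonneg_left h1 (show (0 : ℝ) ≤ 2 * δ by positivity)
    linarith
  have hxk' : ∀ k, 2 * δ ≤ (Xq : ℝ) * (Mg : ℝ) ^ k := by
    intro k
    have h1 : (1 : ℝ) ≤ (Mg : ℝ) ^ k := one_le_pow₀ hMg.le
    rw [hXr]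
    have h2 := mul_le_mul_of_nonneg_left h1 (show (0 : ℝ) ≤ 2 * δ by positivity)
    linarith
  have hoff : ∀ k, ((off Xq Mg k : ℚ) : ℝ) = Xq - Xq * (Mg : ℝ) ^ k := fun k => by
    unfold off
    push_cast
    ring
  have hoffs : ∀ k, k ≤ n → |((off Xq Mg k : ℚ) : ℝ)| ≤ s := by
    intro k hk
    have h1 := hxk k hk
    have h2 := hxk' k
    rw [hoff, abs_le]
    constructor <;> linarith
  have hXs : |(Xq : ℝ)| ≤ s := by
    rw [abs_le]
    constructor <;> linarith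
  have hthd : 1 / κ * s = δ := by
    rw [hs]
    field_simp
  -- the windows
  obtain ⟨B, hB⟩ : ∃ B : Set ℝ, B = {w | ∀ j, l ≤ j → j < n - 1 →
    NodD S (cc hn o.1.1) (n - 1) D (lvN (P' o.2) (cc hn o.1.1) (n - 1) P) (ε * s) E ϱ
      (w + Xq) (w + (off Xq Mg (n - 1 - j) : ℚ)) ∧
    NvP S (cc hn o.1.1) (n - 1) l (j + 1) D (lvN (P' o.2) (cc hn o.1.1) (n - 1) P) E ϱ
      (w + Xq) (w + (off Xq Mg (n - 1 - j) : ℚ)) (ε * s) (1 / κ * s)} := ⟨_, rfl⟩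
  refine ⟨B, ?_, ?_⟩
  · have hcov : Ioo (g - δ) g \ B ⊆ ⋃ j ∈ Finset.Ico l (n - 1),
        ({w : ℝ | |w - g| ≤ 1 * s ∧ ¬ NodD S (cc hn o.1.1) (n - 1) D
          (lvN (P' o.2) (cc hn o.1.1) (n - 1) P) (ε * s) E ϱ (w + Xq)
          (w + (off Xq Mg (n - 1 - j) : ℚ))} ∪
        {w : ℝ | |w - g| ≤ 1 * s ∧ ¬ NvP S (cc hn o.1.1) (n - 1) l (j + 1) D
          (lvN (P' o.2) (cc hn o.1.1) (n - 1) P) E ϱ (w + Xq)
          (w + (off Xq Mg (n - 1 - j) : ℚ)) (ε * s) (1 / κ * s)}) := by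
      rintro w ⟨⟨hw1, hw2⟩, hw3⟩
      rw [hB] at hw3
      simp only [Set.mem_ofPred_eq, not_forall, exists_prop] at hw3
      obtain ⟨j, h1, h2, h3⟩ := hw3
      have hwg : |w - g| ≤ 1 * s := by
        rw [abs_le]
        constructor <;> linarith
      simp only [Set.mem_iUnion, Finset.mem_Ico]
      refine ⟨j, ⟨h1, h2⟩, ?_⟩
      by_cases h4 : NodD S (cc hn o.1.1) (n - 1) D
          (lvN (P' o.2) (cc hn o.1.1) (n - 1) P) (ε * s) E ϱ (w + Xq)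
          (w + (off Xq Mg (n - 1 - j) : ℚ))
      · exact Or.inr ⟨hwg, fun h5 => h3 ⟨h4, h5⟩⟩
      · exact Or.inl ⟨hwg, h4⟩
    refine (measure_mono hcov).trans ((measure_biUnion_finset_le _ _).trans ?_)
    have hj : ∀ j ∈ Finset.Ico l (n - 1), volume
        ({w : ℝ | |w - g| ≤ 1 * s ∧ ¬ NodD S (cc hn o.1.1) (n - 1) D
          (lvN (P' o.2) (cc hn o.1.1) (n - 1) P) (ε * s) E ϱ (w + Xq)
          (w + (off Xq Mg (n - 1 - j) : ℚ))} ∪
        {w : ℝ | |w - g| ≤ 1 * s ∧ ¬ NvP S (cc hn o.1.1) (n - 1) l (j + 1) D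
          (lvN (P' o.2) (cc hn o.1.1) (n - 1) P) E ϱ (w + Xq)
          (w + (off Xq Mg (n - 1 - j) : ℚ)) (ε * s) (1 / κ * s)}) ≤
        ENNReal.ofReal (2 * (τ * s)) := by
      intro j hj
      rw [Finset.mem_Ico] at hj
      have h1 := hoffs (n - 1 - j) (by omega)
      have h2 := hxk' (n - 1 - j)
      have h3 := hoff (n - 1 - j)
      have h4 := hnd s (off Xq Mg (n - 1 - j) : ℚ) Xq hs0 (by linarith) h1 hXs (by linarith)
      have h5 := hnv (j + 1) (by omega) (by omega) s Xq (off Xq Mg (n - 1 - j) : ℚ) hs0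
        (by linarith) hXs h1 (by rw [hthd]; linarith)
      refine (measure_union_le _ _).trans ((add_le_add h4 h5).trans ?_)
      rw [← ENNReal.ofReal_add (by positivity) (by positivity)]
      exact ENNReal.ofReal_le_ofReal (by linarith)
    refine (Finset.sum_le_sum hj).trans ?_
    rw [Finset.sum_const, nsmul_eq_mul, ← ENNReal.ofReal_natCast, ← ENNReal.ofReal_mul
      (Nat.cast_nonneg _)]
    refine ENNReal.ofReal_le_ofReal ?_
    rw [← hτκ δ, ← hs]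
    refine mul_le_mul_of_nonneg_right ?_ (by positivity)
    have : (Finset.Ico l (n - 1)).card ≤ n := by
      rw [Nat.card_Ico]
      omega
    exact_mod_cast this
  · filter_upwards [att3_grid (ι := Unit) (Att := fun _ => Att3 (P' o.2) P)
      fun _ => att3_line (H.cht o.2) (H.tgs.law ())] with w₁ hatt hwB hw1 hwd c1 c2 c3 c4
    have hattw : ∀ p q : ℚ, q ≤ p → 0 < w₁ + q → w₁ + p < 1 →
        (w₁ + (p : ℝ), w₁ + (q : ℝ)) ∈ Att3 (P' o.2) P := by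
      intro p q h1 h2 h3
      have h4 := hatt () p q (by exact_mod_cast h1) (by linarith) (by linarith)
      rw [add_comm w₁ (p : ℝ), add_comm w₁ (q : ℝ)]
      exact h4
    rw [hB] at hwB
    have hk := hoffs (n - 1 - l) (by omega)
    have hk' := abs_le.1 hk
    have hXs' := abs_le.1 hXs
    have hδκ : (δ : ℝ) ≤ s := by linarith
    have hoffR : ∀ q : ℚ, off Xq Mg (n - 1 - l) ≤ q → -s ≤ (q : ℝ) := fun q hq => by
      have : ((off Xq Mg (n - 1 - l) : ℚ) : ℝ) ≤ q := by exact_mod_cast hq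
      linarith
    have hNQ : ∀ p q : ℚ, off Xq Mg (n - 1 - l) ≤ q → q ≤ p → p ≤ Xq →
        NodQ S (cc hn o.1.1) (n - 1) (lvN (P' o.2) (cc hn o.1.1) (n - 1) P) (ε * s) E ϱ
          (w₁ + p) (w₁ + q) := by
      intro p q h1 h2 h3
      have g1 := hoffR q h1
      have g2 : (q : ℝ) ≤ p := by exact_mod_cast h2
      have g3 : (p : ℝ) ≤ Xq := by exact_mod_cast h3
      refine hnq s hs0 (by linarith) _ _ (hattw p q h2 (by linarith) (by linarith)) (by linarith)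
        ?_ ?_
      · rw [abs_le]
        constructor <;> linarith
      · rw [abs_le]
        constructor <;> linarith
    have hoff1 : off Xq Mg (n - 1 - l) ≤ off Xq Mg 1 := off_mono hXq0.le hMg1 (by omega)
    have hoff1' : ((off Xq Mg 1 : ℚ) : ℝ) = Xq - Xq * Mg := by rw [hoff, pow_one]
    have hoff1q : off Xq Mg 1 = Xq - Xq * Mg := by
      unfold off
      rw [pow_one]
    have hoff1r : -s ≤ ((off Xq Mg 1 : ℚ) : ℝ) := hoffR _ hoff1
    have hXM : (Xq : ℝ) * Mg ≤ s := by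
      have := hxk 1 (by omega)
      rwa [pow_one] at this
    have hPst := pst_wn (hn := hn) (r := r) (Λ := Λ) (e := ε * s) (D := fun _ => D) H hl V R' hCp
      hC2 hXq0 hw1.2 (by linarith) (by linarith)
      (by have := hxk (n - 1 - l) (by omega); linarith)
      (by have := hxk (n - 1 - l) (by omega); linarith) hE hϱ hroom hlv (by linarith)
      (by linarith) hNQ (fun j h1 h2 => (hwB j h1 h2).1) (fun j h1 h2 j' hj' => by
        have h3 := (hwB j h1 h2).2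
        have h4 := hxk (n - 1 - j) (by omega)
        have h5 := hxk' (n - 1 - (j + 1))
        have hcc : 0 < gap / (8 * C) := by positivity
        have h6 : gap / (8 * C) * (Xq * (Mg : ℝ) ^ (n - 1 - j)) ≤ ε * s :=
          mul_le_mul (hC5.trans hm01) h4 (by positivity) hε.le
        have h7 : gap / (8 * C) * (Xq * (Mg : ℝ) ^ (n - 1 - j)) ≤ 1 / κ * s :=
          mul_le_mul (hC5.trans hm02) h4 (by positivity) (by positivity)
        have h8 : off Xq Mg (n - 1 - j) ≤ off Xq Mg (n - 1 - j') := by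
          refine off_mono hXq0.le hMg1 ?_
          rcases hj' with rfl | rfl <;> omega
        have h9 : ((off Xq Mg (n - 1 - j) : ℚ) : ℝ) ≤ (off Xq Mg (n - 1 - j') : ℚ) := by
          exact_mod_cast h8
        have h10 := hoff (n - 1 - j')
        have h11 := hxk' (n - 1 - j')
        have h12 := h3 (ε * s) (gap / (8 * C) * (Xq * (Mg : ℝ) ^ (n - 1 - j)))
          (w₁ + (off Xq Mg (n - 1 - j') : ℚ)) (by positivity) le_rfl (by positivity) h6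
          (by linarith) (by linarith)
        refine nvd_mono h12 ?_
        rw [hthd] at h7 ⊢
        linarith)
    exact mevD_of H hTop hF hl V R' hCp hC1 hδ (by rw [hXq]; linarith) hw1.1 hw1.2
      (by rw [← hoff1']; linarith) (by linarith) (by linarith) hE hϱ hroom hlv (by linarith)
      (by rw [← hoff1']; linarith) (by
        have := hattw 0 0 le_rfl (by rw [Rat.cast_zero]; linarith) (by rw [Rat.cast_zero]; linarith)
        rwa [Rat.cast_zero, add_zero] at this)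
      (fun p q h1 h2 h3 => hNQ p q (hoff1.trans (by rw [hoff1q]; exact h1)) h2 h3) hPst

end Pool.MV
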