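import Pool.Agent.H82.MV.Dfo
import Pool.Agent.H82.MV.MevY
import Pool.Agent.H60.GEN.KpI

/-!
# The static chains from the data near the windows of greedy orders

`rwh_ae`: a row with deficit is a row with deficit for all the orders of its window. `nore_dfo`: the
static chains from the static chains at the windows near which the order is greedy up to `o (R)`.
`nore_ind7`: the static chains from the data on the events near such windows; `nore_nv`: from the
variations near such windows.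
-/

set_option autoImplicit false

namespace Pool.MV

open MeasureTheory Set Filter Topology
open Pool.Agent.H49.Ent Pool.Agent.H32.Dense Pool.STK Pool.KA Pool.KSAT Pool.K2S Pool.PB
open Pool.GEN Pool.S6C Pool.STAT Pool.CHT Pool.GRW Pool.ONE Pool.STA Pool.PKG Pool.ZFN Pool.TOP
open Pool.Z4
open Pool.LBT (LSys ThrOf)
open Pool.LEV (Law Lv)
open Pool.ALL (RateOf)
open Pool.STR (NumI StaAt ThinAt SteepAt MicW)
open Pool.EXW
open Pool.ZL (AffA aff_rg)
open Pool.ZFI (LF gs_lt)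
open Pool.ISO (lvN)
open Pool.SW (Xa ExV TieO TopC)

variable {n : ℕ} {hn : 2 ≤ n} {S : PCl n} {P : ℝ → ℝ → ℝ} {r : ℝ → ℝ}
  {P' : ℕ → List (Fin n) × Fin n → ℝ → ℝ → ℝ} {Λ : Finset (Fin n) → Fin n → ℝ → ℝ → ℝ}
  {PB : ℕ → List (Fin n) × Fin n → ℝ → ℝ → ℝ}

/-- **The rows with deficit** of a window are the same for all the orders. -/
theorem rwh_ae (H : PkT hn S P r P' Λ PB) (hTop : TopS n) (hF : FZX (n - 1)) {h : ℝ} :
    ∀ᵐ g : ℝ, ∀ o o' : Od n, RwH H hTop hF h o g → g ∈ Gs P r P' Λ o' →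
      RwH H hTop hF h o' g := by
  filter_upwards [H.toPk.dif_ae] with g h1 o o' R hg
  have g0 := R.rwd.g0
  have g1 := R.rwd.g1
  obtain ⟨hd, hdP⟩ := h1 g0 g1
  have hdg : ∀ i ≤ n - 1, (H.nk hTop hF).dg o' i = fun a => LL hn P P' o' (i + 1) a a :=
    fun i hi => by
      funext a
      exact H.dg_eq hTop hF o' hi a
  have hdif : ∀ i ≤ n - 1, DifferentiableAt ℝ (fun a => LL hn P P' o' (i + 1) a a) g := by
    intro i hi
    rcases hi.lt_or_eq with h2 | h2
    · rw [LL_low (by omega) (by omega)]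
      exact hd _ _
    · rw [h2, LL_lst]
      exact hdP
  have hlt : ∀ i ≤ n - 1, LL hn P P' o' (i + 1) g g < 1 := fun i hi =>
    gs_lt H.toPk hg (show i < n by omega) hTop hF
  have hdiag : ∀ i ≤ n - 1, Pool.RTS.Diag fun a => LL hn P P' o' (i + 1) a a := by
    intro i hi
    refine Pool.STR.NumI.diagP (Z4.ll_law H.toPk o' hi) fun a w h0 h1 h2 => ?_
    rcases hi.lt_or_eq with h3 | h3
    · rw [LL_low (by omega) (by omega)]
      exact ⟨(H.cht o'.2).low _ a w h0 h1 h2, (H.cht o'.2).up _ a w h0 h1 h2⟩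
    · rw [h3, LL_lst]
      exact ⟨H.tgs.low () a w h0 h1 h2, H.tgs.up () a w h0 h1 h2⟩
  refine ⟨⟨hg, g0, g1, R.rwd.val, fun i hi => ?_, fun i hi => ?_, fun i hi => ?_, R.rwd.rdif,
    R.rwd.rlt⟩, R.defi⟩
  · rw [hdg i hi]
    exact hdif i hi
  · rw [hdg i hi]
    exact Pool.STR.diag_one (hdiag i hi) g0 g1 (hlt i hi) (hdif i hi)
  · rw [hdg i hi]
    exact hlt i hi

/-- **The static chains** from the static chains at the windows near which the order is greedy up to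
`o (R)`. -/
theorem nore_dfo (H : PkT hn S P r P' Λ PB) (hTop : TopS n) (hF : FZX (n - 1)) (hn4 : n ≤ 4)
    {h : ℝ} (hw : ∀ o : Od n, ∀ᵐ g : ℝ, RwH H hTop hF h o g → 1 < deriv (fun a => P a a) g →
      StaAt P g ∧ ((∀ i < n - 1, StaAt (LL hn P P' o (i + 1)) g) ∨
        (One1 hn P P' o g ∧ 2 ≤ deriv (fun a => P a a) g ∧
          ∀ i < n - 1, ThS hn P P' PB o i g)))
    (hR : NoRY H hTop hF h fun o g => DfO hn P' o g) : NoRE H hTop hF h := by
  rcases Nat.lt_or_ge n 4 with h3 | h4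
  · -- no ties
    intro o
    filter_upwards [hR o, dfo_of H.toPk hTop hF] with g k1 k2 R hS
    exact k1 R hS (k2 o R.rwd.mem fun i hi l hl hl1 => absurd hi (by omega))
  · have h4' : n = 4 := le_antisymm hn4 h4
    intro o
    filter_upwards [ae_all_iff.2 hR, dfo_of H.toPk hTop hF, hw o, rg_ths H hTop hF,
      gs_swp H.toPk hTop hF h4, rwh_ae H hTop hF (h := h)] with g k1 k2 k3 k4 k5 k6 R hS
    have ho := R.rwd.mem
    rcases (k3 R hS).2 with h5 | ⟨h5, h6, h7⟩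
    · exact h5
    by_cases hD : DfO hn P' o g
    · exact k1 o R hS hD
    exfalso
    have e2 : LL hn P P' o (n - 3 + 1) = bet (P' o.2) (cc hn o.1.1) (n - 3) := by
      rw [LL_low (by omega) (by omega), Nat.add_sub_cancel]
    -- the pair
    have hno : ¬ (bet (P' o.2) (cc hn o.1.1) (n - 3) g g <
        tau (P' o.2) (cc hn o.1.1) (n - 3) (n - 2) g g ∨
        StaAt (tau (P' o.2) (cc hn o.1.1) (n - 3) (n - 2)) g ∨
        RgUp (bet (P' o.2) (cc hn o.1.1) (n - 3)) g (bet (P' o.2) (cc hn o.1.1) (n - 3) g g)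
          (deriv (fun a => bet (P' o.2) (cc hn o.1.1) (n - 3) a a) g)) := by
      intro h8
      refine hD (k2 o ho fun i hi l hl hl1 => ?_)
      have e1 : l = n - 3 := by omega
      have e3 : i = n - 2 := by omega
      rw [e1, e3]
      exact h8
    push Not at hno
    obtain ⟨h8, h9, h10⟩ := hno
    have hsta : StaAt (bet (P' o.2) (cc hn o.1.1) (n - 3)) g := by
      rcases k4 o ho (n - 3) (by omega) (h7 (n - 3) (by omega)) with h11 | h11
      · rwa [e2] at h11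
      · rw [e2] at h11
        exact absurd h11 h10
    -- the exchanged order
    have ho' := k5 o ho h8
    have R' := k6 o (swp h4 o) R ho'
    have hD' : DfO hn P' (swp h4 o) g := by
      refine k2 (swp h4 o) ho' fun i hi l hl hl1 => ?_
      have e1 : l = n - 3 := by omega
      have e3 : i = n - 2 := by omega
      rw [e1, e3, tau_swp1 h4 o]
      exact Or.inr (Or.inl hsta)
    have h11 := k1 (swp h4 o) R' hS hD' (n - 3) (by omega)
    rw [LL_low (by omega) (by omega), Nat.add_sub_cancel, bet_swp1 h4 o] at h11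
    exact h9 h11

/-- **The static chains of a package**, inside the induction: the data on the events are needed only
near the windows with `Y` (almost all) near which the order is greedy up to `o (R)`. -/
theorem nore_ind7 {η : ℝ → ℝ} (hMic : LocE n η MicRt) (hi : ∀ k, 2 ≤ k → k < n → Ext0 k)
    (hn : 2 ≤ n) (hn4 : n ≤ 4) (hZ : ∀ k, 1 ≤ k → k < n → FZX k) (hF : FZX (n - 1))
    (hTop : TopS n)
    {D : ℝ} (hD : 0 < D) (hD1 : D ≤ 1) (hη : 0 < η D) (hη1 : η D ≤ 1)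
    (hE : Ext n ((1 + η D) * D)) (H : PkT hn S P r P' Λ PB)
    (hV : V0C H hTop hF ((1 - η D) * D))
    (hbig : ∀ o : Od n, ∀ᵐ g : ℝ, RwH H hTop hF ((1 - η D) * D) o g →
      1 < deriv (fun a => P a a) g → StaAt P g → One1 hn P P' o g → ∀ i, 1 ≤ i → i < n - 1 →
      (∀ l < i, ThS hn P P' PB o l g) →
      2 < deriv (fun a => LL hn P P' o (i + 1) a a) g →
      SteepAt 2 (LvT hn PB o i) g → StaAt (LL hn P P' o (i + 1)) g)
    (hEV : ExV hn hTop hF) (hT : n = 4 → TieO hn hTop hF (TopC n)) {Y : Od n → ℝ → Prop}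
    (hY : ∀ o : Od n, ∀ᵐ g : ℝ, g ∈ Gs P r P' Λ o → Y o g)
    (hMev : ∀ (o : Od n) (l : ℕ), 1 ≤ l → l < n - 1 → MevY hn S P r P' Λ o l
        (fun g => RwH H hTop hF ((1 - η D) * D) o g ∧ Xa hn P P' PB o l g ∧ DfO hn P' o g ∧
          Y o g)) :
    NoRE H hTop hF ((1 - η D) * D) := by
  refine nore_dfo H hTop hF hn4
    (win_ths H hTop hF (mic_pk hMic hn hZ hD hD1 hE H.toPk) hV hbig) fun o => ?_
  have h1 := nore_indY hMic hi hn hn4 hZ hF hTop hD hD1 hη hη1 hE H hV hbig hEV hT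
    (Y := fun o g => DfO hn P' o g ∧ Y o g) (fun o l hl1 hl => hMev o l hl1 hl) o
  filter_upwards [h1, hY o] with g k1 k2 R hS hDf
  exact k1 R hS ⟨hDf, k2 R.rwd.mem⟩

/-- **The static chains of a package**, inside the induction, from the variations near the windows
with `Y` (almost all) near which the order is greedy up to `o (R)`. -/
theorem nore_nv {η : ℝ → ℝ} (hMic : LocE n η MicRt) (hi : ∀ k, 2 ≤ k → k < n → Ext0 k)
    (hn : 2 ≤ n) (hn4 : n ≤ 4) (hZ : ∀ k, 1 ≤ k → k < n → FZX k) (hF : FZX (n - 1))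
    (hTop : TopS n)
    {D : ℝ} (hD : 0 < D) (hD1 : D ≤ 1) (hη : 0 < η D) (hη1 : η D ≤ 1)
    (hE : Ext n ((1 + η D) * D)) (H : PkT hn S P r P' Λ PB)
    (hV : V0C H hTop hF ((1 - η D) * D))
    (hbig : ∀ o : Od n, ∀ᵐ g : ℝ, RwH H hTop hF ((1 - η D) * D) o g →
      1 < deriv (fun a => P a a) g → StaAt P g → One1 hn P P' o g → ∀ i, 1 ≤ i → i < n - 1 →
      (∀ l < i, ThS hn P P' PB o l g) →
      2 < deriv (fun a => LL hn P P' o (i + 1) a a) g →
      SteepAt 2 (LvT hn PB o i) g → StaAt (LL hn P P' o (i + 1)) g)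
    (hEV : ExV hn hTop hF) (hT : n = 4 → TieO hn hTop hF (TopC n)) {Y : Od n → ℝ → Prop}
    (hY : ∀ o : Od n, ∀ᵐ g : ℝ, g ∈ Gs P r P' Λ o → Y o g)
    (hNV : ∀ (o : Od n) (l : ℕ), 1 ≤ l → l < n - 1 → ∀ g ∈ Gs P r P' Λ o,
      RwH H hTop hF ((1 - η D) * D) o g → Xa hn P P' PB o l g → DgL hn P P' o g →
      DfO hn P' o g → Y o g → ∀ E ϱ : ℝ, 0 < E → 0 < ϱ →
      (∀ i ≤ n - 1, lvN (P' o.2) (cc hn o.1.1) (n - 1) P i g g + E + 8 * ϱ < 1) →
      ∀ i, l < i → i ≤ n - 1 → NvU S (cc hn o.1.1) (n - 1) l i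
        (lvN (P' o.2) (cc hn o.1.1) (n - 1) P) E ϱ g) :
    NoRE H hTop hF ((1 - η D) * D) := by
  refine nore_ind7 hMic hi hn hn4 hZ hF hTop hD hD1 hη hη1 hE H hV hbig hEV hT
    (Y := fun o g => DgL hn P P' o g ∧ Y o g) (fun o => ?_) fun o l hl1 hl => ?_
  · filter_upwards [hY o, H.toPk.dgL_ae] with g k1 k2 hg
    exact ⟨k2 hg.1.1.1 hg.1.1.2.1 o, k1 hg⟩
  · refine mevY_of H.toPk hTop hF hl (fun g hg hX => ?_) fun g hg hX E ϱ hE' hϱ hroom i hi1 hi2 =>
      hNV o l hl1 hl g hg hX.1 hX.2.1 hX.2.2.2.1 hX.2.2.1 hX.2.2.2.2 E ϱ hE' hϱ hroom i hi1 hi2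
    obtain ⟨R, hXa, hDf, hDg, hY'⟩ := hX
    refine ⟨hDg, hDf, deriv (fun a => LL hn P P' o (l + 1) a a) g - 1, ?_⟩
    have hCf := hXa.cfg
    have g0 : 0 < g := hg.1.1.1
    have g1 : g < 1 := hg.1.1.2.1
    exact aff_rg (Z4.ll_law H.toPk o hl.le) g0 g1 (hCf.lt l hl.le) hCf.rg
      (Pool.STR.dgLo_of (hCf.dif l hl.le))

end Pool.MV
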