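import Pool.Agent.H56.ASM.Sk9
import Pool.Agent.H82.MV.Nor7

/-!
# The static chains: the leaves about the variations

`nore_ind8`: the static chains from no boxes at the windows with one contact coordinate and the data
on the events near the windows near which the order is greedy up to `o (R)`. `LMevD n`: these data.
`LNv n l i`: the variations of the label of the coordinate `i` in the direction of the coordinate `l`;
`lMevD_nv`: the data from the variations. `lNor_10`: the static chains from their parts.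
-/

set_option autoImplicit false

namespace Pool.MV

open MeasureTheory Set Filter Topology
open Pool.Agent.H49.Ent Pool.Agent.H32.Dense Pool.STK Pool.KA Pool.KSAT Pool.K2S Pool.PB
open Pool.GEN Pool.S6C Pool.STAT Pool.CHT Pool.GRW Pool.ONE Pool.STA Pool.PKG Pool.ZFN Pool.TOP
open Pool.Z4
open Pool.LBT (LSys ThrOf)
open Pool.LEV (Law Lv)
open Pool.ALL (RateOf)
open Pool.STR (NumI StaAt ThinAt SteepAt MicW)
open Pool.EXW
open Pool.ISO (lvN)
open Pool.SW (Xa NtO TopC hc0_b)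

variable {n : ℕ} {hn : 2 ≤ n} {S : PCl n} {P : ℝ → ℝ → ℝ} {r : ℝ → ℝ}
  {P' : ℕ → List (Fin n) × Fin n → ℝ → ℝ → ℝ} {Λ : Finset (Fin n) → Fin n → ℝ → ℝ → ℝ}
  {PB : ℕ → List (Fin n) × Fin n → ℝ → ℝ → ℝ}

/-- **The static chains** in the induction over the dimension (`n ≤ 4`), from no boxes at the windows
with one contact coordinate; the data on the events are needed only near the windows near which the
order is greedy up to `o (R)`. -/
theorem nore_ind8 {η : ℝ → ℝ} (hMic : LocE n η MicRt) (hi : ∀ k, 2 ≤ k → k < n → Ext0 k)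
    (hn : 2 ≤ n) (hn4 : n ≤ 4) (hZ : ∀ k, 1 ≤ k → k < n → FZX k) (hF : FZX (n - 1))
    (hTop : TopS n)
    {D : ℝ} (hD : 0 < D) (hD1 : D ≤ 1) (hη : 0 < η D) (hη1 : η D ≤ 1)
    (hE : Ext n ((1 + η D) * D)) (H : PkT hn S P r P' Λ PB)
    (hV : V0C H hTop hF ((1 - η D) * D))
    (hbig : ∀ o : Od n, ∀ᵐ g : ℝ, RwH H hTop hF ((1 - η D) * D) o g →
      1 < deriv (fun a => P a a) g → StaAt P g → One1 hn P P' o g → ∀ i, 1 ≤ i → i < n - 1 →
      (∀ l < i, ThS hn P P' PB o l g) →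
      2 < deriv (fun a => LL hn P P' o (i + 1) a a) g →
      SteepAt 2 (LvT hn PB o i) g → StaAt (LL hn P P' o (i + 1)) g)
    (hVn : VAll hn hTop hF (NtO n)) (hT : n = 4 → VAll hn hTop hF (TopC n))
    {Y : Od n → ℝ → Prop}
    (hY : ∀ o : Od n, ∀ᵐ g : ℝ, g ∈ Gs P r P' Λ o → Y o g)
    (hMev : ∀ (o : Od n) (l : ℕ), 1 ≤ l → l < n - 1 → MevY hn S P r P' Λ o l
        (fun g => RwH H hTop hF ((1 - η D) * D) o g ∧ Xa hn P P' PB o l g ∧ DfO hn P' o g ∧
          Y o g)) :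
    NoRE H hTop hF ((1 - η D) * D) := by
  have h1 : (1 - η D) * D < 1 := by nlinarith
  have h0 : 0 ≤ (1 - η D) * D := mul_nonneg (by linarith) hD.le
  have hW := rw_all hZ fun k k1 k2 => rowN_of_ext (hi k k1 k2)
  have hM := mic_pk hMic hn hZ hD hD1 hE H.toPk
  have hR : NoRY H hTop hF ((1 - η D) * D) fun o g => DfO hn P' o g ∧ Y o g := by
    refine nore_of5Y H hTop hF h0 hM hV hbig (fun o l => ?_) fun o l => ?_
    · filter_upwards [cnt_mevY H hTop (hZ 1 le_rfl (by omega)) hF hW h0 h1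
        (fun al g₀ hal hg₀ N S' P r h2 h3 h4 E =>
          rgFull_locRt hMic hn hZ hD hD1 hη1 hE hal hg₀ h2 h3 h4 E) hMev o l]
        with g k1 R hX hY
      exact k1 R.rwd.mem hX.cfg ⟨R, ⟨hX.sta, hX.two, hX.one1, hX.ths, hX.cfg⟩, hY⟩
    · filter_upwards [hc0_b H hTop (hZ 1 le_rfl (by omega)) hF hn4 hW hVn hT h0 hMev o l]
        with g k1 R hX hY h6
      exact k1 R hX hY h6
  refine nore_dfo H hTop hF hn4 (win_ths H hTop hF hM hV hbig) fun o => ?_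
  filter_upwards [hR o, hY o] with g k1 k2 R hS hDf
  exact k1 R hS ⟨hDf, k2 R.rwd.mem⟩

end Pool.MV

namespace Pool.ASM

open MeasureTheory Set Filter Topology
open Pool.Agent.H49.Ent Pool.Agent.H32.Dense Pool.STK Pool.KA Pool.KSAT Pool.K2S Pool.PB
open Pool.GEN Pool.S6C Pool.GRW Pool.PKG Pool.STAT Pool.PM Pool.R1 Pool.Z4
open Pool.ONE (LocE Ext0 Ext rowN_of_ext)
open Pool.TOP (TopS rw_all)
open Pool.LEV (Law Lv)
open Pool.STR (NumI TopW Mac StaAt IsoAt StaU1 ThinAt SteepAt Rle)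
open Pool.MIC6
open Pool.ISO (lvN)
open Pool.SW (TopC NtO OneS NoTie Rgh Xa TieO)
open Pool.MV (DfO NvU nore_ind8 mevY_of)

/-- **The data on the events**, near the windows of the counts near which the order is greedy up to
`o (R)`, all classes. -/
def LMevD (n : ℕ) : Prop := (∀ k, 2 ≤ k → k < n → Ext0 k) →
  Tol fun η => LocE n η MicRt →
    AllC n η fun {hn} {S} {P} {r} {P'} {Λ} {PB} H hTop hF h =>
      ∃ Y : Od n → ℝ → Prop, (∀ o : Od n, ∀ᵐ g : ℝ, g ∈ Gs P r P' Λ o → Y o g) ∧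
        ∀ (o : Od n) (l : ℕ), 1 ≤ l → l < n - 1 → MevY hn S P r P' Λ o l
          (fun g => RwH H hTop hF h o g ∧ Xa hn P P' PB o l g ∧ DfO hn P' o g ∧ Y o g)

/-- **The variations** of the derivative, in the direction of the coordinate `l`, of the label of the
coordinate `i`, near the windows of the counts with `Z`, all classes. -/
def LNvZ (n l i : ℕ) (Z : (ℝ → ℝ → ℝ) → ℝ → Prop) : Prop := (∀ k, 2 ≤ k → k < n → Ext0 k) →
  Tol fun η => LocE n η MicRt →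
    AllC n η fun {hn} {S} {P} {r} {P'} {Λ} {PB} H hTop hF h =>
      ∃ Y : Od n → ℝ → Prop, (∀ o : Od n, ∀ᵐ g : ℝ, g ∈ Gs P r P' Λ o → Y o g) ∧
        ∀ o : Od n, ∀ g ∈ Gs P r P' Λ o, RwH H hTop hF h o g → Xa hn P P' PB o l g →
          DgL hn P P' o g → DfO hn P' o g → Y o g → Z (LL hn P P' o 2) g →
          ∀ E ϱ : ℝ, 0 < E → 0 < ϱ →
          (∀ i ≤ n - 1, lvN (P' o.2) (cc hn o.1.1) (n - 1) P i g g + E + 8 * ϱ < 1) →
          NvU S (cc hn o.1.1) (n - 1) l i (lvN (P' o.2) (cc hn o.1.1) (n - 1) P) E ϱ g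

/-- **The variations**, near all the windows of the counts. -/
def LNv (n l i : ℕ) : Prop := LNvZ n l i fun _ _ => True

/-- The variations from two cases for the second coordinate of the base. -/
theorem lNv_or {n l i : ℕ} {Z Z' : (ℝ → ℝ → ℝ) → ℝ → Prop} (h1 : LNvZ n l i Z)
    (h2 : LNvZ n l i Z') (hZ : ∀ L g, Z L g ∨ Z' L g) : LNv n l i := fun hi => by
  refine ((h1 hi).and (h2 hi)).mono fun η h hMic => ?_
  intro hn hZ' hF hTop D hD hD1 hE S P r P' Λ PB H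
  obtain ⟨Y₁, a1, b1⟩ := h.1 hMic hn hZ' hF hTop D hD hD1 hE S P r P' Λ PB H
  obtain ⟨Y₂, a2, b2⟩ := h.2 hMic hn hZ' hF hTop D hD hD1 hE S P r P' Λ PB H
  refine ⟨fun o g => Y₁ o g ∧ Y₂ o g, fun o => ?_, fun o g hg R hX hDg hDf hY _ => ?_⟩
  · filter_upwards [a1 o, a2 o] with g k1 k2 hg
    exact ⟨k1 hg, k2 hg⟩
  · rcases hZ (LL hn P P' o 2) g with h3 | h3
    · exact b1 o g hg R hX hDg hDf hY.1 h3
    · exact b2 o g hg R hX hDg hDf hY.2 h3

/-- **The data on the events from the variations.** -/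
theorem lMevD_nv {n : ℕ} (h : ∀ l i, 1 ≤ l → l < n - 1 → l < i → i ≤ n - 1 → LNv n l i) :
    LMevD n := fun hi => by
  have h1 : Tol fun η => ∀ x : Fin n × Fin n, 1 ≤ (x.1 : ℕ) → (x.1 : ℕ) < n - 1 →
      (x.1 : ℕ) < x.2 → LocE n η MicRt →
      AllC n η fun {hn} {S} {P} {r} {P'} {Λ} {PB} H hTop hF h =>
      ∃ Y : Od n → ℝ → Prop, (∀ o : Od n, ∀ᵐ g : ℝ, g ∈ Gs P r P' Λ o → Y o g) ∧
        ∀ o : Od n, ∀ g ∈ Gs P r P' Λ o, RwH H hTop hF h o g → Xa hn P P' PB o x.1 g →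
          DgL hn P P' o g → DfO hn P' o g → Y o g → True →
          ∀ E ϱ : ℝ, 0 < E → 0 < ϱ →
          (∀ i ≤ n - 1, lvN (P' o.2) (cc hn o.1.1) (n - 1) P i g g + E + 8 * ϱ < 1) →
          NvU S (cc hn o.1.1) (n - 1) x.1 x.2 (lvN (P' o.2) (cc hn o.1.1) (n - 1) P) E ϱ g := by
    refine Tol.fin fun x => ?_
    by_cases hx : 1 ≤ (x.1 : ℕ) ∧ (x.1 : ℕ) < n - 1 ∧ (x.1 : ℕ) < x.2
    · exact (h x.1 x.2 hx.1 hx.2.1 hx.2.2 (by have := x.2.2; omega) hi).mono fun η k _ _ _ => k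
    · exact Tol.of_all fun _ _ _ k1 k2 k3 => absurd ⟨k1, k2, k3⟩ hx
  refine h1.mono fun η k hMic => ?_
  intro hn hZ hF hTop D hD hD1 hE S P r P' Λ PB H
  have key : ∀ x : Fin n × Fin n, ∃ Y : Od n → ℝ → Prop,
      (∀ o : Od n, ∀ᵐ g : ℝ, g ∈ Gs P r P' Λ o → Y o g) ∧
      (1 ≤ (x.1 : ℕ) → (x.1 : ℕ) < n - 1 → (x.1 : ℕ) < x.2 → ∀ o : Od n, ∀ g ∈ Gs P r P' Λ o,
          RwH H hTop hF ((1 - η D) * D) o g → Xa hn P P' PB o x.1 g →
          DgL hn P P' o g → DfO hn P' o g → Y o g → True →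
          ∀ E ϱ : ℝ, 0 < E → 0 < ϱ →
          (∀ i ≤ n - 1, lvN (P' o.2) (cc hn o.1.1) (n - 1) P i g g + E + 8 * ϱ < 1) →
          NvU S (cc hn o.1.1) (n - 1) x.1 x.2 (lvN (P' o.2) (cc hn o.1.1) (n - 1) P) E ϱ g) := by
    intro x
    by_cases hx : 1 ≤ (x.1 : ℕ) ∧ (x.1 : ℕ) < n - 1 ∧ (x.1 : ℕ) < x.2
    · obtain ⟨Y, k1, k2⟩ := k x hx.1 hx.2.1 hx.2.2 hMic hn hZ hF hTop D hD hD1 hE S P r P' Λ PB H
      exact ⟨Y, k1, fun _ _ _ => k2⟩
    · exact ⟨fun _ _ => True, fun _ => Eventually.of_forall fun _ _ => trivial,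
        fun k1 k2 k3 => absurd ⟨k1, k2, k3⟩ hx⟩
  choose Y hY hNV using key
  refine ⟨fun o g => DgL hn P P' o g ∧ ∀ x, Y x o g, fun o => ?_, fun o l hl1 hl => ?_⟩
  · filter_upwards [ae_all_iff.2 fun x => hY x o, H.toPk.dgL_ae] with g k1 k2 hg
    exact ⟨k2 hg.1.1.1 hg.1.1.2.1 o, fun x => k1 x hg⟩
  · refine mevY_of H.toPk hTop hF hl (fun g hg hX => ?_) fun g hg hX E ϱ hE' hϱ hroom i hi1 hi2 =>
      hNV (⟨l, by omega⟩, ⟨i, by omega⟩) hl1 hl hi1 o g hg hX.1 hX.2.1 hX.2.2.2.1 hX.2.2.1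
        (hX.2.2.2.2 _) trivial E ϱ hE' hϱ hroom
    obtain ⟨R, hXa, hDf, hDg, hY'⟩ := hX
    refine ⟨hDg, hDf, deriv (fun a => LL hn P P' o (l + 1) a a) g - 1, ?_⟩
    have hCf := hXa.cfg
    have g0 : 0 < g := hg.1.1.1
    have g1 : g < 1 := hg.1.1.2.1
    exact Pool.ZL.aff_rg (Z4.ll_law H.toPk o hl.le) g0 g1 (hCf.lt l hl.le) hCf.rg
      (Pool.STR.dgLo_of (hCf.dif l hl.le))

/-- In dimension three there is one leaf. -/
theorem lMevD_three (h : LNv 3 1 2) : LMevD 3 := lMevD_nv fun l i h1 h2 h3 h4 => by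
  have e1 : l = 1 := by omega
  have e2 : i = 2 := by omega
  subst e1 e2
  exact h

/-- In dimension four there are three leaves. -/
theorem lMevD_four (h12 : LNv 4 1 2) (h13 : LNv 4 1 3) (h23 : LNv 4 2 3) : LMevD 4 :=
  lMevD_nv fun l i h1 h2 h3 h4 => by
    have e1 : l = 1 ∨ l = 2 := by omega
    have e2 : i = 2 ∨ i = 3 := by omega
    rcases e1 with rfl | rfl <;> rcases e2 with rfl | rfl
    · exact h12
    · exact h13
    · omega
    · exact h23

/-- **The static chains** from their parts. -/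
theorem lNor_10 {n : ℕ} (hn4 : n ≤ 4)
    (hC : ∀ κ : List Kd, κ.length + 2 ≤ n → LCellV n (Kd.one :: κ))
    (hA : n = 4 → LV0A n) (hB : n = 4 → LV0B n) (hE : LEx1 n) (hNb : n = 4 → LNb n)
    (hM : LMevD n) : LNor n := fun hi => by
  have hA' : Tol fun η => n = 4 → LocE n η MicRt →
      AllC n η fun {hn} {_} {P} {_} {P'} {_} {_} H hTop hF h =>
        ∀ o : Od n, ∀ᵐ g : ℝ, RwH H hTop hF h o g → 1 < deriv (fun a => P a a) g → StaAt P g →
        deriv (fun a => LL hn P P' o 2 a a) g ≤ 1 → 1 < deriv (fun a => LL hn P P' o 3 a a) g →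
        StaAt (LL hn P P' o 3) g := by
    by_cases h4 : n = 4
    · exact (hA h4 hi).mono fun η h _ => h
    · exact Tol.of_all fun _ _ _ h5 => absurd h5 h4
  have hB' : Tol fun η => n = 4 → LocE n η MicRt →
      AllC n η fun {hn} {_} {P} {_} {P'} {_} {_} H hTop hF h =>
        ∀ o : Od n, ∀ᵐ g : ℝ, RwH H hTop hF h o g → 1 < deriv (fun a => P a a) g → StaAt P g →
        deriv (fun a => LL hn P P' o 3 a a) g ≤ 1 → 1 < deriv (fun a => LL hn P P' o 2 a a) g →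
        StaAt (LL hn P P' o 2) g := by
    by_cases h4 : n = 4
    · exact (hB h4 hi).mono fun η h _ => h
    · exact Tol.of_all fun _ _ _ h5 => absurd h5 h4
  refine ((two_of_cellsV hC hi).and (hA'.and (hB'.and ((hM hi).and
    (Tol.le 1 one_pos))))).mono fun η h hMic => ?_
  obtain ⟨h1, h2, h3, h4, h6⟩ := h
  intro hn hZ hF hTop D hD hD1 hE' S P r P' Λ PB H
  have e1 := h6 D hD
  have hEA := hE hi hn hZ hF hTop
  obtain ⟨Y, hY, hMev⟩ := h4 hMic hn hZ hF hTop D hD hD1 hE' S P r P' Λ PB H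
  refine nore_ind8 hMic hi hn hn4 hZ hF hTop hD hD1 e1.1 e1.2 hE' H ?_ (fun o => ?_)
    (vAll_n Pool.VAS.micV hEA) (fun h5 => vAll_t Pool.VAS.micV hEA (topC_one n)
      (hNb h5 hi hn hZ hF hTop)) hY hMev
  · by_cases hn3 : n ≤ 3
    · exact v0C_three H hTop hF hn3
    · have h7 : n = 4 := by omega
      exact v0C_four H hTop hF h7 (h2 h7 hMic hn hZ hF hTop D hD hD1 hE' S P r P' Λ PB H)
        (h3 h7 hMic hn hZ hF hTop D hD hD1 hE' S P r P' Λ PB H)
  · filter_upwards [TwoX.big (fun i a1 a2 =>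
      h1 hn hZ hF hTop D hD hD1 hE' S P r P' Λ PB H i a1 (by omega)) o] with g k1 R hS hst h8
    exact k1 R (Or.inr ⟨hst, hS, h8⟩)

end Pool.ASM
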