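import Pool.Agent.H82.MV.Nvu12
import Pool.Agent.H82.MV.Nor8

/-!
# The leaves for `c 0, c 1; c 2`

`LNv n 1 2` for `n = 3` and `n = 4`; the data on the events in dimension three.
-/

set_option autoImplicit false

namespace Pool.ASM

open MeasureTheory Set Filter Topology
open Pool.Agent.H49.Ent Pool.Agent.H32.Dense Pool.STK Pool.KA Pool.KSAT Pool.K2S Pool.PB
open Pool.GEN Pool.S6C Pool.GRW Pool.PKG Pool.STAT Pool.PM Pool.R1 Pool.Z4 Pool.CHT
open Pool.ONE (LocE Ext0 Ext rowN_of_ext)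
open Pool.TOP (TopS rw_all)
open Pool.LEV (Law Lv)
open Pool.STR (NumI TopW Mac StaAt IsoAt StaU1 ThinAt SteepAt Rle)
open Pool.MIC6
open Pool.ISO (lvN)
open Pool.ZFI (LF)
open Pool.SW (TopC NtO OneS NoTie Rgh Xa TieO)
open Pool.MV (DfO NvU nore_ind8 mevY_of)

variable {n : ℕ} {hn : 2 ≤ n} {S : PCl n} {P : ℝ → ℝ → ℝ} {r : ℝ → ℝ}
  {P' : ℕ → List (Fin n) × Fin n → ℝ → ℝ → ℝ} {Λ : Finset (Fin n) → Fin n → ℝ → ℝ → ℝ}
  {PB : ℕ → List (Fin n) × Fin n → ℝ → ℝ → ℝ}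

/-- **The active coordinate has slope one** at almost every good window. -/
theorem one_act (H : Pk hn S P r P' Λ) (hTop : TopS n) (hF : FZX (n - 1)) :
    ∀ᵐ g : ℝ, ∀ o : Od n, g ∈ Gs P r P' Λ o → HasDerivAt (fun v => LF hn P P' o 0 v v) 1 g := by
  filter_upwards [H.dif_ae] with g h1 o hg
  have g0 : 0 < g := hg.1.1.1
  have g1 : g < 1 := hg.1.1.2.1
  have h3 := H.act_diag hTop hF hg
  have e1 : (fun v => LF hn P P' o 0 v v) = fun v => bet (P' o.2) (cc hn o.1.1) 0 v v := by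
    funext v
    show LL hn P P' o (0 + 1) v v = _
    rw [LL_low (by omega) (by omega)]
  have e2 : bet (P' o.2) (cc hn o.1.1) 0 g g = g := by
    rw [LL_low (by omega) (by omega)] at h3
    exact h3
  rw [e1]
  have hd : DifferentiableAt ℝ (fun v => bet (P' o.2) (cc hn o.1.1) 0 v v) g := (h1 g0 g1).1 _ _
  have hmin : IsLocalMin (fun v => bet (P' o.2) (cc hn o.1.1) 0 v v - v) g := by
    filter_upwards [Ioo_mem_nhds g0 g1] with v hv
    rw [e2]
    have : v ≤ bet (P' o.2) (cc hn o.1.1) 0 v v :=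
      (H.cht o.2).low _ v v hv.1.le le_rfl hv.2.le
    linarith
  have h4 : HasDerivAt (fun v => bet (P' o.2) (cc hn o.1.1) 0 v v - v)
      (deriv (fun v => bet (P' o.2) (cc hn o.1.1) 0 v v) g - 1) g :=
    hd.hasDerivAt.sub (hasDerivAt_id g)
  have h5 := hmin.hasDerivAt_eq_zero h4
  have h6 : deriv (fun v => bet (P' o.2) (cc hn o.1.1) 0 v v) g = 1 := by linarith
  rw [← h6]
  exact hd.hasDerivAt

/-- The rough coordinate is almost affine near the windows of the counts. -/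
theorem xa_aff (H : Pk hn S P r P' Λ) {o : Od n} {l : ℕ} {g : ℝ} (hg : g ∈ Gs P r P' Λ o)
    (hX : Xa hn P P' PB o l g) :
    0 < deriv (fun a => LL hn P P' o (l + 1) a a) g - 1 ∧
    Pool.ZL.AffA (LF hn P P' o l) g 1 (deriv (fun a => LL hn P P' o (l + 1) a a) g - 1) := by
  have hCf := hX.cfg
  have g0 : 0 < g := hg.1.1.1
  have g1 : g < 1 := hg.1.1.2.1
  refine ⟨by linarith [hCf.one], ?_⟩
  exact Pool.ZL.aff_rg (Z4.ll_law H o hCf.ln.le) g0 g1 (hCf.lt l hCf.ln.le) hCf.rg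
    (Pool.STR.dgLo_of (hCf.dif l hCf.ln.le))

/-- **The variations for `c 0, c 1; c 2`.** -/
theorem lNv_12 {n : ℕ} (h3 : 3 ≤ n) : LNv n 1 2 := fun _ => Tol.of_all fun η _ _ _ => by
  intro hn hZ hF hTop D hD hD1 hE S P r P' Λ PB H
  refine ⟨fun o g => HasDerivAt (fun v => LF hn P P' o 0 v v) 1 g, fun o => ?_,
    fun o g hg R hX hDg hDf hY _ E ϱ hE hϱ hroom => ?_⟩
  · filter_upwards [one_act H.toPk hTop hF] with g k hg
    exact k o hg
  · obtain ⟨ht, hA⟩ := xa_aff H.toPk hg hX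
    exact Pool.NVX.nvU_12 H.toPk hTop hF h3 hg hDg hDf hY hA ht hE hϱ hroom

/-- **The data on the events in dimension three.** -/
theorem lMevD_3 : LMevD 3 := lMevD_three (lNv_12 le_rfl)

end Pool.ASM
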