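import Pool.Agent.H82.MV.Lf12

/-!
# The leaves about the variations, for all slopes of the target

`Xb`: the windows of the counts without the condition on the slope of the target. `LNvB`, `LMevB`: the
leaves near these windows. `nore_dfoP`: the static chains from the static chains at the windows near
which the order is greedy up to `o (R)`, for the windows with a property.
-/

set_option autoImplicit false

namespace Pool.MV

open MeasureTheory Set Filter Topology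
open Pool.Agent.H49.Ent Pool.Agent.H32.Dense Pool.STK Pool.KA Pool.KSAT Pool.K2S Pool.PB
open Pool.GEN Pool.S6C Pool.STAT Pool.CHT Pool.GRW Pool.ONE Pool.STA Pool.PKG Pool.ZFN Pool.TOP
open Pool.Z4
open Pool.LBT (LSys ThrOf)
open Pool.LEV (Law Lv)
open Pool.STR (NumI StaAt ThinAt SteepAt MicW)
open Pool.SW (Xa)

variable {n : ℕ} {hn : 2 ≤ n} {S : PCl n} {P : ℝ → ℝ → ℝ} {r : ℝ → ℝ}
  {P' : ℕ → List (Fin n) × Fin n → ℝ → ℝ → ℝ} {Λ : Finset (Fin n) → Fin n → ℝ → ℝ → ℝ}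
  {PB : ℕ → List (Fin n) × Fin n → ℝ → ℝ → ℝ}

/-- **The windows of the counts**, for all slopes of the target. -/
structure Xb (hn : 2 ≤ n) (P : ℝ → ℝ → ℝ) (P' PB : ℕ → List (Fin n) × Fin n → ℝ → ℝ → ℝ)
    (o : Od n) (l : ℕ) (g : ℝ) : Prop where
  sta : StaAt P g
  one1 : One1 hn P P' o g
  ths : ∀ i < n - 1, ThS hn P P' PB o i g
  cfg : Pool.Z4.Cfg hn P P' o l g

theorem xb_of {o : Od n} {l : ℕ} {g : ℝ} (h : Xa hn P P' PB o l g) : Xb hn P P' PB o l g :=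
  ⟨h.sta, h.one1, h.ths, h.cfg⟩

/-- **The static chains** at the windows with `p`, from the static chains at the windows with `p`
near which the order is greedy up to `o (R)`. -/
theorem nore_dfoP (H : PkT hn S P r P' Λ PB) (hTop : TopS n) (hF : FZX (n - 1)) (hn4 : n ≤ 4)
    {h : ℝ} {p : ℝ → Prop} (hw : ∀ o : Od n, ∀ᵐ g : ℝ, RwH H hTop hF h o g → p g →
      (∀ i < n - 1, StaAt (LL hn P P' o (i + 1)) g) ∨ ∀ i < n - 1, ThS hn P P' PB o i g)
    (hR : ∀ o : Od n, ∀ᵐ g : ℝ, RwH H hTop hF h o g → p g → DfO hn P' o g →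
      ∀ i < n - 1, StaAt (LL hn P P' o (i + 1)) g) :
    ∀ o : Od n, ∀ᵐ g : ℝ, RwH H hTop hF h o g → p g →
      ∀ i < n - 1, StaAt (LL hn P P' o (i + 1)) g := by
  rcases Nat.lt_or_ge n 4 with h3 | h4
  · -- no ties
    intro o
    filter_upwards [hR o, dfo_of H.toPk hTop hF] with g k1 k2 R hS
    exact k1 R hS (k2 o R.rwd.mem fun i hi l hl hl1 => absurd hi (by omega))
  · have h4' : n = 4 := le_antisymm hn4 h4
    intro o
    filter_upwards [ae_all_iff.2 hR, dfo_of H.toPk hTop hF, hw o, rg_ths H hTop hF,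
      gs_swp H.toPk hTop hF h4, rwh_ae H hTop hF (h := h)] with g k1 k2 k3 k4 k5 k6 R hS
    have ho := R.rwd.mem
    rcases k3 R hS with h5 | h7
    · exact h5
    by_cases hD : DfO hn P' o g
    · exact k1 o R hS hD
    exfalso
    have e2 : LL hn P P' o (n - 3 + 1) = bet (P' o.2) (cc hn o.1.1) (n - 3) := by
      rw [LL_low (by omega) (by omega), Nat.add_sub_cancel]
    -- the pair
    have hno : ¬ (bet (P' o.2) (cc hn o.1.1) (n - 3) g g <
        tau (P' o.2) (cc hn o.1.1) (n - 3) (n - 2) g g ∨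
        StaAt (tau (P' o.2) (cc hn o.1.1) (n - 3) (n - 2)) g ∨
        RgUp (bet (P' o.2) (cc hn o.1.1) (n - 3)) g (bet (P' o.2) (cc hn o.1.1) (n - 3) g g)
          (deriv (fun a => bet (P' o.2) (cc hn o.1.1) (n - 3) a a) g)) := by
      intro h8
      refine hD (k2 o ho fun i hi l hl hl1 => ?_)
      have e1 : l = n - 3 := by omega
      have e3 : i = n - 2 := by omega
      rw [e1, e3]
      exact h8
    push Not at hno
    obtain ⟨h8, h9, h10⟩ := hno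
    have hsta : StaAt (bet (P' o.2) (cc hn o.1.1) (n - 3)) g := by
      rcases k4 o ho (n - 3) (by omega) (h7 (n - 3) (by omega)) with h11 | h11
      · rwa [e2] at h11
      · rw [e2] at h11
        exact absurd h11 h10
    -- the exchanged order
    have ho' := k5 o ho h8
    have R' := k6 o (swp h4 o) R ho'
    have hD' : DfO hn P' (swp h4 o) g := by
      refine k2 (swp h4 o) ho' fun i hi l hl hl1 => ?_
      have e1 : l = n - 3 := by omega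
      have e3 : i = n - 2 := by omega
      rw [e1, e3, tau_swp1 h4 o]
      exact Or.inr (Or.inl hsta)
    have h11 := k1 (swp h4 o) R' hS hD' (n - 3) (by omega)
    rw [LL_low (by omega) (by omega), Nat.add_sub_cancel, bet_swp1 h4 o] at h11
    exact h9 h11

end Pool.MV

namespace Pool.ASM

open MeasureTheory Set Filter Topology
open Pool.Agent.H49.Ent Pool.Agent.H32.Dense Pool.STK Pool.KA Pool.KSAT Pool.K2S Pool.PB
open Pool.GEN Pool.S6C Pool.GRW Pool.PKG Pool.STAT Pool.PM Pool.R1 Pool.Z4 Pool.CHT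
open Pool.ONE (LocE Ext0 Ext rowN_of_ext)
open Pool.TOP (TopS rw_all)
open Pool.LEV (Law Lv)
open Pool.STR (NumI TopW Mac StaAt IsoAt StaU1 ThinAt SteepAt Rle)
open Pool.MIC6
open Pool.ISO (lvN)
open Pool.ZFI (LF)
open Pool.SW (TopC NtO OneS NoTie Rgh Xa TieO)
open Pool.MV (DfO NvU mevY_of Xb xb_of)

/-- **The data on the events** near the windows `Xb`, all classes. -/
def LMevB (n : ℕ) : Prop := (∀ k, 2 ≤ k → k < n → Ext0 k) →
  Tol fun η => LocE n η MicRt →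
    AllC n η fun {hn} {S} {P} {r} {P'} {Λ} {PB} H hTop hF h =>
      ∃ Y : Od n → ℝ → Prop, (∀ o : Od n, ∀ᵐ g : ℝ, g ∈ Gs P r P' Λ o → Y o g) ∧
        ∀ (o : Od n) (l : ℕ), 1 ≤ l → l < n - 1 → MevY hn S P r P' Λ o l
          (fun g => RwH H hTop hF h o g ∧ Xb hn P P' PB o l g ∧ DfO hn P' o g ∧ Y o g)

theorem lMevD_B {n : ℕ} (h : LMevB n) : LMevD n := fun hi => by
  refine (h hi).mono fun η k hMic => ?_
  intro hn hZ hF hTop D hD hD1 hE S P r P' Λ PB H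
  obtain ⟨Y, k1, k2⟩ := k hMic hn hZ hF hTop D hD hD1 hE S P r P' Λ PB H
  exact ⟨Y, k1, fun o l hl1 hl => (k2 o l hl1 hl).mono fun g hg =>
    ⟨hg.1, xb_of hg.2.1, hg.2.2.1, hg.2.2.2⟩⟩

/-- **The variations** near the windows `Xb` with `Z`, all classes. -/
def LNvBZ (n l i : ℕ) (Z : (ℝ → ℝ → ℝ) → ℝ → Prop) : Prop := (∀ k, 2 ≤ k → k < n → Ext0 k) →
  Tol fun η => LocE n η MicRt →
    AllC n η fun {hn} {S} {P} {r} {P'} {Λ} {PB} H hTop hF h =>
      ∃ Y : Od n → ℝ → Prop, (∀ o : Od n, ∀ᵐ g : ℝ, g ∈ Gs P r P' Λ o → Y o g) ∧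
        ∀ o : Od n, ∀ g ∈ Gs P r P' Λ o, RwH H hTop hF h o g → Xb hn P P' PB o l g →
          DgL hn P P' o g → DfO hn P' o g → Y o g → Z (LL hn P P' o 2) g →
          ∀ E ϱ : ℝ, 0 < E → 0 < ϱ →
          (∀ i ≤ n - 1, lvN (P' o.2) (cc hn o.1.1) (n - 1) P i g g + E + 8 * ϱ < 1) →
          NvU S (cc hn o.1.1) (n - 1) l i (lvN (P' o.2) (cc hn o.1.1) (n - 1) P) E ϱ g

/-- **The variations**, near all the windows `Xb`. -/
def LNvB (n l i : ℕ) : Prop := LNvBZ n l i fun _ _ => True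

theorem lNvZ_B {n l i : ℕ} {Z : (ℝ → ℝ → ℝ) → ℝ → Prop} (h : LNvBZ n l i Z) : LNvZ n l i Z :=
    fun hi => by
  refine (h hi).mono fun η k hMic => ?_
  intro hn hZ hF hTop D hD hD1 hE S P r P' Λ PB H
  obtain ⟨Y, k1, k2⟩ := k hMic hn hZ hF hTop D hD hD1 hE S P r P' Λ PB H
  exact ⟨Y, k1, fun o g hg R hX => k2 o g hg R (xb_of hX)⟩

/-- The variations from two cases for the second coordinate of the base. -/
theorem lNvB_or {n l i : ℕ} {Z Z' : (ℝ → ℝ → ℝ) → ℝ → Prop} (h1 : LNvBZ n l i Z)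
    (h2 : LNvBZ n l i Z') (hZ : ∀ L g, Z L g ∨ Z' L g) : LNvB n l i := fun hi => by
  refine ((h1 hi).and (h2 hi)).mono fun η h hMic => ?_
  intro hn hZ' hF hTop D hD hD1 hE S P r P' Λ PB H
  obtain ⟨Y₁, a1, b1⟩ := h.1 hMic hn hZ' hF hTop D hD hD1 hE S P r P' Λ PB H
  obtain ⟨Y₂, a2, b2⟩ := h.2 hMic hn hZ' hF hTop D hD hD1 hE S P r P' Λ PB H
  refine ⟨fun o g => Y₁ o g ∧ Y₂ o g, fun o => ?_, fun o g hg R hX hDg hDf hY _ => ?_⟩
  · filter_upwards [a1 o, a2 o] with g k1 k2 hg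
    exact ⟨k1 hg, k2 hg⟩
  · rcases hZ (LL hn P P' o 2) g with h3 | h3
    · exact b1 o g hg R hX hDg hDf hY.1 h3
    · exact b2 o g hg R hX hDg hDf hY.2 h3

/-- **The data on the events from the variations.** -/
theorem lMevB_nv {n : ℕ} (h : ∀ l i, 1 ≤ l → l < n - 1 → l < i → i ≤ n - 1 → LNvB n l i) :
    LMevB n := fun hi => by
  have h1 : Tol fun η => ∀ x : Fin n × Fin n, 1 ≤ (x.1 : ℕ) → (x.1 : ℕ) < n - 1 →
      (x.1 : ℕ) < x.2 → LocE n η MicRt →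
      AllC n η fun {hn} {S} {P} {r} {P'} {Λ} {PB} H hTop hF h =>
      ∃ Y : Od n → ℝ → Prop, (∀ o : Od n, ∀ᵐ g : ℝ, g ∈ Gs P r P' Λ o → Y o g) ∧
        ∀ o : Od n, ∀ g ∈ Gs P r P' Λ o, RwH H hTop hF h o g → Xb hn P P' PB o x.1 g →
          DgL hn P P' o g → DfO hn P' o g → Y o g → True →
          ∀ E ϱ : ℝ, 0 < E → 0 < ϱ →
          (∀ i ≤ n - 1, lvN (P' o.2) (cc hn o.1.1) (n - 1) P i g g + E + 8 * ϱ < 1) →
          NvU S (cc hn o.1.1) (n - 1) x.1 x.2 (lvN (P' o.2) (cc hn o.1.1) (n - 1) P) E ϱ g := by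
    refine Tol.fin fun x => ?_
    by_cases hx : 1 ≤ (x.1 : ℕ) ∧ (x.1 : ℕ) < n - 1 ∧ (x.1 : ℕ) < x.2
    · exact (h x.1 x.2 hx.1 hx.2.1 hx.2.2 (by have := x.2.2; omega) hi).mono fun η k _ _ _ => k
    · exact Tol.of_all fun _ _ _ k1 k2 k3 => absurd ⟨k1, k2, k3⟩ hx
  refine h1.mono fun η k hMic => ?_
  intro hn hZ hF hTop D hD hD1 hE S P r P' Λ PB H
  have key : ∀ x : Fin n × Fin n, ∃ Y : Od n → ℝ → Prop,
      (∀ o : Od n, ∀ᵐ g : ℝ, g ∈ Gs P r P' Λ o → Y o g) ∧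
      (1 ≤ (x.1 : ℕ) → (x.1 : ℕ) < n - 1 → (x.1 : ℕ) < x.2 → ∀ o : Od n, ∀ g ∈ Gs P r P' Λ o,
          RwH H hTop hF ((1 - η D) * D) o g → Xb hn P P' PB o x.1 g →
          DgL hn P P' o g → DfO hn P' o g → Y o g → True →
          ∀ E ϱ : ℝ, 0 < E → 0 < ϱ →
          (∀ i ≤ n - 1, lvN (P' o.2) (cc hn o.1.1) (n - 1) P i g g + E + 8 * ϱ < 1) →
          NvU S (cc hn o.1.1) (n - 1) x.1 x.2 (lvN (P' o.2) (cc hn o.1.1) (n - 1) P) E ϱ g) := by
    intro x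
    by_cases hx : 1 ≤ (x.1 : ℕ) ∧ (x.1 : ℕ) < n - 1 ∧ (x.1 : ℕ) < x.2
    · obtain ⟨Y, k1, k2⟩ := k x hx.1 hx.2.1 hx.2.2 hMic hn hZ hF hTop D hD hD1 hE S P r P' Λ PB H
      exact ⟨Y, k1, fun _ _ _ => k2⟩
    · exact ⟨fun _ _ => True, fun _ => Eventually.of_forall fun _ _ => trivial,
        fun k1 k2 k3 => absurd ⟨k1, k2, k3⟩ hx⟩
  choose Y hY hNV using key
  refine ⟨fun o g => DgL hn P P' o g ∧ ∀ x, Y x o g, fun o => ?_, fun o l hl1 hl => ?_⟩
  · filter_upwards [ae_all_iff.2 fun x => hY x o, H.toPk.dgL_ae] with g k1 k2 hg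
    exact ⟨k2 hg.1.1.1 hg.1.1.2.1 o, fun x => k1 x hg⟩
  · refine mevY_of H.toPk hTop hF hl (fun g hg hX => ?_) fun g hg hX E ϱ hE' hϱ hroom i hi1 hi2 =>
      hNV (⟨l, by omega⟩, ⟨i, by omega⟩) hl1 hl hi1 o g hg hX.1 hX.2.1 hX.2.2.2.1 hX.2.2.1
        (hX.2.2.2.2 _) trivial E ϱ hE' hϱ hroom
    obtain ⟨R, hXa, hDf, hDg, hY'⟩ := hX
    refine ⟨hDg, hDf, deriv (fun a => LL hn P P' o (l + 1) a a) g - 1, ?_⟩
    have hCf := hXa.cfg
    have g0 : 0 < g := hg.1.1.1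
    have g1 : g < 1 := hg.1.1.2.1
    exact Pool.ZL.aff_rg (Z4.ll_law H.toPk o hl.le) g0 g1 (hCf.lt l hl.le) hCf.rg
      (Pool.STR.dgLo_of (hCf.dif l hl.le))

/-- In dimension three there is one leaf. -/
theorem lMevB_three (h : LNvB 3 1 2) : LMevB 3 := lMevB_nv fun l i h1 h2 h3 h4 => by
  have e1 : l = 1 := by omega
  have e2 : i = 2 := by omega
  subst e1 e2
  exact h

/-- In dimension four there are three leaves. -/
theorem lMevB_four (h12 : LNvB 4 1 2) (h13 : LNvB 4 1 3) (h23 : LNvB 4 2 3) : LMevB 4 :=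
  lMevB_nv fun l i h1 h2 h3 h4 => by
    have e1 : l = 1 ∨ l = 2 := by omega
    have e2 : i = 2 ∨ i = 3 := by omega
    rcases e1 with rfl | rfl <;> rcases e2 with rfl | rfl
    · exact h12
    · exact h13
    · omega
    · exact h23

variable {n : ℕ} {hn : 2 ≤ n} {S : PCl n} {P : ℝ → ℝ → ℝ} {r : ℝ → ℝ}
  {P' : ℕ → List (Fin n) × Fin n → ℝ → ℝ → ℝ} {Λ : Finset (Fin n) → Fin n → ℝ → ℝ → ℝ}
  {PB : ℕ → List (Fin n) × Fin n → ℝ → ℝ → ℝ}

/-- The rough coordinate is almost affine. -/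
theorem cfg_aff (H : Pk hn S P r P' Λ) {o : Od n} {l : ℕ} {g : ℝ} (hg : g ∈ Gs P r P' Λ o)
    (hCf : Pool.Z4.Cfg hn P P' o l g) :
    0 < deriv (fun a => LL hn P P' o (l + 1) a a) g - 1 ∧
    Pool.ZL.AffA (LF hn P P' o l) g 1 (deriv (fun a => LL hn P P' o (l + 1) a a) g - 1) := by
  have g0 : 0 < g := hg.1.1.1
  have g1 : g < 1 := hg.1.1.2.1
  refine ⟨by linarith [hCf.one], ?_⟩
  exact Pool.ZL.aff_rg (Z4.ll_law H o hCf.ln.le) g0 g1 (hCf.lt l hCf.ln.le) hCf.rg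
    (Pool.STR.dgLo_of (hCf.dif l hCf.ln.le))

/-- **The variations for `c 0, c 1; c 2`.** -/
theorem lNvB_12 {n : ℕ} (h3 : 3 ≤ n) : LNvB n 1 2 := fun _ => Tol.of_all fun η _ _ _ => by
  intro hn hZ hF hTop D hD hD1 hE S P r P' Λ PB H
  refine ⟨fun o g => HasDerivAt (fun v => LF hn P P' o 0 v v) 1 g, fun o => ?_,
    fun o g hg R hX hDg hDf hY _ E ϱ hE hϱ hroom => ?_⟩
  · filter_upwards [one_act H.toPk hTop hF] with g k hg
    exact k o hg
  · obtain ⟨ht, hA⟩ := cfg_aff H.toPk hg hX.cfg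
    exact Pool.NVX.nvU_12 H.toPk hTop hF h3 hg hDg hDf hY hA ht hE hϱ hroom

/-- **The data on the events in dimension three.** -/
theorem lMevB_3 : LMevB 3 := lMevB_three (lNvB_12 le_rfl)

end Pool.ASM
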