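import Pool.Agent.H82.MV.N23b
import Pool.Agent.H82.MV.Nor9
import Pool.Agent.H39.NV.ClsB

/-!
# The leaf for `c 0, c 1, c 2; c 3`, `c 1` static

`lNvB_23s`: the variations (2, 3) near the windows at which the second coordinate is static.
-/

set_option autoImplicit false

namespace Pool.NVX

/-- **The class theorem** for `c 0, c 1, c 2; c 3`, `c 1` static. -/
theorem nvdB_all (m D : ℕ) (hD : 1 ≤ D) : NvdB m D := nvd_b (nvB_of m D hD)

end Pool.NVX

namespace Pool.ASM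

open MeasureTheory Set Filter Topology
open Pool.Agent.H49.Ent Pool.Agent.H32.Dense Pool.STK Pool.KA Pool.KSAT Pool.K2S Pool.PB
open Pool.GEN Pool.S6C Pool.GRW Pool.PKG Pool.STAT Pool.PM Pool.R1 Pool.Z4 Pool.CHT
open Pool.ONE (LocE Ext0 Ext rowN_of_ext)
open Pool.TOP (TopS rw_all)
open Pool.LEV (Law Lv)
open Pool.STR (NumI TopW Mac StaAt IsoAt StaU1 ThinAt SteepAt Rle)
open Pool.MIC6
open Pool.ISO (lvN)
open Pool.ZL (AffA)
open Pool.ZFI (LF)
open Pool.MV (DfO NvU mevY_of Xb xb_of)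

variable {n : ℕ} {hn : 2 ≤ n} {S : PCl n} {P : ℝ → ℝ → ℝ} {r : ℝ → ℝ}
  {P' : ℕ → List (Fin n) × Fin n → ℝ → ℝ → ℝ} {Λ : Finset (Fin n) → Fin n → ℝ → ℝ → ℝ}
  {PB : ℕ → List (Fin n) × Fin n → ℝ → ℝ → ℝ}

/-- **The active coordinate is affine** at almost every good window. -/
theorem act_aff (H : PkT hn S P r P' Λ PB) (hTop : TopS n) (hF : FZX (n - 1)) :
    ∀ᵐ g : ℝ, ∀ o : Od n, g ∈ Gs P r P' Λ o → AffA (LF hn P P' o 0) g 1 0 := by
  filter_upwards [one_act H.toPk hTop hF, ae_all_iff.2 fun o => sta_zero H hTop hF o]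
    with g h1 h2 o hg
  have g0 : 0 < g := hg.1.1.1
  have g1 : g < 1 := hg.1.1.2.1
  have h3 := h1 o hg
  have h4 := aff_sta (P := LF hn P P' o 0) (Z4.ll_law H.toPk o (i := 0) (by omega)) g0 g1
    h3.differentiableAt (h2 o hg)
  rwa [h3.deriv] at h4

/-- **The variations for `c 0, c 1, c 2; c 3`**, `c 1` static. -/
theorem lNvB_23s {n : ℕ} (h4 : 4 ≤ n) : LNvBZ n 2 3 fun L g => StaAt L g :=
    fun _ => Tol.of_all fun η _ _ _ => by
  intro hn hZ hF hTop D hD hD1 hE S P r P' Λ PB H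
  refine ⟨fun o g => AffA (LF hn P P' o 0) g 1 0, fun o => ?_,
    fun o g hg R hX hDg hDf hY hst E ϱ hE hϱ hroom => ?_⟩
  · filter_upwards [act_aff H hTop hF] with g k hg
    exact k o hg
  · obtain ⟨ht, hA⟩ := cfg_aff H.toPk hg hX.cfg
    have g0 : 0 < g := hg.1.1.1
    have g1 : g < 1 := hg.1.1.2.1
    have hA1 := aff_sta (P := LF hn P P' o 1) (Z4.ll_law H.toPk o (i := 1) (by omega)) g0 g1
      (hX.cfg.dif 1 (by omega)) hst
    exact Pool.NVX.nvU_23b (fun D hD => Pool.NVX.nvdB_all n D hD) H.toPk hTop hF h4 hg hDg hDf hY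
      hA1 (hX.one1 1 le_rfl (by omega)) hA ht hE hϱ hroom

end Pool.ASM
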