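import Pool.Agent.H82.MV.N13
import Pool.Agent.H82.MV.Lf23b

/-!
# The leaf for `c 0, c 1, c 2; c 3`, `c 2` static, in dimension four

`lNvB_13`: the variations (1, 3) in dimension four.
-/

set_option autoImplicit false

namespace Pool.ASM

open MeasureTheory Set Filter Topology
open Pool.Agent.H49.Ent Pool.Agent.H32.Dense Pool.STK Pool.KA Pool.KSAT Pool.K2S Pool.PB
open Pool.GEN Pool.S6C Pool.GRW Pool.PKG Pool.STAT Pool.PM Pool.R1 Pool.Z4 Pool.CHT
open Pool.ONE (LocE Ext0 Ext rowN_of_ext)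
open Pool.TOP (TopS rw_all)
open Pool.LEV (Law Lv)
open Pool.STR (NumI TopW Mac StaAt IsoAt StaU1 ThinAt SteepAt Rle)
open Pool.MIC6
open Pool.ISO (lvN)
open Pool.ZL (AffA)
open Pool.ZFI (LF)
open Pool.MV (DfO NvU mevY_of Xb xb_of)

/-- **The variations for `c 0, c 1, c 2; c 3`** in dimension four, `c 2` static. -/
theorem lNvB_13 {n : ℕ} (h4 : n = 4) : LNvB n 1 3 := fun _ => Tol.of_all fun η _ _ _ => by
  intro hn hZ hF hTop D hD hD1 hE S P r P' Λ PB H
  refine ⟨fun o g => AffA (LF hn P P' o 0) g 1 0, fun o => ?_,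
    fun o g hg R hX hDg hDf hY _ E ϱ hE hϱ hroom => ?_⟩
  · filter_upwards [act_aff H hTop hF] with g k hg
    exact k o hg
  · obtain ⟨ht, hA⟩ := cfg_aff H.toPk hg hX.cfg
    have g0 : 0 < g := hg.1.1.1
    have g1 : g < 1 := hg.1.1.2.1
    have hA2 := aff_sta (P := LF hn P P' o 2) (Z4.ll_law H.toPk o (i := 2) (by omega)) g0 g1
      (hX.cfg.dif 2 (by omega)) (hX.cfg.sta 2 (by omega) (by omega))
    exact Pool.NVX.nvU_13 H.toPk hTop hF (by omega) hg hDg hDf hY hA ht hA2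
      (hX.one1 2 (by omega) (by omega)) hE hϱ hroom

end Pool.ASM
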