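import Pool.Agent.H82.MV.Fin4
import Pool.Agent.H80.NTT.Nvt3

/-!
# The movable velocities in dimension four

`lMevB4`: `LMevB 4`.
-/

set_option autoImplicit false

namespace Pool.ASM

/-- **`LMevB 4`.** -/
theorem lMevB4 : LMevB 4 := lMevB_4t fun D M hD => Pool.NVX.nv_t3 4 D M hD

end Pool.ASM
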