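import Pool.Agent.H77.Z4.Nor6

/-!
# The static chains at the windows with a property

`nore_ofY`, `nore_of5Y`, `nore_indY`: the statements of `Nor`, `Nor5` and `Nor6` with the
counts and the conclusion only at the windows with a property `Y`, which need not hold at almost
every window.
-/

set_option autoImplicit false

namespace Pool.MV

open MeasureTheory Set Filter Topology
open Pool.Agent.H49.Ent Pool.Agent.H32.Dense Pool.STK Pool.KA Pool.KSAT Pool.K2S Pool.PB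
open Pool.GEN Pool.S6C Pool.STAT Pool.CHT Pool.GRW Pool.ONE Pool.STA Pool.PKG Pool.ZFN Pool.TOP
open Pool.Z4
open Pool.LBT (LSys ThrOf)
open Pool.LEV (Law Lv)
open Pool.ALL (RateOf)
open Pool.STR (NumI StaAt ThinAt SteepAt MicW)
open Pool.EXW
open Pool.SW (Xa ExV TieO TopC hc0_aY)

variable {n : ℕ} {hn : 2 ≤ n} {S : PCl n} {P : ℝ → ℝ → ℝ} {r : ℝ → ℝ}
  {P' : ℕ → List (Fin n) × Fin n → ℝ → ℝ → ℝ} {Λ : Finset (Fin n) → Fin n → ℝ → ℝ → ℝ}
  {PB : ℕ → List (Fin n) × Fin n → ℝ → ℝ → ℝ}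

/-- No rough coordinate in the rows with deficit more than `h`, at the windows with `Y`. -/
def NoRY (H : PkT hn S P r P' Λ PB) (hTop : TopS n) (hF : FZX (n - 1)) (h : ℝ)
    (Y : Od n → ℝ → Prop) : Prop :=
  ∀ o : Od n, ∀ᵐ g : ℝ, RwH H hTop hF h o g → 1 < deriv (fun a => P a a) g → Y o g →
    ∀ i < n - 1, StaAt (LL hn P P' o (i + 1)) g

/-- **The static chains from the counts**, at the windows with `Y`. -/
theorem nore_ofY (H : PkT hn S P r P' Λ PB) (hTop : TopS n) (hF : FZX (n - 1)) {h : ℝ}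
    {Y : Od n → ℝ → Prop}
    (hN : ∀ o : Od n, ∀ᵐ g : ℝ, RwH H hTop hF h o g → 1 < deriv (fun a => P a a) g → StaAt P g)
    (hb : ∀ o : Od n, ∀ᵐ g : ℝ, RwH H hTop hF h o g → 1 < deriv (fun a => P a a) g →
      ∀ l, 1 ≤ l → l < n - 1 → (∀ i, l < i → i ≤ n - 1 → StaAt (LL hn P P' o (i + 1)) g) →
      StaAt (LL hn P P' o (l + 1)) g ∨ RgUp (LL hn P P' o (l + 1)) g (LL hn P P' o (l + 1) g g)
        (deriv (fun a => LL hn P P' o (l + 1) a a) g))
    (hc : ∀ (o : Od n) (l : ℕ), ∀ᵐ g : ℝ, RwH H hTop hF h o g → 1 < deriv (fun a => P a a) g →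
      Y o g → Cfg hn P P' o l g → False) : NoRY H hTop hF h Y := by
  intro o
  filter_upwards [hN o, hb o, ae_all_iff.2 (hc o), sta_zero H hTop hF o] with g k1 k2 k3 k4 R hS hY
  by_contra hcon
  push Not at hcon
  obtain ⟨i₀, hi₀, hi₀'⟩ := hcon
  have hdg : ∀ i ≤ n - 1, (H.nk hTop hF).dg o i = fun a => LL hn P P' o (i + 1) a a :=
    fun i hi => by
      funext a
      exact H.dg_eq hTop hF o hi a
  -- the last coordinate which is not static
  obtain ⟨l, hl, hns, hmax⟩ : ∃ l, l < n - 1 ∧ ¬ StaAt (LL hn P P' o (l + 1)) g ∧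
      ∀ i, l < i → i < n - 1 → StaAt (LL hn P P' o (i + 1)) g := by
    classical
    obtain ⟨s, hs⟩ : ∃ s : Finset ℕ, ∀ i, i ∈ s ↔ i < n - 1 ∧
        ¬ StaAt (LL hn P P' o (i + 1)) g :=
      ⟨(Finset.range (n - 1)).filter (fun i => ¬ StaAt (LL hn P P' o (i + 1)) g), by simp⟩
    have hne : s.Nonempty := ⟨i₀, (hs i₀).2 ⟨hi₀, hi₀'⟩⟩
    have hm := (hs _).1 (s.max'_mem hne)
    refine ⟨s.max' hne, hm.1, hm.2, fun i h1 h2 => ?_⟩
    by_contra h3
    exact absurd (s.le_max' i ((hs i).2 ⟨h2, h3⟩)) (by omega)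
  have hl1 : 1 ≤ l := by
    by_contra h0
    have : l = 0 := by omega
    rw [this] at hns
    exact hns (k4 R.rwd.mem)
  have hstN : StaAt P g := k1 R hS
  have hsta : ∀ i, l < i → i ≤ n - 1 → StaAt (LL hn P P' o (i + 1)) g := fun i h1 h2 => by
    rcases h2.lt_or_eq with h3 | h3
    · exact hmax i h1 h3
    · rw [h3, LL_lst]
      exact hstN
  have hdif : ∀ i ≤ n - 1, DifferentiableAt ℝ (fun a => LL hn P P' o (i + 1) a a) g :=
    fun i hi => by
      rw [← hdg i hi]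
      exact R.rwd.dif i hi
  rcases k2 R hS l hl1 hl hsta with h5 | h5
  · exact hns h5
  refine k3 l R hS hY ⟨hl1, hl, hdif, fun i hi => ?_, ?_, h5, hsta⟩
  · have := R.rwd.lt i hi
    rwa [hdg i hi] at this
  · by_contra h6
    push Not at h6
    exact hns (sta_of_one (Z4.ll_law (H.toPk) o (by omega)) R.rwd.g0 R.rwd.g1
      (ll_le1 (H.toPk) o (by omega)) (hdif l (by omega)) h6)

/-- **The windows of the rows with deficit more than `h`**: all the coordinates of the base are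
static, or all the slopes besides the first one are larger than one and the coordinates of the base
are thin or static. -/
theorem win_ths (H : PkT hn S P r P' Λ PB) (hTop : TopS n) (hF : FZX (n - 1)) {h : ℝ}
    (hM : MicRt P r h) (hV : V0C H hTop hF h)
    (hbig : ∀ o : Od n, ∀ᵐ g : ℝ, RwH H hTop hF h o g → 1 < deriv (fun a => P a a) g →
      StaAt P g → One1 hn P P' o g → ∀ i, 1 ≤ i → i < n - 1 →
      (∀ l < i, ThS hn P P' PB o l g) →
      2 < deriv (fun a => LL hn P P' o (i + 1) a a) g →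
      SteepAt 2 (LvT hn PB o i) g → StaAt (LL hn P P' o (i + 1)) g) (o : Od n) :
    ∀ᵐ g : ℝ, RwH H hTop hF h o g → 1 < deriv (fun a => P a a) g →
      StaAt P g ∧ ((∀ i < n - 1, StaAt (LL hn P P' o (i + 1)) g) ∨
        (One1 hn P P' o g ∧ 2 ≤ deriv (fun a => P a a) g ∧
          ∀ i < n - 1, ThS hn P P' PB o i g)) := by
  filter_upwards [sta_mic H hTop hF hM o, hV o, hbig o, ths_of H hTop hF, win2 H hTop hF]
    with g a1 a0 a2 a3 a4 R hS
  refine ⟨a1 R, ?_⟩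
  by_cases hex : ∃ i, 1 ≤ i ∧ i < n - 1 ∧ deriv (fun a => LL hn P P' o (i + 1) a a) g ≤ 1
  · exact Or.inl (a0 R hS (a1 R) hex)
  · push Not at hex
    have h1 : One1 hn P P' o g := fun i h1 h2 => hex i h1 h2
    have b1 := a3 o R.rwd.mem (a2 R hS (a1 R) h1)
    exact Or.inr ⟨h1, a4 o R.rwd.mem hS (a1 R) b1, b1⟩

/-- **The static chains** at the windows with `Y`. -/
theorem nore_of5Y (H : PkT hn S P r P' Λ PB) (hTop : TopS n) (hF : FZX (n - 1)) {h : ℝ}
    (hh : 0 ≤ h) (hM : MicRt P r h) {Y : Od n → ℝ → Prop} (hV : V0C H hTop hF h)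
    (hbig : ∀ o : Od n, ∀ᵐ g : ℝ, RwH H hTop hF h o g → 1 < deriv (fun a => P a a) g →
      StaAt P g → One1 hn P P' o g → ∀ i, 1 ≤ i → i < n - 1 →
      (∀ l < i, ThS hn P P' PB o l g) →
      2 < deriv (fun a => LL hn P P' o (i + 1) a a) g →
      SteepAt 2 (LvT hn PB o i) g → StaAt (LL hn P P' o (i + 1)) g)
    (hc : ∀ (o : Od n) (l : ℕ), ∀ᵐ g : ℝ, RwH H hTop hF h o g → Xv hn P P' PB o l g → Y o g →
      deriv (fun a => P a a) g * (1 - deriv r (P g g)) ≤
        h * deriv (fun a => LL hn P P' o (l + 1) a a) g)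
    (hc0 : ∀ (o : Od n) (l : ℕ), ∀ᵐ g : ℝ, RwH H hTop hF h o g → Xa hn P P' PB o l g → Y o g →
      deriv (fun a => P a a) g < deriv (fun a => LL hn P P' o (l + 1) a a) g → False) :
    NoRY H hTop hF h Y := by
  have hw := win_ths H hTop hF hM hV hbig
  refine nore_ofY H hTop hF (fun o => ?_) (fun o => ?_) fun o l => ?_
  · filter_upwards [sta_mic H hTop hF hM o] with g h1 R _
    exact h1 R
  · filter_upwards [hw o, rg_ths H hTop hF] with g h1 h3 R hS l hl1 hl _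
    rcases (h1 R hS).2 with h4 | h4
    · exact Or.inl (h4 l hl)
    · exact h3 o R.rwd.mem l hl.le (h4.2.2 l hl)
  · filter_upwards [hw o, hc o l, hc0 o l] with g h1 h2 h3 R hS hY hC
    obtain ⟨b0, b4⟩ := h1 R hS
    rcases b4 with b4 | ⟨b3, b1, b2⟩
    · have h5 := slope_sr (hC.dif l hC.ln.le) (b4 l hC.ln) hC.rg
      exact absurd hC.one (not_lt.2 h5)
    refine h3 R ⟨b0, b1, b3, b2, hC⟩ hY ?_
    by_contra hcon
    push Not at hcon
    have h5 := h2 R ⟨⟨b0, b1, b2, hC, hcon⟩, b3⟩ hY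
    have h7 := R.defi
    have h8 : deriv (fun a => P a a) g * h < deriv (fun a => P a a) g * (1 - deriv r (P g g)) :=
      mul_lt_mul_of_pos_left (by linarith) (by linarith)
    have h10 := mul_le_mul_of_nonneg_left hcon hh
    linarith

/-- **The static chains of a package**, inside the induction, at the windows with `Y`. -/
theorem nore_indY {η : ℝ → ℝ} (hMic : LocE n η MicRt) (hi : ∀ k, 2 ≤ k → k < n → Ext0 k)
    (hn : 2 ≤ n) (hn4 : n ≤ 4) (hZ : ∀ k, 1 ≤ k → k < n → FZX k) (hF : FZX (n - 1))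
    (hTop : TopS n)
    {D : ℝ} (hD : 0 < D) (hD1 : D ≤ 1) (hη : 0 < η D) (hη1 : η D ≤ 1)
    (hE : Ext n ((1 + η D) * D)) (H : PkT hn S P r P' Λ PB)
    (hV : V0C H hTop hF ((1 - η D) * D))
    (hbig : ∀ o : Od n, ∀ᵐ g : ℝ, RwH H hTop hF ((1 - η D) * D) o g →
      1 < deriv (fun a => P a a) g → StaAt P g → One1 hn P P' o g → ∀ i, 1 ≤ i → i < n - 1 →
      (∀ l < i, ThS hn P P' PB o l g) →
      2 < deriv (fun a => LL hn P P' o (i + 1) a a) g →
      SteepAt 2 (LvT hn PB o i) g → StaAt (LL hn P P' o (i + 1)) g)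
    (hEV : ExV hn hTop hF) (hT : n = 4 → TieO hn hTop hF (TopC n)) {Y : Od n → ℝ → Prop}
    (hMev : ∀ (o : Od n) (l : ℕ), 1 ≤ l → l < n - 1 → MevY hn S P r P' Λ o l
        (fun g => RwH H hTop hF ((1 - η D) * D) o g ∧ Xa hn P P' PB o l g ∧ Y o g)) :
    NoRY H hTop hF ((1 - η D) * D) Y := by
  have h1 : (1 - η D) * D < 1 := by nlinarith
  have h0 : 0 ≤ (1 - η D) * D := mul_nonneg (by linarith) hD.le
  have hW := rw_all hZ fun k k1 k2 => rowN_of_ext (hi k k1 k2)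
  refine nore_of5Y H hTop hF h0 (mic_pk hMic hn hZ hD hD1 hE H.toPk) hV hbig
    (fun o l => ?_) fun o l => ?_
  · filter_upwards [cnt_mevY H hTop (hZ 1 le_rfl (by omega)) hF hW h0 h1
      (fun al g₀ hal hg₀ N S' P r h2 h3 h4 E =>
        rgFull_locRt hMic hn hZ hD hD1 hη1 hE hal hg₀ h2 h3 h4 E) hMev o l]
      with g k1 R hX hY
    exact k1 R.rwd.mem hX.cfg ⟨R, ⟨hX.sta, hX.two, hX.one1, hX.ths, hX.cfg⟩, hY⟩
  · filter_upwards [hc0_aY H hTop (hZ 1 le_rfl (by omega)) hF hn4 hW hEV hT h0 hMev o l]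
      with g k1 R hX hY h6
    exact k1 R hX hY h6

end Pool.MV
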