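import Pool.Agent.H82.MV.Swp
import Pool.Agent.H82.MV.NorY
import Pool.Agent.H82.ZF.Cn

/-!
# The order is greedy up to `o (R)`

`OkP B T g`: near `g` the level `B` is at most the level `T`, up to `o (R)`. `okp_lt`, `okp_rg`,
`okp_sta`: the three cases; `okp_zero`: the active coordinate. `dfo_of`: the order is greedy up to
`o (R)` at almost every good window at which for each pair one of the three cases holds.
-/

set_option autoImplicit false

namespace Pool.MV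

open MeasureTheory Set Filter Topology
open Pool.Agent.H49.Ent Pool.Agent.H32.Dense Pool.STK Pool.KA Pool.KSAT Pool.K2S Pool.PB
open Pool.GEN Pool.S6C Pool.CHT Pool.GRW Pool.PKG Pool.ZFN
open Pool.TOP (TopS)
open Pool.LEV (Law)
open Pool.STR (StaAt)
open Pool.QNT (affB_of)

/-- Near `g` the level `B` is at most the level `T`, up to `o (R)`. -/
def OkP (B T : ℝ → ℝ → ℝ) (g : ℝ) : Prop :=
  ∀ ε : ℝ, 0 < ε → ∃ ρ : ℝ, 0 < ρ ∧ ∀ R : ℝ, 0 < R → R ≤ ρ → ∀ a w : ℝ, 0 < w → w ≤ a → a < 1 →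
    |a - g| ≤ R → |w - g| ≤ R → B a w ≤ T a w + ε * R

/-- A strict inequality at the window. -/
theorem okp_lt {B T : ℝ → ℝ → ℝ} {g : ℝ} (hB : Law B) (hT : Law T)
    (cB : ContinuousAt (fun v => B v v) g) (cT : ContinuousAt (fun v => T v v) g)
    (h : B g g < T g g) : OkP B T g := by
  intro ε hε
  obtain ⟨m, hm⟩ : ∃ m, m = (B g g + T g g) / 2 := ⟨_, rfl⟩
  have h1 : ∀ᶠ v in 𝓝 g, B v v < m :=
    cB.eventually (gt_mem_nhds (show B g g < m by rw [hm]; linarith))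
  have h2 : ∀ᶠ v in 𝓝 g, m < T v v :=
    cT.eventually (lt_mem_nhds (show m < T g g by rw [hm]; linarith))
  obtain ⟨δ, hδ, h3⟩ := Metric.eventually_nhds_iff.1 (h1.and h2)
  refine ⟨δ / 2, half_pos hδ, fun R hR hRρ a w hw hwa ha1 haR hwR => ?_⟩
  have k1 := (h3 (y := a) (by rw [Real.dist_eq]; linarith)).1
  have k2 := (h3 (y := w) (by rw [Real.dist_eq]; linarith)).2
  have k3 := hB.mono_w a w a hw.le hwa le_rfl ha1.le
  have k4 := hT.mono_a w a w hw.le le_rfl hwa ha1.le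
  have k5 := mul_pos hε hR
  linarith

/-- A tie: the level above is static. -/
theorem okp_sta {B T : ℝ → ℝ → ℝ} {g σ : ℝ} (hB : Law B)
    (dB : HasDerivAt (fun v => B v v) σ g) (dT : HasDerivAt (fun v => T v v) σ g)
    (h : B g g = T g g) (hst : StaAt T g) : OkP B T g := by
  intro ε hε
  obtain ⟨r₁, hr₁, k1⟩ := affB_of dB.differentiableAt (M := 1) (e := ε / 4) one_pos (by linarith)
  obtain ⟨r₂, hr₂, k2⟩ := affB_of dT.differentiableAt (M := 1) (e := ε / 4) one_pos (by linarith)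
  obtain ⟨r₃, hr₃, k3⟩ := hst (ε / 4) (by linarith)
  refine ⟨min r₁ (min r₂ r₃) / 2, half_pos (lt_min hr₁ (lt_min hr₂ hr₃)),
    fun R hR hRρ a w hw hwa ha1 haR hwR => ?_⟩
  have hm : 0 < min r₁ (min r₂ r₃) := lt_min hr₁ (lt_min hr₂ hr₃)
  have m1 : R < r₁ := by linarith [min_le_left r₁ (min r₂ r₃)]
  have m2 : R < r₂ := by linarith [min_le_right r₁ (min r₂ r₃), min_le_left r₂ r₃]
  have m3 : R < r₃ := by linarith [min_le_right r₁ (min r₂ r₃), min_le_right r₂ r₃]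
  have c1 := (abs_le.1 (k1 R hR m1 a (by linarith))).2
  have c2 := (abs_le.1 (k2 R hR m2 a (by linarith))).1
  have b1 := abs_le.1 haR
  have b2 := abs_le.1 hwR
  have c3 := k3 R hR m3 a w (by linarith [b2.1]) hwa (by linarith [b1.2])
  have c4 := hB.mono_w a w a hw.le hwa le_rfl ha1.le
  rw [dB.deriv] at c1
  rw [dT.deriv] at c2
  have hεR := mul_pos hε hR
  have e1 : ε / 4 * R = ε * R / 4 := by ring
  rw [e1] at c1 c2 c3
  linarith

/-- A tie: the level below is rough. -/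
theorem okp_rg {B T : ℝ → ℝ → ℝ} {g σ : ℝ} (hT : Law T)
    (dT : HasDerivAt (fun v => T v v) σ g)
    (h : B g g = T g g) (hT1 : T g g < 1) (hrg : RgUp B g (B g g) σ) : OkP B T g := by
  intro ε hε
  obtain ⟨r₁, hr₁, k1⟩ := hrg (ε / 4) (by linarith)
  obtain ⟨r₂, hr₂, k2⟩ := affB_of dT.differentiableAt (M := 1) (e := ε / 4) one_pos (by linarith)
  -- the threshold stays below one
  obtain ⟨r₃, hr₃, k3⟩ : ∃ r₃ : ℝ, 0 < r₃ ∧ ∀ v : ℝ, |v - g| ≤ r₃ → T v v < (1 + T g g) / 2 := by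
    have h1 : ∀ᶠ v in 𝓝 g, T v v < (1 + T g g) / 2 :=
      dT.continuousAt.eventually (gt_mem_nhds (by linarith))
    obtain ⟨δ, hδ, h3⟩ := Metric.eventually_nhds_iff.1 h1
    exact ⟨δ / 2, half_pos hδ, fun v hv => h3 (by rw [Real.dist_eq]; linarith)⟩
  obtain ⟨r₄, hr₄⟩ : ∃ r₄, r₄ = (1 - T g g) / 4 := ⟨_, rfl⟩
  have hr₄0 : 0 < r₄ := by rw [hr₄]; linarith
  refine ⟨min (min r₁ r₂) (min r₃ r₄) / 2,
    half_pos (lt_min (lt_min hr₁ hr₂) (lt_min hr₃ hr₄0)),
    fun R hR hRρ a w hw hwa ha1 haR hwR => ?_⟩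
  have hm : 0 < min (min r₁ r₂) (min r₃ r₄) := lt_min (lt_min hr₁ hr₂) (lt_min hr₃ hr₄0)
  have n1 := min_le_left (min r₁ r₂) (min r₃ r₄)
  have n2 := min_le_right (min r₁ r₂) (min r₃ r₄)
  have m1 : R < r₁ := by linarith [min_le_left r₁ r₂]
  have m2 : R < r₂ := by linarith [min_le_right r₁ r₂]
  have m3 : R < r₃ := by linarith [min_le_left r₃ r₄]
  have m4 : R < r₄ := by linarith [min_le_right r₃ r₄]
  have b1 := abs_le.1 haR
  have b2 := abs_le.1 hwR
  have c1 := k1 R hR m1 a w (by linarith [b2.1]) hwa (by linarith [b1.2])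
  have c2 := (abs_le.1 (k2 R hR m2 w (by linarith))).1
  have c3 := k3 w (by linarith)
  have c4 := hT.slope w w (a - w) hw.le le_rfl (by linarith) (by linarith)
  rw [add_sub_cancel] at c4
  have c5 : T w w + (a - w) < 1 := by
    have : a - w ≤ 2 * R := by linarith [b1.2, b2.1]
    rw [hr₄] at m4
    linarith
  rw [min_eq_right c5.le] at c4
  rw [dT.deriv] at c2
  have hεR := mul_pos hε hR
  have e1 : ε / 4 * R = ε * R / 4 := by ring
  rw [e1] at c1 c2
  linarith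

/-- The active coordinate. -/
theorem okp_zero {B T : ℝ → ℝ → ℝ} {g : ℝ} (hB : Law B) (hg0 : 0 < g) (hg1 : g < 1)
    (hlow : ∀ a : ℝ, 0 < a → a < 1 → a ≤ B a a) (h0 : B g g = g)
    (hd : DifferentiableAt ℝ (fun v => B v v) g)
    (hT : ∀ a w : ℝ, 0 < w → w ≤ a → a < 1 → a ≤ T a w) : OkP B T g := by
  have hmin : IsLocalMin (fun v => B v v - v) g := by
    filter_upwards [Ioo_mem_nhds hg0 hg1] with v hv
    rw [h0]
    have := hlow v hv.1 hv.2
    linarith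
  have hd1 : deriv (fun v => B v v) g = 1 := by
    have h1 : HasDerivAt (fun v => B v v - v) (deriv (fun v => B v v) g - 1) g :=
      hd.hasDerivAt.sub (hasDerivAt_id g)
    have h2 := hmin.hasDerivAt_eq_zero h1
    linarith
  intro ε hε
  obtain ⟨r₁, hr₁, k1⟩ := affB_of hd (M := 1) (e := ε) one_pos hε
  refine ⟨r₁ / 2, half_pos hr₁, fun R hR hRρ a w hw hwa ha1 haR hwR => ?_⟩
  have c1 := (abs_le.1 (k1 R hR (by linarith) a (by linarith))).2
  rw [hd1, h0] at c1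
  have c2 := hB.mono_w a w a hw.le hwa le_rfl ha1.le
  have c3 := hT a w hw hwa ha1
  linarith

/-- Ties: at almost every point of a set where two functions agree their derivatives agree. -/
theorem der_tie {f h : ℝ → ℝ} (G : Set ℝ) : ∀ᵐ g : ℝ, g ∈ G → (∀ x ∈ G, f x = h x) →
    ∀ σ τ : ℝ, HasDerivAt f σ g → HasDerivAt h τ g → σ = τ := by
  filter_upwards [Pool.ZFI.right_ae G] with g h1 hg heq σ τ hf hh
  have hd : HasDerivAt (fun x => f x - h x) (σ - τ) g := hf.sub hh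
  by_contra hne
  have hpos : 0 < |σ - τ| := abs_pos.2 (sub_ne_zero.2 hne)
  obtain ⟨δ, hδ, h2⟩ := Metric.eventually_nhds_iff.1 (hd.isLittleO.def (half_pos hpos))
  obtain ⟨v, hv, hgv, hvδ⟩ := h1 hg δ hδ
  have h3 := h2 (y := v) (by rw [Real.dist_eq, abs_of_pos (by linarith)]; linarith)
  simp only [heq v hv, heq g hg, sub_self, smul_eq_mul, zero_sub, norm_neg, norm_mul,
    Real.norm_eq_abs, abs_of_pos (show 0 < v - g by linarith)] at h3
  have h4 : 0 < v - g := by linarith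
  nlinarith

variable {n : ℕ} {hn : 2 ≤ n} {S : PCl n} {P : ℝ → ℝ → ℝ} {r : ℝ → ℝ}
  {P' : ℕ → List (Fin n) × Fin n → ℝ → ℝ → ℝ} {Λ : Finset (Fin n) → Fin n → ℝ → ℝ → ℝ}
  {o : Od n}

/-- The order is greedy up to `o (R)` if this holds for each pair. -/
theorem dfo_pairs {g : ℝ} (h : ∀ i < n - 1, ∀ l < i,
    OkP (bet (P' o.2) (cc hn o.1.1) l) (tau (P' o.2) (cc hn o.1.1) l i) g) : DfO hn P' o g := by
  intro ε hε
  have key : ∀ i l : ℕ, ∃ ρ : ℝ, 0 < ρ ∧ (i < n - 1 → l < i → ∀ R : ℝ, 0 < R → R ≤ ρ →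
      ∀ a w : ℝ, 0 < w → w ≤ a → a < 1 → |a - g| ≤ R → |w - g| ≤ R →
      bet (P' o.2) (cc hn o.1.1) l a w ≤ tau (P' o.2) (cc hn o.1.1) l i a w + ε * R) := by
    intro i l
    by_cases h1 : i < n - 1 ∧ l < i
    · obtain ⟨ρ, hρ, h2⟩ := h i h1.1 l h1.2 ε hε
      exact ⟨ρ, hρ, fun _ _ => h2⟩
    · exact ⟨1, one_pos, fun h2 h3 => absurd ⟨h2, h3⟩ h1⟩
  choose ρ hρ h1 using key
  obtain ⟨ρ₀, hρ₀, h2⟩ : ∃ ρ₀ : ℝ, 0 < ρ₀ ∧ ∀ i < n, ∀ l < n, ρ₀ ≤ ρ i l := by
    have h3 : ∀ k : ℕ, ∃ ρ₀ : ℝ, 0 < ρ₀ ∧ ∀ i < k, ∀ l < n, ρ₀ ≤ ρ i l := by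
      intro k
      induction k with
      | zero => exact ⟨1, one_pos, fun i hi => absurd hi (Nat.not_lt_zero i)⟩
      | succ k ih =>
        obtain ⟨ρ₀, hρ₀, h4⟩ := ih
        have h5 : ∀ m : ℕ, ∃ ρ₁ : ℝ, 0 < ρ₁ ∧ ρ₁ ≤ ρ₀ ∧ ∀ l < m, ρ₁ ≤ ρ k l := by
          intro m
          induction m with
          | zero => exact ⟨ρ₀, hρ₀, le_rfl, fun l hl => absurd hl (Nat.not_lt_zero l)⟩
          | succ m ih2 =>
            obtain ⟨ρ₁, hρ₁, h6, h7⟩ := ih2
            refine ⟨min ρ₁ (ρ k m), lt_min hρ₁ (hρ k m), (min_le_left _ _).trans h6,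
              fun l hl => ?_⟩
            rcases Nat.lt_or_ge l m with h8 | h8
            · exact (min_le_left _ _).trans (h7 l h8)
            · rw [show l = m by omega]
              exact min_le_right _ _
        obtain ⟨ρ₁, hρ₁, h6, h7⟩ := h5 n
        refine ⟨ρ₁, hρ₁, fun i hi l hl => ?_⟩
        rcases Nat.lt_or_ge i k with h8 | h8
        · exact h6.trans (h4 i h8 l hl)
        · rw [show i = k by omega]
          exact h7 l hl
    exact h3 n
  refine ⟨ρ₀, hρ₀, fun R hR hRρ i hi l hl a w hw hwa ha1 haR hwR => ?_⟩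
  exact h1 i l hi hl R hR (hRρ.trans (h2 i (by omega) l (by omega))) a w hw hwa ha1 haR hwR

/-- **The order is greedy up to `o (R)`**, from the three cases for each pair. -/
theorem dfo_of (H : Pk hn S P r P' Λ) (hTop : TopS n) (hF : FZX (n - 1)) :
    ∀ᵐ g : ℝ, ∀ o : Od n, g ∈ Gs P r P' Λ o →
      (∀ i < n - 1, ∀ l < i, 1 ≤ l →
        bet (P' o.2) (cc hn o.1.1) l g g < tau (P' o.2) (cc hn o.1.1) l i g g ∨
        StaAt (tau (P' o.2) (cc hn o.1.1) l i) g ∨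
        RgUp (bet (P' o.2) (cc hn o.1.1) l) g (bet (P' o.2) (cc hn o.1.1) l g g)
          (deriv (fun a => bet (P' o.2) (cc hn o.1.1) l a a) g)) → DfO hn P' o g := by
  have h1 : ∀ᵐ g : ℝ, ∀ (o : Od n) (i l : ℕ), g ∈ {g | g ∈ Gs P r P' Λ o ∧
      bet (P' o.2) (cc hn o.1.1) l g g = tau (P' o.2) (cc hn o.1.1) l i g g} →
      ∀ σ τ : ℝ, HasDerivAt (fun v => bet (P' o.2) (cc hn o.1.1) l v v) σ g →
      HasDerivAt (fun v => tau (P' o.2) (cc hn o.1.1) l i v v) τ g → σ = τ := by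
    refine ae_all_iff.2 fun o => ae_all_iff.2 fun i => ae_all_iff.2 fun l => ?_
    filter_upwards [der_tie (f := fun v => bet (P' o.2) (cc hn o.1.1) l v v)
      (h := fun v => tau (P' o.2) (cc hn o.1.1) l i v v)
      {g | g ∈ Gs P r P' Λ o ∧ bet (P' o.2) (cc hn o.1.1) l g g =
        tau (P' o.2) (cc hn o.1.1) l i g g}] with g h1 hg
    exact h1 hg fun x hx => hx.2
  filter_upwards [h1, H.dif_ae] with g h1 h2 o hg hc
  obtain ⟨α, Q, c, F⟩ := H.fac hTop hF hg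
  have g0 := F.g0
  have g1 := F.g1
  obtain ⟨hd, -⟩ := h2 g0 g1
  refine dfo_pairs fun i hi l hl => ?_
  have lB : Law (bet (P' o.2) (cc hn o.1.1) l) := (H.cht o.2).law _
  have lT : Law (tau (P' o.2) (cc hn o.1.1) l i) := (H.cht o.2).law _
  have dB : DifferentiableAt ℝ (fun v => bet (P' o.2) (cc hn o.1.1) l v v) g := hd _ _
  have dT : DifferentiableAt ℝ (fun v => tau (P' o.2) (cc hn o.1.1) l i v v) g := hd _ _
  rcases Nat.eq_zero_or_pos l with h0 | h0
  · subst h0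
    have h3 := H.act_diag hTop hF hg
    rw [LL_low (by omega) (by omega)] at h3
    refine okp_zero lB g0 g1 (fun a a0 a1 => ?_) h3 dB fun a w w0 wa a1 => ?_
    · exact (H.cht o.2).low _ a a a0.le le_rfl a1.le
    · exact (H.cht o.2).low _ a w w0.le wa a1.le
  · have hle := F.gre i hi l hl.le
    rcases hle.lt_or_eq with h3 | h3
    · exact okp_lt lB lT dB.continuousAt dT.continuousAt h3
    · have hder := h1 o i l ⟨hg, h3⟩ _ _ dB.hasDerivAt dT.hasDerivAt
      rcases hc i hi l hl h0 with h4 | h4 | h4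
      · exact okp_lt lB lT dB.continuousAt dT.continuousAt h4
      · refine okp_sta lB dB.hasDerivAt ?_ h3 h4
        rw [hder]
        exact dT.hasDerivAt
      · refine okp_rg lT (σ := deriv (fun a => bet (P' o.2) (cc hn o.1.1) l a a) g) ?_ h3 ?_ h4
        · rw [hder]
          exact dT.hasDerivAt
        · have h5 := F.le l (by omega) g g g0 le_rfl F.gα
          have h6 := F.thc
          have h7 := tht_pos o.2
          have h8 : tau (P' o.2) (cc hn o.1.1) l i g g = bet (P' o.2) (cc hn o.1.1) l g g := h3.symm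
          linarith

end Pool.MV
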