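import Pool.Agent.H87.NV.Cls
import Pool.Agent.H82.MV.MevY
import Pool.Agent.H80.NV.Tw

/-!
# The variations near a window, for `c 0, c 1; c 2`

`nvU_12`: the variation of the label of `c 2` in the direction of `c 1` is small near a good window at
which the threshold of `c 1` is affine, with a diagonal slope larger than one.
-/

set_option autoImplicit false

namespace Pool.NVX

open MeasureTheory Set Filter Topology
open Pool.Agent.H49.Ent Pool.Agent.H32.Dense Pool.STK Pool.KA Pool.KSAT Pool.K2S Pool.PB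
open Pool.GEN Pool.S6C Pool.CHT Pool.SHR Pool.ZL Pool.PKG Pool.Z4 Pool.ZFI
open Pool.ISO (lvN)
open Pool.LEV (Law)
open Pool.MV (DfO nodU_fac lvN_eq NvP NvU)

variable {m : ℕ}

/-- **The family theorem** for `c 0, c 1; c 2`. -/
theorem nvTwo (m D : ℕ) (hD : 1 ≤ D) : NvTwo m D := nv_two m D hD

/-- Larger degrees. -/
theorem nodD_mono {S : PCl m} {c : ℕ → Fin m} {r D D' : ℕ} {β : ℕ → ℝ → ℝ → ℝ}
    {e E ϱ a w : ℝ} (h : NodD S c r D β e E ϱ a w) (hD : D ≤ D') :
    NodD S c r D' β e E ϱ a w := by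
  refine ⟨h.1.trans hD, fun Dr η σ hη hσ hσϱ => ?_⟩
  obtain ⟨K₁, d, ψ, hK₁, hψ, hd, hB⟩ := h.2 Dr η σ hη hσ hσϱ
  refine ⟨K₁, d, ψ, hK₁, hψ, hd, hB.mono 0 ?_⟩
  rintro J - F A ⟨B, k1, k2, T, TH, k3⟩
  exact ⟨B, k1, k2, T, TH, k3.lst.mono le_rfl (fun _ => hD) le_rfl le_rfl,
    k3.top.mono le_rfl (fun _ => hD) le_rfl le_rfl, k3.rlY⟩

/-- Smaller degrees of the given node. -/
theorem nvd_deg {S : PCl m} {c : ℕ → Fin m} {r l i D D' : ℕ} {β : ℕ → ℝ → ℝ → ℝ}
    {e E ϱ a₀ w w' Li Lo : ℝ} (h : NVD S c r l i D' β e E ϱ a₀ w w' Li Lo) (hD : D ≤ D') :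
    NVD S c r l i D β e E ϱ a₀ w w' Li Lo := by
  obtain ⟨Dr, δ, hδ, h1⟩ := h
  refine ⟨Dr, δ, hδ, fun d hd ψ₀ hψ₀ => ?_⟩
  obtain ⟨ψ, hψ, h2⟩ := h1 d hd ψ₀ hψ₀
  refine ⟨ψ, hψ, fun κ₁ hκ₁ => Bas.mono 0 (h2 κ₁ hκ₁) ?_⟩
  rintro J - F A h3 B₀ G H hB hP hN
  exact h3 B₀ G H hB hP ⟨hN.lst.mono le_rfl (fun _ => hD) le_rfl le_rfl,
    hN.top.mono le_rfl (fun _ => hD) le_rfl le_rfl, hN.rlY⟩

variable {n : ℕ} {hn : 2 ≤ n} {S : PCl n} {P : ℝ → ℝ → ℝ} {r : ℝ → ℝ}
  {P' : ℕ → List (Fin n) × Fin n → ℝ → ℝ → ℝ} {Λ : Finset (Fin n) → Fin n → ℝ → ℝ → ℝ}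
  {o : Od n} {g : ℝ}

/-- **The variations near a window**, for `c 0, c 1; c 2`. -/
theorem nvU_12 (H : Pk hn S P r P' Λ) (hTop : Pool.TOP.TopS n) (hF : FZX (n - 1)) (hn3 : 3 ≤ n)
    (hg : g ∈ Gs P r P' Λ o) (hDg : DgL hn P P' o g) (hdf : DfO hn P' o g)
    (hd0 : HasDerivAt (fun v => LF hn P P' o 0 v v) 1 g) {t : ℝ}
    (hA : AffA (LF hn P P' o 1) g 1 t) (ht : 0 < t) {E ϱ : ℝ} (hE : 0 < E) (hϱ : 0 < ϱ)
    (hroom : ∀ i ≤ n - 1, lvN (P' o.2) (cc hn o.1.1) (n - 1) P i g g + E + 8 * ϱ < 1) :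
    NvU S (cc hn o.1.1) (n - 1) 1 2 (lvN (P' o.2) (cc hn o.1.1) (n - 1) P) E ϱ g := by
  classical
  obtain ⟨α, Q, c, F⟩ := H.fac hTop hF hg
  have hg0 := F.g0
  have hg1 := F.g1
  obtain ⟨E', ϱ', hE', hϱ', -, -, -, hND⟩ := nodU_fac F H hDg hdf
  intro D th c₀ τ hth hc₀ hτ
  obtain ⟨D₀, hD₀⟩ := hND c₀ (τ / 9) (by linarith) (by positivity)
  obtain ⟨D', hD'⟩ : ∃ D', D' = max (max D D₀) 1 := ⟨_, rfl⟩
  have hDD : D ≤ D' := by rw [hD']; exact (le_max_left _ _).trans (le_max_left _ _)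
  have hDD0 : D₀ ≤ D' := by rw [hD']; exact (le_max_right _ _).trans (le_max_left _ _)
  have hD1 : 1 ≤ D' := by rw [hD']; exact le_max_right _ _
  obtain ⟨K, hK, hnv⟩ := nvd_of (nvTwo n D' hD1)
  -- the small number
  obtain ⟨μ, hμ⟩ : ∃ μ, μ = min (th / (16 * (t + 1) * (K + 1))) (t / (K + 1)) := ⟨_, rfl⟩
  have hμ0 : 0 < μ := by rw [hμ]; exact lt_min (by positivity) (by positivity)
  have hμ1 : (K + 1) * μ * (t + 1) ≤ th / 16 := by
    have h1 : μ ≤ th / (16 * (t + 1) * (K + 1)) := by rw [hμ]; exact min_le_left _ _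
    rw [le_div_iff₀ (by positivity)] at h1
    linarith
  have hμ2 : (K + 1) * μ ≤ t := by
    have h1 : μ ≤ t / (K + 1) := by rw [hμ]; exact min_le_right _ _
    rw [le_div_iff₀ (by positivity)] at h1
    linarith
  have hKμ : 0 ≤ (K + 1) * μ := by positivity
  have hμ3 : (K + 1) * μ ≤ th / 16 := by
    have h1 : 0 ≤ (K + 1) * μ * t := by positivity
    linarith
  obtain ⟨R, hR⟩ : ∃ R : ℝ, R = c₀ + 4 := ⟨_, rfl⟩
  have hR0 : 0 < R := by rw [hR]; linarith
  -- the thresholds near the window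
  obtain ⟨r₁, hr₁, hA1⟩ := hA (μ / (4 * R)) (by positivity)
  have hd0' := hd0.isLittleO.def (show 0 < μ / (4 * R) by positivity)
  obtain ⟨r₂, hr₂, hd1⟩ := Metric.eventually_nhds_iff.1 hd0'
  have hdg : ∀ l : ℕ, ∃ V t₀ : ℝ, 0 ≤ V ∧ 0 < t₀ ∧ (l < 3 → ∀ t : ℝ, |t| < t₀ →
      |lvN (P' o.2) (cc hn o.1.1) (n - 1) P l (g + t) (g + t) -
      lvN (P' o.2) (cc hn o.1.1) (n - 1) P l g g| ≤ V * |t|) := by
    intro l
    by_cases hl : l < 3
    · obtain ⟨V, t₀, h1, h2, h3⟩ := hDg l (by omega)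
      exact ⟨V, t₀, h1, h2, fun _ => h3⟩
    · exact ⟨0, 1, le_rfl, one_pos, fun h => absurd h hl⟩
  choose V t₀ hV0 ht₀ hVt using hdg
  obtain ⟨t₁, ht₁, ht₁'⟩ := fin_pos 3 (f := t₀) fun i _ => ht₀ i
  obtain ⟨V₁, hV₁⟩ : ∃ V₁, V₁ = V 0 + V 1 + V 2 := ⟨_, rfl⟩
  have hV₁0 : 0 ≤ V₁ := by rw [hV₁]; have := hV0 0; have := hV0 1; have := hV0 2; linarith
  have hVl : ∀ l < 3, V l ≤ V₁ := by
    intro l hl
    have h0 := hV0 0
    have h1 := hV0 1
    have h2 := hV0 2
    rw [hV₁]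
    interval_cases l <;> linarith
  obtain ⟨s₁, hs₁, hNDs⟩ := hD₀ 1 one_pos
  obtain ⟨s₀, hs₀⟩ : ∃ s₀ : ℝ, s₀ = min (min (r₁ / R) (r₂ / R)) (min (min (t₁ / R) (s₁ / 3))
    (min (min (ϱ / (R * (V₁ + 1))) (ϱ / (3 + K * μ))) (min (g / (2 * R)) ((1 - g) / (2 * R))))) :=
    ⟨_, rfl⟩
  refine ⟨1, min s₀ (g / (2 * (K * μ + 1))), one_pos, ?_, ?_⟩
  · have hK0 : 0 < K := by linarith
    refine lt_min ?_ (by positivity)
    rw [hs₀]
    have h1g : 0 < 1 - g := by linarith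
    refine lt_min (lt_min (by positivity) (by positivity)) (lt_min (lt_min (by positivity)
      (by positivity)) (lt_min (lt_min (by positivity) (by positivity)) (lt_min (by positivity)
      (by positivity))))
  intro s p q hs hss hp hq hpq
  have hK0 : 0 < K := by linarith
  have h1g : 0 < 1 - g := by linarith
  obtain ⟨hss0, hssg⟩ := lt_min_iff.1 hss
  rw [hs₀] at hss0
  simp only [lt_min_iff] at hss0
  obtain ⟨⟨a1, a2⟩, ⟨a3, a4⟩, ⟨a5, a6⟩, a7, a8⟩ := hss0
  rw [lt_div_iff₀ hR0] at a1 a2 a3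
  rw [lt_div_iff₀ (by positivity)] at a4 a5 a6 a7 a8 hssg
  have hp' := abs_le.1 hp
  have hq' := abs_le.1 hq
  obtain ⟨x₁, hx₁⟩ : ∃ x₁ : ℝ, x₁ = th * s / 8 := ⟨_, rfl⟩
  obtain ⟨y₁, hy₁⟩ : ∃ y₁ : ℝ, y₁ = th * s / (8 * (t + 1)) := ⟨_, rfl⟩
  have hths : 0 < th * s := by positivity
  have hths2 : th * s ≤ 2 * s := by linarith
  have hx₁0 : 0 < x₁ := by rw [hx₁]; linarith
  have hy₁0 : 0 < y₁ := by rw [hy₁]; positivity
  have hy₁t : y₁ * (t + 1) = th * s / 8 := by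
    rw [hy₁]
    field_simp
  have hy₁x : y₁ ≤ x₁ := by
    rw [hx₁, ← hy₁t]
    have : 0 ≤ y₁ * t := by positivity
    linarith
  have hx₁s : x₁ ≤ s := by rw [hx₁]; linarith
  -- the exceptional set
  have hsub : {w : ℝ | |w - g| ≤ c₀ * s ∧ ¬ NvP S (cc hn o.1.1) (n - 1) 1 2 D
      (lvN (P' o.2) (cc hn o.1.1) (n - 1) P) E ϱ (w + p) (w + q) (1 * s) (th * s)} ⊆
      {w : ℝ | |w - g| ≤ c₀ * (3 * s) ∧ ¬ NodD S (cc hn o.1.1) (n - 1) D₀
        (lvN (P' o.2) (cc hn o.1.1) (n - 1) P) (1 * (3 * s)) E' ϱ' (w + (p + x₁))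
        (w + (p + x₁))} ∪
      ({w : ℝ | |w - g| ≤ c₀ * (3 * s) ∧ ¬ NodD S (cc hn o.1.1) (n - 1) D₀
        (lvN (P' o.2) (cc hn o.1.1) (n - 1) P) (1 * (3 * s)) E' ϱ' (w + (p + x₁))
        (w + (q + y₁))} ∪
      {w : ℝ | |w - g| ≤ c₀ * (3 * s) ∧ ¬ NodD S (cc hn o.1.1) (n - 1) D₀
        (lvN (P' o.2) (cc hn o.1.1) (n - 1) P) (1 * (3 * s)) E' ϱ' (w + (p + x₁ + s))
        (w + (p + x₁ + s))}) := by
    rintro w ⟨hw, hnot⟩
    by_contra hcon
    simp only [Set.mem_union, Set.mem_ofPred_eq, not_or, not_and, not_not] at hcon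
    obtain ⟨b1, b2, b3⟩ := hcon
    have hw3 : |w - g| ≤ c₀ * (3 * s) := by
      have : 0 ≤ c₀ * s := by positivity
      linarith
    have b1 := nodD_mono (b1 hw3) hDD0
    have b2 := nodD_mono (b2 hw3) hDD0
    have b3 := nodD_mono (b3 hw3) hDD0
    refine hnot fun e Li w' _ _ hLi _ hw1 hw2 => nvd_deg ?_ hDD
    have hwg := abs_le.1 hw
    -- the modulus
    have hRs : R * s = c₀ * s + 4 * s := by rw [hR]; ring
    have hin : ∀ x : ℝ, |x| ≤ 3 * s → |w + x - g| ≤ R * s ∧ 0 ≤ w + x ∧ w + x < 1 := by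
      intro x hx
      have hx' := abs_le.1 hx
      refine ⟨?_, by linarith, by linarith⟩
      rw [abs_le]
      constructor <;> linarith
    have hlaw : ∀ l < 3, Law (LF hn P P' o l) := fun l hl => ll_law H (by omega)
    have hlv : ∀ l < 3, lvN (P' o.2) (cc hn o.1.1) (n - 1) P l = LF hn P P' o l :=
      fun l hl => lvN_eq (by omega)
    have hup : ∀ l < 3, ∀ x y : ℝ, |x| ≤ 3 * s → |y| ≤ 3 * s → y ≤ x →
        lvN (P' o.2) (cc hn o.1.1) (n - 1) P l (w + x) (w + y) ≤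
          lvN (P' o.2) (cc hn o.1.1) (n - 1) P l g g + ϱ := by
      intro l hl x y hx hy hyx
      obtain ⟨c1, c2, c3⟩ := hin x hx
      obtain ⟨d1, d2, d3⟩ := hin y hy
      have h1 := (hlaw l hl).mono_w (w + x) (w + y) (w + x) d2 (by linarith) le_rfl c3.le
      rw [← hlv l hl] at h1
      refine h1.trans ?_
      have h2 := hVt l hl (w + x - g) (c1.trans_lt (by
        have := ht₁' l hl
        linarith))
      have e1 : g + (w + x - g) = w + x := by ring
      rw [e1] at h2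
      have h3 : V l * |w + x - g| ≤ V₁ * (R * s) :=
        mul_le_mul (hVl l hl) c1 (abs_nonneg _) hV₁0
      have h4 : 0 ≤ R * s := by positivity
      have h5 : s * (R * (V₁ + 1)) = V₁ * (R * s) + R * s := by ring
      have h6 := (abs_le.1 h2).2
      linarith
    have hp3 : |p| ≤ 3 * s := by linarith
    have hq3 : |q| ≤ 3 * s := by linarith
    have hpx : |p + x₁| ≤ 3 * s := by
      rw [abs_le]
      constructor <;> linarith
    have hqy : |q + y₁| ≤ 3 * s := by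
      rw [abs_le]
      constructor <;> linarith
    have hpxs : |p + x₁ + s| ≤ 3 * s := by
      rw [abs_le]
      constructor <;> linarith
    obtain ⟨u1, u2, u3⟩ := hin p hp3
    obtain ⟨v1, v2, v3⟩ := hin q hq3
    obtain ⟨w1, w2, w3⟩ := hin _ hpx
    obtain ⟨y1, y2, y3⟩ := hin _ hqy
    obtain ⟨z1, z2, z3⟩ := hin _ hpxs
    -- the affine threshold
    have haff : ∀ x y : ℝ, |x| ≤ 3 * s → |y| ≤ 3 * s → y ≤ x →
        |LF hn P P' o 1 (w + x) (w + y) - (LF hn P P' o 1 g g + 1 * (w + x - g) +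
          t * (w + y - g))| ≤ μ * s / 4 := by
      intro x y hx hy hyx
      obtain ⟨c1, -, -⟩ := hin x hx
      obtain ⟨d1, -, -⟩ := hin y hy
      have c1' := abs_le.1 c1
      have d1' := abs_le.1 d1
      have h1 := hA1 (R * s) (by positivity) (by linarith) (w + x) (w + y) (by linarith)
        (by linarith) (by linarith)
      refine h1.trans (le_of_eq ?_)
      field_simp
    have hfirst : ∀ x : ℝ, |x| ≤ 3 * s → LF hn P P' o 0 (w + x) (w + x) ≤ w + x + μ * s / 4 := by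
      intro x hx
      obtain ⟨c1, -, -⟩ := hin x hx
      have h1 := hd1 (y := w + x) (by
        rw [Real.dist_eq]
        linarith)
      have e0 : LF hn P P' o 0 g g = g := H.act_diag hTop hF hg
      rw [Real.norm_eq_abs, Real.norm_eq_abs, smul_eq_mul, mul_one, e0] at h1
      have h2 : μ / (4 * R) * |w + x - g| ≤ μ / (4 * R) * (R * s) :=
        mul_le_mul_of_nonneg_left c1 (by positivity)
      have h3 : μ / (4 * R) * (R * s) = μ * s / 4 := by field_simp
      have h4 := (abs_le.1 h1).2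
      linarith
    have m1 := mul_le_mul_of_nonneg_right hμ1 hs.le
    have m2 := mul_le_mul_of_nonneg_right hμ2 hs.le
    have m3 := mul_le_mul_of_nonneg_right hμ3 hs.le
    have m4 : 0 < μ * s := by positivity
    have m5 : 0 ≤ K * (μ * s) := by positivity
    have m6 : 0 ≤ (K + 1) * μ * s * t := by positivity
    refine hnv (s := μ * s) (e' := 1 * (3 * s)) (E' := E') (ϱ' := ϱ') (a := w + (p + x₁))
      (w₂ := w + (q + y₁)) (a₃ := w + (p + x₁ + s)) (by omega) H.tmh ?_ m4 (by positivity) hE.le hϱ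
      hE'.le hϱ' ?_ v2 hw1 hw2 (by linarith) ?_ (by linarith) (by linarith) z3 ?_ b1 b2 b3 ?_ ?_ ?_
      ?_ ?_ ?_ ?_ ?_ ?_ ?_ ?_
    · have h5 := cc_inj hn o.1.1
      have e1 : n - 1 + 1 = n := by omega
      rw [e1]
      exact h5
    · intro i hi a w h1 h2 h3
      rw [lvN_eq (hn := hn) (P := P) (P' := P') (o := o) hi]
      exact (ll_bd (o := o) H (by omega) h1 h2 h3).1
    · -- the gap of the windows
      have h1 : K * (μ * s) ≤ y₁ := by
        by_contra h2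
        push Not at h2
        have h3 : y₁ * (t + 1) < K * (μ * s) * (t + 1) :=
          mul_lt_mul_of_pos_right h2 (by linarith)
        have h4 : 0 ≤ μ * s * (t + 1) := by positivity
        rw [hy₁t] at h3
        linarith
      linarith
    · linarith
    · intro l hl
      have hl3 : l < 3 := by omega
      rw [hlv l hl3]
      have h1 := (hlaw l hl3).mono_a (w + p) (w + (p + x₁)) (w + q) v2 (by linarith) (by linarith)
        w3.le
      have h2 := (hlaw l hl3).mono_w (w + (p + x₁)) (w + q) (w + (p + x₁)) v2 (by linarith) le_rfl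
        w3.le
      linarith
    · rw [hlv 0 (by norm_num)]
      have h1 := (hlaw 0 (by norm_num)).mono_w (w + (p + x₁)) (w + (q + y₁)) (w + (p + x₁)) y2
        (by linarith) le_rfl w3.le
      linarith
    · rw [hlv 0 (by norm_num)]
      have h1 := hfirst _ hpx
      have h2 := (ll_bd (i := 0) (o := o) H (by omega) y2 (show w + (q + y₁) ≤ w + (p + x₁) by
        linarith) w3.le).1
      linarith
    · rw [hlv 1 (by norm_num)]
      have h1 := (hlaw 1 (by norm_num)).mono_w (w + (p + x₁)) (w + (q + y₁)) (w + (p + x₁)) y2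
        (by linarith) le_rfl w3.le
      linarith
    · intro l hl
      have h1 := hup l hl p q hp3 hq3 (by linarith)
      have h2 := hroom l (by omega)
      linarith
    · intro l hl
      have h1 := hup l (by omega) _ _ hpx hpx le_rfl
      have h2 := hroom l (by omega)
      linarith
    · intro l hl
      have h1 := hup l (by omega) _ _ hpxs hpxs le_rfl
      have h2 := hroom l (by omega)
      linarith
    · intro l hl
      have h1 := hup l (by omega) _ _ hpx hqy (by linarith)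
      have h2 := hroom l (by omega)
      linarith
    · rw [hlv 1 (by norm_num)]
      have h1 := (abs_le.1 (haff _ _ hpx hqy (by linarith))).2
      have h2 := (abs_le.1 (haff _ _ hp3 hq3 (by linarith))).1
      have h3 : y₁ * t ≤ th * s / 8 := by linarith
      rw [hx₁] at *
      linarith
    · rw [hlv 1 (by norm_num)]
      have h1 := (abs_le.1 (haff _ _ hpx hqy (by linarith))).2
      have h2 := (abs_le.1 (haff _ _ hpxs hpxs le_rfl)).1
      have h3 : 0 ≤ t * (p + x₁ - (q + y₁)) := mul_nonneg ht.le (by linarith)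
      linarith
    · rw [hlv 1 (by norm_num)]
      have h1 := (abs_le.1 (haff _ _ hpx hpx le_rfl)).2
      have h2 := (abs_le.1 (haff _ _ hpxs hpxs le_rfl)).1
      linarith
  refine (measure_mono hsub).trans ((measure_union_le _ _).trans ?_)
  have hpx : |p + x₁| ≤ 3 * s := by
    rw [abs_le]
    constructor <;> linarith
  have hqy : |q + y₁| ≤ 3 * s := by
    rw [abs_le]
    constructor <;> linarith
  have hpxs : |p + x₁ + s| ≤ 3 * s := by
    rw [abs_le]
    constructor <;> linarith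
  have n1 := hNDs (3 * s) (p + x₁) (p + x₁) (by positivity) (by linarith) hpx hpx le_rfl
  have n2 := hNDs (3 * s) (q + y₁) (p + x₁) (by positivity) (by linarith) hqy hpx (by linarith)
  have n3 := hNDs (3 * s) (p + x₁ + s) (p + x₁ + s) (by positivity) (by linarith) hpxs hpxs le_rfl
  refine (add_le_add n1 ((measure_union_le _ _).trans (add_le_add n2 n3))).trans ?_
  rw [← ENNReal.ofReal_add (by positivity) (by positivity),
    ← ENNReal.ofReal_add (by positivity) (by positivity)]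
  exact ENNReal.ofReal_le_ofReal (by linarith)

end Pool.NVX
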