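import Pool.Agent.H82.MV.Wnd
import Pool.Agent.H82.MV.Nvu12

/-!
# The variations for `c 0, c 1, c 2; c 3`, `c 1` and `c 2` thin: the windows

`NvdT`: the statement of the class theorem. `nvU_23t`: the variations near a window.
-/

set_option autoImplicit false

namespace Pool.NVX

open MeasureTheory Set Filter Topology
open Pool.Agent.H49.Ent Pool.Agent.H32.Dense Pool.STK Pool.KA Pool.KSAT Pool.K2S Pool.PB
open Pool.GEN Pool.S6C Pool.CHT Pool.SHR Pool.ZL Pool.PKG Pool.Z4 Pool.ZFI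
open Pool.ISO (lvN)
open Pool.LEV (Law)
open Pool.MV (DfO nodU_fac lvN_eq NvP NvU Bx bx_ex lf_law)

/-- **The statement of the class theorem** for `c 0, c 1, c 2; c 3`, `c 1` and `c 2` thin. -/
def NvdT (m D M : ℕ) : Prop := ∃ K : ℝ, 1 ≤ K ∧ ∀ {S : PCl m} {c : ℕ → Fin m} {r : ℕ}
    {β : ℕ → ℝ → ℝ → ℝ}
    {e e' E E' ϱ ϱ' a w w₂ w' a₂ a₃ Li Lo Li₁ Lo₁ s y : ℝ}, 3 ≤ r → TmH S →
    Set.InjOn c (Set.Iio (r + 1)) → 0 < s → 0 ≤ e' → 0 ≤ E → 0 < ϱ → 0 ≤ E' → 0 < ϱ' →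
    (∀ i ≤ r, ∀ a w, 0 ≤ w → w ≤ a → a ≤ 1 → a ≤ β i a w) →
    0 ≤ w → w ≤ w' → w' ≤ a → w₂ = w + y → K * s ≤ y → w₂ ≤ a → a ≤ a₂ → a₂ ≤ a₃ → a₃ < 1 →
    K * y ≤ a → NodD S c r D β e' E' ϱ' a w₂ →
    NodD S c r D β e' E' ϱ' a₂ a₂ → NodD S c r D β e' E' ϱ' a₃ a₃ →
    NVD S c r 1 2 D β e' E' ϱ' a w₂ a Li₁ Lo₁ → Lo₁ ≤ s →
    (∀ l < 3, β l a w ≤ β l a w₂ + s) → (∀ l < 3, β l a w₂ ≤ β l a w + M * y) →
    (∀ l < 4, 2 * e' + (E + ϱ) + β l a w + K * y ≤ 1) →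
    (∀ l < 3, 2 * e' + (E + ϱ) + β l a w₂ + K * y ≤ 1) →
    (∀ l < 3, e' + β l a₂ a₂ + K * y ≤ 1) → (∀ l < 2, e' + β l a₃ a₃ + K * y ≤ 1) →
    (a - w') + K * y ≤ Lo →
    β 1 a w₂ + (a₃ - a) + K * y ≤ β 1 a₃ a₃ → β 1 a₂ a₂ + (a₃ - a) + K * y ≤ β 1 a₃ a₃ →
    β 2 a w₂ + (a₂ - a) + K * y ≤ β 2 a₂ a₂ → NVD S c r 2 3 D β e E ϱ a w w' Li Lo

variable {n : ℕ} {hn : 2 ≤ n} {S : PCl n} {P : ℝ → ℝ → ℝ} {r : ℝ → ℝ}
  {P' : ℕ → List (Fin n) × Fin n → ℝ → ℝ → ℝ} {Λ : Finset (Fin n) → Fin n → ℝ → ℝ → ℝ}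
  {o : Od n} {g : ℝ}

/-- **Finitely many nodes near a window**, for all exponents. -/
theorem nod_setsE (H : Pk hn S P r P' Λ) (hTop : Pool.TOP.TopS n) (hF : FZX (n - 1))
    (hg : g ∈ Gs P r P' Λ o) (hDg : DgL hn P P' o g) (hdf : DfO hn P' o g) :
    ∃ E ϱ : ℝ, 0 < E ∧ 0 < ϱ ∧
      (∀ l ≤ n - 1, lvN (P' o.2) (cc hn o.1.1) (n - 1) P l g g + E + 8 * ϱ < 1) ∧
      ∀ (N : ℕ) (c₀ τ : ℝ), 0 ≤ c₀ → 0 < τ → ∃ D : ℕ, ∀ ε : ℝ, 0 < ε → ∃ s₁ : ℝ, 0 < s₁ ∧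
        ∀ (s : ℝ) (u y : ℕ → ℝ), 0 < s → s < s₁ →
          (∀ k < N, |u k| ≤ 4 * s ∧ |y k| ≤ 4 * s ∧ u k ≤ y k) →
          volume {w : ℝ | |w - g| ≤ c₀ * s ∧ ¬ ∀ k < N, NodD S (cc hn o.1.1) (n - 1) D
            (lvN (P' o.2) (cc hn o.1.1) (n - 1) P) (ε * s) E ϱ (w + y k) (w + u k)} ≤
            ENNReal.ofReal (τ * s) := by
  obtain ⟨α, Q, c, F⟩ := H.fac hTop hF hg
  obtain ⟨E, ϱ, hE, hϱ, hroom, -, -, hND⟩ := nodU_fac F H hDg hdf
  refine ⟨E, ϱ, hE, hϱ, hroom, fun N c₀ τ hc₀ hτ => ?_⟩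
  obtain ⟨τ', hτ'⟩ : ∃ τ', τ' = τ / (4 * ((N : ℝ) + 1)) := ⟨_, rfl⟩
  have hN0 : (0 : ℝ) ≤ N := Nat.cast_nonneg N
  have hτ0 : 0 < τ' := by rw [hτ']; positivity
  obtain ⟨D, hD⟩ := hND c₀ τ' hc₀ hτ0
  refine ⟨D, fun ε hε => ?_⟩
  obtain ⟨s₁, hs₁, h1⟩ := hD (ε / 4) (by positivity)
  refine ⟨s₁ / 4, by positivity, fun s u y hs hss huy => ?_⟩
  have hsub : {w : ℝ | |w - g| ≤ c₀ * s ∧ ¬ ∀ k < N, NodD S (cc hn o.1.1) (n - 1) D
      (lvN (P' o.2) (cc hn o.1.1) (n - 1) P) (ε * s) E ϱ (w + y k) (w + u k)} ⊆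
      ⋃ k ∈ Finset.range N, {w : ℝ | |w - g| ≤ c₀ * (4 * s) ∧ ¬ NodD S (cc hn o.1.1) (n - 1) D
        (lvN (P' o.2) (cc hn o.1.1) (n - 1) P) (ε / 4 * (4 * s)) E ϱ (w + y k) (w + u k)} := by
    rintro w ⟨hw, hno⟩
    push Not at hno
    obtain ⟨k, hk, h2⟩ := hno
    refine mem_iUnion₂.2 ⟨k, Finset.mem_range.2 hk, ?_, ?_⟩
    · have : 0 ≤ c₀ * s := by positivity
      linarith
    · rw [show ε / 4 * (4 * s) = ε * s by ring]
      exact h2
  refine (measure_mono hsub).trans ((measure_biUnion_finset_le _ _).trans ?_)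
  have h2 : ∀ k ∈ Finset.range N, volume {w : ℝ | |w - g| ≤ c₀ * (4 * s) ∧
      ¬ NodD S (cc hn o.1.1) (n - 1) D (lvN (P' o.2) (cc hn o.1.1) (n - 1) P) (ε / 4 * (4 * s)) E ϱ
        (w + y k) (w + u k)} ≤ ENNReal.ofReal (τ' * (4 * s)) := by
    intro k hk
    obtain ⟨b1, b2, b3⟩ := huy k (Finset.mem_range.1 hk)
    exact h1 (4 * s) (u k) (y k) (by positivity) (by linarith) b1 b2 b3
  refine (Finset.sum_le_sum h2).trans ?_
  rw [Finset.sum_const, Finset.card_range, nsmul_eq_mul,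
    ← ENNReal.ofReal_natCast, ← ENNReal.ofReal_mul hN0]
  refine ENNReal.ofReal_le_ofReal ?_
  have h3 : (N : ℝ) * (τ' * (4 * s)) = τ * s * (N / (N + 1)) := by
    rw [hτ']
    field_simp
  rw [h3]
  have h4 : (N : ℝ) / (N + 1) ≤ 1 := by
    rw [div_le_one (by positivity)]
    linarith
  have h5 : 0 ≤ τ * s := by positivity
  exact mul_le_of_le_one_right h5 h4

/-- **The variations near a window**, for `c 0, c 1, c 2; c 3`, `c 1` and `c 2` thin. -/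
theorem nvU_23t (hcls : ∀ D M, 1 ≤ D → NvdT n D M) (H : Pk hn S P r P' Λ) (hTop : Pool.TOP.TopS n)
    (hF : FZX (n - 1)) (hn4 : 4 ≤ n)
    (hg : g ∈ Gs P r P' Λ o) (hDg : DgL hn P P' o g) (hdf : DfO hn P' o g)
    (hd0 : HasDerivAt (fun v => LF hn P P' o 0 v v) 1 g)
    (hA0 : AffA (LF hn P P' o 0) g 1 0) {t₁ : ℝ} (hA1 : AffA (LF hn P P' o 1) g 1 t₁)
    (ht₁ : 0 < t₁) {t₂ : ℝ} (hA2 : AffA (LF hn P P' o 2) g 1 t₂) (ht₂ : 0 < t₂) {E ϱ : ℝ}
    (hE : 0 < E) (hϱ : 0 < ϱ)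
    (hroom : ∀ i ≤ n - 1, lvN (P' o.2) (cc hn o.1.1) (n - 1) P i g g + E + 8 * ϱ < 1) :
    NvU S (cc hn o.1.1) (n - 1) 2 3 (lvN (P' o.2) (cc hn o.1.1) (n - 1) P) E ϱ g := by
  classical
  have hg0 : 0 < g := hg.1.1.1
  obtain ⟨E', ϱ', hE', hϱ', hroom', hND⟩ := nod_setsE H hTop hF hg hDg hdf
  intro D th c₀ τ hth hc₀ hτ
  obtain ⟨D₀, hD₀⟩ := hND 3 c₀ (τ / 2) (by linarith) (by positivity)
  obtain ⟨D', hD'⟩ : ∃ D', D' = max (max D D₀) 1 := ⟨_, rfl⟩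
  have hDD : D ≤ D' := by rw [hD']; exact (le_max_left _ _).trans (le_max_left _ _)
  have hDD0 : D₀ ≤ D' := by rw [hD']; exact (le_max_right _ _).trans (le_max_left _ _)
  have hD1 : 1 ≤ D' := by rw [hD']; exact le_max_right _ _
  obtain ⟨M, hM⟩ := exists_nat_ge (1 + t₁ + t₂)
  obtain ⟨K, hK, hnv⟩ := hcls D' M hD1
  -- the small numbers
  obtain ⟨t, ht⟩ : ∃ t, t = min 1 (min t₁ t₂) := ⟨_, rfl⟩
  have ht0 : 0 < t := by rw [ht]; exact lt_min one_pos (lt_min ht₁ ht₂)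
  have ht1 : t ≤ 1 := by rw [ht]; exact min_le_left _ _
  have htt₁ : t ≤ t₁ := by rw [ht]; exact (min_le_right _ _).trans (min_le_left _ _)
  have htt₂ : t ≤ t₂ := by rw [ht]; exact (min_le_right _ _).trans (min_le_right _ _)
  have hK0 : 0 < K := by linarith
  obtain ⟨μ, hμ⟩ : ∃ μ, μ = min (t * th / (8 * (K + 1) ^ 2 * (t₁ + t₂ + 1)))
    (t / (4 * (K + 1) ^ 2)) := ⟨_, rfl⟩
  have hμ0 : 0 < μ := by
    rw [hμ]
    exact lt_min (by positivity) (by positivity)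
  have hμ1 : (K + 1) ^ 2 * μ * (t₁ + t₂ + 1) ≤ t * th / 8 := by
    have h1 : μ ≤ t * th / (8 * (K + 1) ^ 2 * (t₁ + t₂ + 1)) := by rw [hμ]; exact min_le_left _ _
    rw [le_div_iff₀ (by positivity)] at h1
    linarith
  have hμ2 : (K + 1) ^ 2 * μ ≤ t / 4 := by
    have h1 : μ ≤ t / (4 * (K + 1) ^ 2) := by rw [hμ]; exact min_le_right _ _
    rw [le_div_iff₀ (by positivity)] at h1
    linarith
  obtain ⟨A₃, hA₃⟩ : ∃ A₃, A₃ = (K + 1) ^ 2 * μ / t := ⟨_, rfl⟩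
  have hA₃e : t * A₃ = (K + 1) ^ 2 * μ := by rw [hA₃]; field_simp
  have hA₃0 : 0 < A₃ := by rw [hA₃]; positivity
  have hA₃1 : A₃ ≤ 1 / 4 := by
    have h1 : t * A₃ ≤ t * (1 / 4) := by rw [hA₃e]; linarith
    exact le_of_mul_le_mul_left h1 ht0
  -- the variation (1, 2)
  have h12 := nvU_12 H hTop hF (by omega) hg hDg hdf hd0 hA1 ht₁ hE' hϱ' hroom'
  obtain ⟨ε, s₃, hε, hs₃, h12⟩ := h12 D' (min (μ / 2) (th / 2)) c₀ (τ / 2)
    (lt_min (by positivity) (by positivity)) hc₀ (by positivity)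
  obtain ⟨ε', hε'⟩ : ∃ ε', ε' = min ε (min 1 (μ / 2)) := ⟨_, rfl⟩
  have hε'0 : 0 < ε' := by rw [hε']; exact lt_min hε (lt_min one_pos (by positivity))
  have hε'1 : ε' ≤ ε := by rw [hε']; exact min_le_left _ _
  have hε'2 : ε' ≤ 1 := by rw [hε']; exact (min_le_right _ _).trans (min_le_left _ _)
  obtain ⟨s₂, hs₂, hD₀⟩ := hD₀ ε' hε'0
  -- the scales
  obtain ⟨s₁, hs₁, hbx⟩ := bx_ex H hTop hF (by omega) hg hDg
    (la := fun _ => 1) (t := fun l => if l = 2 then t₂ else if l = 1 then t₁ else 0)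
    (fun l hl => by
      have h3 : l = 0 ∨ l = 1 ∨ l = 2 := by omega
      rcases h3 with rfl | rfl | rfl
      · simpa using hA0
      · simpa using hA1
      · simpa using hA2) (ϱ := min ϱ ϱ') (c₀ := c₀) (κ := μ / 4) (lt_min hϱ hϱ')
    (by linarith) (by positivity)
  obtain ⟨s₀, hs₀⟩ : ∃ s₀ : ℝ, s₀ = min (min (min s₁ s₂) s₃)
      (min (min (ϱ / 5) (ϱ' / 5)) (g / 4)) := ⟨_, rfl⟩
  have hs₀0 : 0 < s₀ := by
    rw [hs₀]
    exact lt_min (lt_min (lt_min hs₁ hs₂) hs₃)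
      (lt_min (lt_min (by positivity) (by positivity)) (by positivity))
  refine ⟨1, s₀, one_pos, hs₀0, ?_⟩
  intro s p q hs hss hp hq hpq
  rw [hs₀] at hss
  simp only [lt_min_iff] at hss
  obtain ⟨⟨⟨a1, a2⟩, a6⟩, ⟨a3, a4⟩, a5⟩ := hss
  have hp' := abs_le.1 hp
  have hq' := abs_le.1 hq
  -- the offsets
  obtain ⟨b, hb⟩ : ∃ b : ℝ, b = K * (μ * s) := ⟨_, rfl⟩
  obtain ⟨y, hy⟩ : ∃ y : ℕ → ℝ, y = fun k => if k = 2 then p + A₃ * s else p := ⟨_, rfl⟩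
  obtain ⟨u, hu⟩ : ∃ u : ℕ → ℝ, u = fun k => if k = 0 then q + b else y k := ⟨_, rfl⟩
  have e0 : y 0 = p := by rw [hy]; simp
  have e1 : y 1 = p := by rw [hy]; simp
  have e2 : y 2 = p + A₃ * s := by rw [hy]; simp
  have f0 : u 0 = q + b := by rw [hu]; simp
  have f1 : u 1 = p := by rw [hu]; simp [e1]
  have f2 : u 2 = p + A₃ * s := by rw [hu]; simp [e2]
  -- the scaled numbers
  have hths : 0 < th * s := by positivity
  have m0 : 0 < μ * s := by positivity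
  have mb0 : 0 < b := by rw [hb]; positivity
  have m1 : (K + 1) ^ 2 * (μ * s) * (t₁ + t₂ + 1) ≤ t * (th * s) / 8 := by
    have := mul_le_mul_of_nonneg_right hμ1 hs.le
    linarith
  have m2 : (K + 1) ^ 2 * (μ * s) ≤ s / 4 := by
    have h1 := mul_le_mul_of_nonneg_right hμ2 hs.le
    have h2 := mul_le_mul_of_nonneg_right ht1 hs.le
    linarith
  have e3 : (K + 1) ^ 2 * (μ * s) = K * b + 2 * b + μ * s := by rw [hb]; ring
  have mKb : 0 < K * b := by positivity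
  have mbb : b ≤ K * b := le_mul_of_one_le_left mb0.le hK
  have mμb : μ * s ≤ b := by rw [hb]; exact le_mul_of_one_le_left m0.le hK
  have mx : 0 < (K + 1) ^ 2 * (μ * s) := by positivity
  have m3 : (K + 1) ^ 2 * (μ * s) + (K + 1) ^ 2 * (μ * s) * t₁ + (K + 1) ^ 2 * (μ * s) * t₂ ≤
      t * (th * s) / 8 := by
    have : (K + 1) ^ 2 * (μ * s) * (t₁ + t₂ + 1) = (K + 1) ^ 2 * (μ * s) +
      (K + 1) ^ 2 * (μ * s) * t₁ + (K + 1) ^ 2 * (μ * s) * t₂ := by ring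
    linarith
  have m4 : 0 < (K + 1) ^ 2 * (μ * s) * t₁ := by positivity
  have m5 : 0 < (K + 1) ^ 2 * (μ * s) * t₂ := by positivity
  have m6 : A₃ * s ≤ s / 4 := by
    have := mul_le_mul_of_nonneg_right hA₃1 hs.le
    linarith
  have m7 : 0 < A₃ * s := by positivity
  have m8 : t * (A₃ * s) = K * b + 2 * b + μ * s := by
    rw [← mul_assoc, hA₃e, ← e3]; ring
  have m9 : t * (A₃ * s) ≤ t₁ * (A₃ * s) := mul_le_mul_of_nonneg_right htt₁ m7.le
  have m10 : t * (th * s) ≤ th * s := mul_le_of_le_one_left hths.le ht1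
  have m11 : t * (th * s) ≤ t₁ * (th * s) := mul_le_mul_of_nonneg_right htt₁ hths.le
  have m12 : t * (th * s) ≤ t₂ * (th * s) := mul_le_mul_of_nonneg_right htt₂ hths.le
  have m13 : t₁ * b ≤ (K + 1) ^ 2 * (μ * s) * t₁ := by
    rw [mul_comm t₁ b]
    exact mul_le_mul_of_nonneg_right (by linarith) ht₁.le
  have m14 : t₂ * b ≤ (K + 1) ^ 2 * (μ * s) * t₂ := by
    rw [mul_comm t₂ b]
    exact mul_le_mul_of_nonneg_right (by linarith) ht₂.le
  have mt0 : 0 < t * (th * s) := by positivity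
  have mbp : q + b ≤ p - t * (th * s) / 2 := by linarith
  have mbp' : q + b + th * s / 2 ≤ p := by linarith
  have c0 : |p| ≤ 4 * s := by linarith
  have c1 : |q| ≤ 4 * s := by linarith
  have c2 : |q + b| ≤ 4 * s := by rw [abs_le]; constructor <;> linarith
  have c2' : |q + b| ≤ s := by rw [abs_le]; constructor <;> linarith
  have c4 : |p + A₃ * s| ≤ 4 * s := by rw [abs_le]; constructor <;> linarith
  have hset : {w : ℝ | |w - g| ≤ c₀ * s ∧ ¬ NvP S (cc hn o.1.1) (n - 1) 2 3 D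
      (lvN (P' o.2) (cc hn o.1.1) (n - 1) P) E ϱ (w + p) (w + q) (1 * s) (th * s)} ⊆
      {w : ℝ | |w - g| ≤ c₀ * s ∧ ¬ ∀ k < 3, NodD S (cc hn o.1.1) (n - 1) D₀
        (lvN (P' o.2) (cc hn o.1.1) (n - 1) P) (ε' * s) E' ϱ' (w + y k) (w + u k)} ∪
      {w : ℝ | |w - g| ≤ c₀ * s ∧ ¬ NvP S (cc hn o.1.1) (n - 1) 1 2 D'
        (lvN (P' o.2) (cc hn o.1.1) (n - 1) P) E' ϱ' (w + p) (w + (q + b)) (ε * s)
          (min (μ / 2) (th / 2) * s)} := by
    rintro x ⟨hx, hnot⟩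
    by_contra hcon
    rw [Set.mem_union, not_or] at hcon
    obtain ⟨hcon1, hcon2⟩ := hcon
    have hnod : ∀ k < 3, NodD S (cc hn o.1.1) (n - 1) D₀
        (lvN (P' o.2) (cc hn o.1.1) (n - 1) P) (ε' * s) E' ϱ' (x + y k) (x + u k) := by
      by_contra h3
      exact hcon1 ⟨hx, h3⟩
    have hvv : NvP S (cc hn o.1.1) (n - 1) 1 2 D'
        (lvN (P' o.2) (cc hn o.1.1) (n - 1) P) E' ϱ' (x + p) (x + (q + b)) (ε * s)
          (min (μ / 2) (th / 2) * s) := by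
      by_contra h3
      exact hcon2 ⟨hx, h3⟩
    refine hnot fun e Li w' _ _ hLi hLi2 hw1 hw2 => nvd_deg ?_ hDD
    have n0 := nodD_mono (hnod 0 (by norm_num)) hDD0
    have n1 := nodD_mono (hnod 1 (by norm_num)) hDD0
    have n2 := nodD_mono (hnod 2 (by norm_num)) hDD0
    rw [e0, f0] at n0
    rw [e1, f1] at n1
    rw [e2, f2] at n2
    have hB := hbx s x hs a1 hx
    obtain ⟨p1, p2⟩ := hB.pos _ c0
    obtain ⟨q1, q2⟩ := hB.pos _ c1
    obtain ⟨r1, r2⟩ := hB.pos _ c4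
    have hinj : Set.InjOn (cc hn o.1.1) (Set.Iio (n - 1 + 1)) := by
      have h5 := cc_inj hn o.1.1
      have e1 : n - 1 + 1 = n := by omega
      rw [e1]
      exact h5
    have hLow : ∀ i ≤ n - 1, ∀ a w, 0 ≤ w → w ≤ a → a ≤ 1 →
        a ≤ lvN (P' o.2) (cc hn o.1.1) (n - 1) P i a w := by
      intro i hi a w h1 h2 h3
      rw [lvN_eq (hn := hn) (P := P) (P' := P') (o := o) hi]
      exact (ll_bd (o := o) H (by omega) h1 h2 h3).1
    have hlaw : ∀ i < 3, Law (lvN (P' o.2) (cc hn o.1.1) (n - 1) P i) := fun i hi =>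
      lf_law H (by omega)
    have hrm : ∀ l ≤ n - 1, ∀ a b : ℝ, |a| ≤ 4 * s → |b| ≤ 4 * s → b ≤ a →
        lvN (P' o.2) (cc hn o.1.1) (n - 1) P l (x + a) (x + b) + E + 7 * ϱ ≤ 1 ∧
        lvN (P' o.2) (cc hn o.1.1) (n - 1) P l (x + a) (x + b) + E' + 7 * ϱ' ≤ 1 := by
      intro l hl a b ha hb hab
      have h1 := hB.room l hl a b ha hb hab
      have h2 := hroom l hl
      have h3 := hroom' l hl
      have h4 := min_le_left ϱ ϱ'
      have h5 := min_le_right ϱ ϱ'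
      constructor <;> linarith
    have mes : ε' * s ≤ s := mul_le_of_le_one_left hs.le hε'2
    have mes0 : 0 < ε' * s := by positivity
    have hvar : NVD S (cc hn o.1.1) (n - 1) 1 2 D' (lvN (P' o.2) (cc hn o.1.1) (n - 1) P) (ε' * s)
        E' ϱ' (x + p) (x + (q + b)) (x + p) 0 (0 + (x + p - (x + p)) + min (μ / 2) (th / 2) * s) :=
      hvv (ε' * s) 0 (x + p) mes0 (mul_le_mul_of_nonneg_right hε'1 hs.le) le_rfl (by positivity)
        (by linarith) le_rfl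
    have hmin : min (μ / 2) (th / 2) * s ≤ μ * s := by
      have h1 : min (μ / 2) (th / 2) ≤ μ / 2 := min_le_left _ _
      have h2 := mul_le_mul_of_nonneg_right h1 hs.le
      linarith
    have hMr : (1 + t₁ + t₂) * b ≤ M * b := mul_le_mul_of_nonneg_right hM mb0.le
    have ht₁b : 0 < t₁ * b := by positivity
    have ht₂b : 0 < t₂ * b := by positivity
    refine hnv (s := μ * s) (y := b) (e' := ε' * s) (E' := E') (ϱ' := ϱ') (a := x + p)
      (w₂ := x + (q + b)) (a₂ := x + p) (a₃ := x + (p + A₃ * s)) (w' := w')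
      (Li₁ := 0) (Lo₁ := 0 + (x + p - (x + p)) + min (μ / 2) (th / 2) * s) (by omega) H.tmh hinj m0
      mes0.le hE.le hϱ hE'.le hϱ' hLow (by linarith) hw1 hw2 (by ring) (le_of_eq hb.symm)
      (by linarith) le_rfl (by linarith) r2 (by linarith) n0 n1 n2 hvar (by linarith) ?_ ?_ ?_ ?_
      ?_ ?_ ?_ ?_ ?_ ?_
    · intro l hl
      have := (hlaw l hl).mono_w (x + p) (x + q) (x + (q + b)) (by linarith) (by linarith)
        (by linarith) p2.le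
      linarith
    · intro l hl
      have h3 := hB.le (l := l) hl c0 c2 (by linarith) c0 c1 (by linarith)
      have h4 : (if l = 2 then t₂ else if l = 1 then t₁ else 0) * (q + b - q) ≤
          (t₁ + t₂) * b := by
        have e6 : q + b - q = b := by ring
        rw [e6]
        refine mul_le_mul_of_nonneg_right ?_ mb0.le
        split_ifs <;> linarith
      linarith
    · intro l hl
      have h3 := (hrm l (by omega) _ _ c0 c1 (by linarith)).1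
      linarith
    · intro l hl
      have h3 := (hrm l (by omega) _ _ c0 c2 (by linarith)).1
      linarith
    · intro l hl
      have h3 := (hrm l (by omega) _ _ c0 c0 le_rfl).1
      linarith
    · intro l hl
      have h3 := (hrm l (by omega) _ _ c4 c4 le_rfl).1
      linarith
    · linarith
    · have h3 := hB.le (l := 1) (by norm_num) c0 c2 (by linarith) c4 c4 le_rfl
      simp only [show (1 : ℕ) ≠ 2 by norm_num, if_false, if_true] at h3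
      have h4 : t₁ * (q + b - (p + A₃ * s)) ≤ t₁ * (b - th * s) :=
        mul_le_mul_of_nonneg_left (by linarith) ht₁.le
      linarith
    · have h3 := hB.le (l := 1) (by norm_num) c0 c0 le_rfl c4 c4 le_rfl
      simp only [show (1 : ℕ) ≠ 2 by norm_num, if_false, if_true] at h3
      have e6 : t₁ * (p - (p + A₃ * s)) = - (t₁ * (A₃ * s)) := by ring
      rw [e6] at h3
      linarith
    · have h3 := hB.le (l := 2) (by norm_num) c0 c2 (by linarith) c0 c0 le_rfl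
      simp only [if_true] at h3
      have h4 : t₂ * (q + b - p) ≤ t₂ * (b - th * s) :=
        mul_le_mul_of_nonneg_left (by linarith) ht₂.le
      linarith
  refine (measure_mono hset).trans ((measure_union_le _ _).trans ?_)
  have k1 := hD₀ s u y hs a2 fun k hk => by
    interval_cases k
    · rw [e0, f0]; exact ⟨c2, c0, by linarith⟩
    · rw [e1, f1]; exact ⟨c0, c0, le_rfl⟩
    · rw [e2, f2]; exact ⟨c4, c4, le_rfl⟩
  have hmin2 : min (μ / 2) (th / 2) * s ≤ th * s / 2 := by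
    have h1 : min (μ / 2) (th / 2) ≤ th / 2 := min_le_right _ _
    have h2 := mul_le_mul_of_nonneg_right h1 hs.le
    linarith
  have k2 := h12 s p (q + b) hs a6 hp c2' (by linarith)
  refine (add_le_add k1 k2).trans ?_
  rw [← ENNReal.ofReal_add (by positivity) (by positivity)]
  refine ENNReal.ofReal_le_ofReal ?_
  linarith

end Pool.NVX
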