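import Pool.Agent.H82.MV.Lf23t
import Pool.Agent.H82.NVT.NbT

/-!
# The data on the events in dimension four, from the family theorem

`lMevB_4t`: from `NvT3`.
-/

set_option autoImplicit false

namespace Pool.ASM

/-- **The data on the events** in dimension four, from the family theorem. -/
theorem lMevB_4t (h : ∀ D M, 1 ≤ D → Pool.NVX.NvT3 4 D M) : LMevB 4 :=
  lMevB_4 fun D M hD => Pool.NVX.nvd_t (Pool.NVX.nb_t (h D (M + 1) hD))

end Pool.ASM
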