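import Pool.Agent.H82.MV.N23t
import Pool.Agent.H82.MV.Lf13

/-!
# The leaf for `c 0, c 1, c 2; c 3`, `c 1` and `c 2` thin, and the data on the events

`lNvB_23t`: the variations (2, 3) near the windows at which the second coordinate is not static, from
the class theorem. `lMevB_4`: the data on the events in dimension four.
-/

set_option autoImplicit false

namespace Pool.ASM

open MeasureTheory Set Filter Topology
open Pool.Agent.H49.Ent Pool.Agent.H32.Dense Pool.STK Pool.KA Pool.KSAT Pool.K2S Pool.PB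
open Pool.GEN Pool.S6C Pool.GRW Pool.PKG Pool.STAT Pool.PM Pool.R1 Pool.Z4 Pool.CHT
open Pool.ONE (LocE Ext0 Ext rowN_of_ext)
open Pool.TOP (TopS rw_all)
open Pool.LEV (Law Lv)
open Pool.STR (NumI TopW Mac StaAt IsoAt StaU1 ThinAt SteepAt Rle)
open Pool.MIC6
open Pool.ISO (lvN)
open Pool.ZL (AffA)
open Pool.ZFI (LF)
open Pool.ZFN (RgUp)
open Pool.MV (DfO NvU mevY_of Xb xb_of)

variable {n : ℕ} {hn : 2 ≤ n} {S : PCl n} {P : ℝ → ℝ → ℝ} {r : ℝ → ℝ}
  {P' : ℕ → List (Fin n) × Fin n → ℝ → ℝ → ℝ} {Λ : Finset (Fin n) → Fin n → ℝ → ℝ → ℝ}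
  {PB : ℕ → List (Fin n) × Fin n → ℝ → ℝ → ℝ}

/-- **The variations for `c 0, c 1, c 2; c 3`**, `c 1` not static, from the class theorem. -/
theorem lNvB_23t {n : ℕ} (h4 : 4 ≤ n) (hcls : ∀ D M, 1 ≤ D → Pool.NVX.NvdT n D M) :
    LNvBZ n 2 3 fun L g => ¬ StaAt L g := fun _ => Tol.of_all fun η _ _ _ => by
  intro hn hZ hF hTop D hD hD1 hE S P r P' Λ PB H
  refine ⟨fun o g => (HasDerivAt (fun v => LF hn P P' o 0 v v) 1 g ∧
      AffA (LF hn P P' o 0) g 1 0) ∧ ∀ l ≤ n - 1, ThS hn P P' PB o l g →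
      StaAt (LL hn P P' o (l + 1)) g ∨ RgUp (LL hn P P' o (l + 1)) g (LL hn P P' o (l + 1) g g)
        (deriv (fun a => LL hn P P' o (l + 1) a a) g), fun o => ?_,
    fun o g hg R hX hDg hDf hY hst E ϱ hE hϱ hroom => ?_⟩
  · filter_upwards [act_aff H hTop hF, one_act H.toPk hTop hF, rg_ths H hTop hF] with g k1 k2 k3 hg
    exact ⟨⟨k2 o hg, k1 o hg⟩, k3 o hg⟩
  · obtain ⟨ht, hA⟩ := cfg_aff H.toPk hg hX.cfg
    obtain ⟨⟨hY1, hY2⟩, hY3⟩ := hY
    have g0 : 0 < g := hg.1.1.1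
    have g1 : g < 1 := hg.1.1.2.1
    have hone : 1 < deriv (fun a => LL hn P P' o (1 + 1) a a) g := hX.one1 1 le_rfl (by omega)
    have hrg : RgUp (LL hn P P' o (1 + 1)) g (LL hn P P' o (1 + 1) g g)
        (deriv (fun a => LL hn P P' o (1 + 1) a a) g) :=
      (hY3 1 (by omega) (hX.ths 1 (by omega))).resolve_left hst
    have hA1 : AffA (LF hn P P' o 1) g 1 (deriv (fun a => LL hn P P' o (1 + 1) a a) g - 1) :=
      Pool.ZL.aff_rg (Z4.ll_law H.toPk o (by omega)) g0 g1 (hX.cfg.lt 1 (by omega)) hrg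
        (Pool.STR.dgLo_of (hX.cfg.dif 1 (by omega)))
    exact Pool.NVX.nvU_23t hcls H.toPk hTop hF h4 hg hDg hDf hY1 hY2 hA1 (by linarith) hA ht hE hϱ
      hroom

/-- **The data on the events** in dimension four, from the class theorem. -/
theorem lMevB_4 (hcls : ∀ D M, 1 ≤ D → Pool.NVX.NvdT 4 D M) : LMevB 4 :=
  lMevB_four (lNvB_12 (by norm_num)) (lNvB_13 rfl)
    (lNvB_or (lNvB_23s le_rfl) (lNvB_23t le_rfl hcls) fun L g => em _)

end Pool.ASM
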