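import Pool.Agent.H82.MV.Wnd
import Pool.Agent.H82.MV.Nvu12
import Pool.Agent.H80.NV.ClsC

/-!
# The variations for `c 0, c 1, c 2; c 3`, `c 2` static: the windows

`nvU_13`: the variation of the label of `c 3` in the direction of `c 1` is small near a good window at
which the threshold of `c 1` is rough and the threshold of `c 2` is static.
-/

set_option autoImplicit false

namespace Pool.NVX

open MeasureTheory Set Filter Topology
open Pool.Agent.H49.Ent Pool.Agent.H32.Dense Pool.STK Pool.KA Pool.KSAT Pool.K2S Pool.PB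
open Pool.GEN Pool.S6C Pool.CHT Pool.SHR Pool.ZL Pool.PKG Pool.Z4 Pool.ZFI
open Pool.ISO (lvN)
open Pool.LEV (Law)
open Pool.MV (DfO nodU_fac lvN_eq NvP NvU Bx bx_ex nod_sets lf_law)

variable {n : ℕ} {hn : 2 ≤ n} {S : PCl n} {P : ℝ → ℝ → ℝ} {r : ℝ → ℝ}
  {P' : ℕ → List (Fin n) × Fin n → ℝ → ℝ → ℝ} {Λ : Finset (Fin n) → Fin n → ℝ → ℝ → ℝ}
  {o : Od n} {g : ℝ}

/-- **The variations near a window**, for `c 0, c 1, c 2; c 3`, `c 2` static. -/
theorem nvU_13 (H : Pk hn S P r P' Λ) (hTop : Pool.TOP.TopS n)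
    (hF : FZX (n - 1)) (hn4 : 4 ≤ n)
    (hg : g ∈ Gs P r P' Λ o) (hDg : DgL hn P P' o g) (hdf : DfO hn P' o g)
    (hA0 : AffA (LF hn P P' o 0) g 1 0) {t : ℝ} (hA1 : AffA (LF hn P P' o 1) g 1 t) (ht : 0 < t)
    {σ : ℝ} (hA2 : AffA (LF hn P P' o 2) g σ 0) (hσ : 1 < σ) {E ϱ : ℝ} (hE : 0 < E) (hϱ : 0 < ϱ)
    (hroom : ∀ i ≤ n - 1, lvN (P' o.2) (cc hn o.1.1) (n - 1) P i g g + E + 8 * ϱ < 1) :
    NvU S (cc hn o.1.1) (n - 1) 1 3 (lvN (P' o.2) (cc hn o.1.1) (n - 1) P) E ϱ g := by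
  classical
  have hg0 : 0 < g := hg.1.1.1
  obtain ⟨E', ϱ', hE', hϱ', hroom', hND⟩ := nod_sets H hTop hF hg hDg hdf
  intro D th c₀ τ hth hc₀ hτ
  obtain ⟨D₀, s₂, hs₂, hD₀⟩ := hND 4 c₀ τ (by linarith) hτ
  obtain ⟨D', hD'⟩ : ∃ D', D' = max (max D D₀) 1 := ⟨_, rfl⟩
  have hDD : D ≤ D' := by rw [hD']; exact (le_max_left _ _).trans (le_max_left _ _)
  have hDD0 : D₀ ≤ D' := by rw [hD']; exact (le_max_right _ _).trans (le_max_left _ _)
  have hD1 : 1 ≤ D' := by rw [hD']; exact le_max_right _ _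
  obtain ⟨K, hK, hnv⟩ := nvd_c n D' hD1
  -- the small numbers
  have hσ1 : 0 < σ - 1 := by linarith
  obtain ⟨μ, hμ⟩ : ∃ μ, μ = min (min 1 t * th / (16 * (t + 1) * (K + 1)))
      ((σ - 1) * min 1 t / (2 * (t + σ) * (K + 1))) := ⟨_, rfl⟩
  have hm1t : 0 < min 1 t := lt_min one_pos ht
  have hμ0 : 0 < μ := by
    rw [hμ]
    exact lt_min (by positivity) (by positivity)
  have hμ1 : (K + 1) * μ * (t + 1) ≤ min 1 t * th / 16 := by
    have h1 : μ ≤ min 1 t * th / (16 * (t + 1) * (K + 1)) := by rw [hμ]; exact min_le_left _ _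
    rw [le_div_iff₀ (by positivity)] at h1
    linarith
  have hμ2 : (K + 1) * μ * (t + σ) ≤ (σ - 1) * min 1 t / 2 := by
    have h1 : μ ≤ (σ - 1) * min 1 t / (2 * (t + σ) * (K + 1)) := by rw [hμ]; exact min_le_right _ _
    rw [le_div_iff₀ (by positivity)] at h1
    linarith
  obtain ⟨A₂, hA₂⟩ : ∃ A₂, A₂ = (K + 1) * μ / (σ - 1) := ⟨_, rfl⟩
  have hA₂e : (σ - 1) * A₂ = (K + 1) * μ := by rw [hA₂]; field_simp
  have hA₂0 : 0 < A₂ := by rw [hA₂]; positivity
  obtain ⟨A₃, hA₃⟩ : ∃ A₃, A₃ = ((K + 1) * μ + (1 + t) * A₂) / t := ⟨_, rfl⟩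
  have hA₃e : t * A₃ = (K + 1) * μ + (1 + t) * A₂ := by rw [hA₃]; field_simp
  have hKμ0 : 0 < (K + 1) * μ := by positivity
  have hA₃0 : 0 < A₃ := by rw [hA₃]; positivity
  have hmt1 : min 1 t ≤ 1 := min_le_left _ _
  have hmtt : min 1 t ≤ t := min_le_right _ _
  -- the sizes of the offsets
  have hKμ1 : (K + 1) * μ ≤ 1 / 2 := by
    have h1 : (K + 1) * μ * (t + σ) ≤ (t + σ) / 2 := by
      have h2 : (σ - 1) * min 1 t ≤ (σ - 1) * 1 := mul_le_mul_of_nonneg_left hmt1 hσ1.le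
      linarith
    by_contra h2
    push Not at h2
    have h3 := mul_lt_mul_of_pos_right h2 (show 0 < t + σ by linarith)
    linarith
  have hA₃1 : A₃ ≤ 1 / 2 := by
    have h1 : t * (σ - 1) * A₃ = (K + 1) * μ * (t + σ) := by
      have : (σ - 1) * (t * A₃) = (σ - 1) * ((K + 1) * μ) + (1 + t) * ((σ - 1) * A₂) := by
        rw [hA₃e]; ring
      rw [hA₂e] at this
      linarith
    have h2 : (σ - 1) * min 1 t ≤ (σ - 1) * t := mul_le_mul_of_nonneg_left hmtt hσ1.le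
    by_contra h3
    push Not at h3
    have h4 := mul_lt_mul_of_pos_left h3 (show 0 < t * (σ - 1) by positivity)
    nlinarith
  have hA₂₃ : A₂ ≤ A₃ := by
    by_contra h1
    push Not at h1
    have h2 := mul_lt_mul_of_pos_left h1 ht
    rw [hA₃e] at h2
    nlinarith
  have hK0 : 0 < K := by linarith
  have hKK : K * μ ≤ (K + 1) * μ := by nlinarith
  have hμμ : μ ≤ (K + 1) * μ := by nlinarith
  -- the scales
  obtain ⟨s₁, hs₁, hbx⟩ := bx_ex H hTop hF (by omega) hg hDg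
    (la := fun l => if l = 2 then σ else 1) (t := fun l => if l = 1 then t else 0)
    (fun l hl => by
      have h3 : l = 0 ∨ l = 1 ∨ l = 2 := by omega
      rcases h3 with rfl | rfl | rfl
      · simpa using hA0
      · simpa using hA1
      · simpa using hA2) (ϱ := min ϱ ϱ') (c₀ := c₀) (κ := μ / 4) (lt_min hϱ hϱ')
    (by linarith) (by positivity)
  obtain ⟨s₀, hs₀⟩ : ∃ s₀ : ℝ, s₀ = min (min s₁ s₂) (min (min (ϱ / 5) (ϱ' / 5)) (g / 4)) :=
    ⟨_, rfl⟩
  have hs₀0 : 0 < s₀ := by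
    rw [hs₀]
    exact lt_min (lt_min hs₁ hs₂) (lt_min (lt_min (by positivity) (by positivity)) (by positivity))
  refine ⟨t * th / 8, s₀, by positivity, hs₀0, ?_⟩
  intro s p q hs hss hp hq hpq
  rw [hs₀] at hss
  simp only [lt_min_iff] at hss
  obtain ⟨⟨a1, a2⟩, ⟨a3, a4⟩, a5⟩ := hss
  have hp' := abs_le.1 hp
  have hq' := abs_le.1 hq
  -- the offsets
  obtain ⟨y, hy⟩ : ∃ y : ℕ → ℝ, y = fun k => if k = 0 then p else if k = 1 then p else
      if k = 2 then p + A₂ * s else p + A₃ * s := ⟨_, rfl⟩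
  obtain ⟨u, hu⟩ : ∃ u : ℕ → ℝ, u = fun k => if k = 1 then q + K * (μ * s) else y k := ⟨_, rfl⟩
  have e0 : y 0 = p := by rw [hy]; simp
  have e1 : y 1 = p := by rw [hy]; simp
  have e2 : y 2 = p + A₂ * s := by rw [hy]; simp
  have e3 : y 3 = p + A₃ * s := by rw [hy]; simp
  have f0 : u 0 = p := by rw [hu]; simp [e0]
  have f1 : u 1 = q + K * (μ * s) := by rw [hu]; simp
  have f2 : u 2 = p + A₂ * s := by rw [hu]; simp [e2]
  have f3 : u 3 = p + A₃ * s := by rw [hu]; simp [e3]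
  -- the scaled numbers
  have m0 : 0 < μ * s := by positivity
  have m1 : (K + 1) * (μ * s) * (t + 1) ≤ min 1 t * th * s / 16 := by
    have := mul_le_mul_of_nonneg_right hμ1 hs.le
    linarith
  have m2 : (K + 1) * (μ * s) ≤ s / 2 := by
    have := mul_le_mul_of_nonneg_right hKμ1 hs.le
    linarith
  have m3 : K * (μ * s) ≤ (K + 1) * (μ * s) := by nlinarith
  have m4 : μ * s ≤ (K + 1) * (μ * s) := by nlinarith
  have m5 : A₂ * s ≤ A₃ * s := mul_le_mul_of_nonneg_right hA₂₃ hs.le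
  have m6 : A₃ * s ≤ s / 2 := by
    have := mul_le_mul_of_nonneg_right hA₃1 hs.le
    linarith
  have m7 : 0 < A₂ * s := by positivity
  have m8 : (σ - 1) * (A₂ * s) = (K + 1) * (μ * s) := by rw [← mul_assoc, hA₂e]; ring
  have m9 : t * (A₃ * s) = (K + 1) * (μ * s) + (1 + t) * (A₂ * s) := by
    rw [← mul_assoc, hA₃e]; ring
  have m17 : 0 < K * (μ * s) := by positivity
  have hth1 : min 1 t * th * s ≤ th * s := by
    have : min 1 t * (th * s) ≤ 1 * (th * s) := mul_le_mul_of_nonneg_right hmt1 (by positivity)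
    linarith
  have htht : min 1 t * th * s ≤ t * (th * s) := by
    have : min 1 t * (th * s) ≤ t * (th * s) := mul_le_mul_of_nonneg_right hmtt (by positivity)
    linarith
  have m18 : (K + 1) * (μ * s) ≤ (K + 1) * (μ * s) * (t + 1) := by
    have : 0 ≤ (K + 1) * (μ * s) * t := by positivity
    linarith
  have hths : 0 < th * s := by positivity
  have c0 : |p| ≤ 4 * s := by linarith
  have c1 : |q| ≤ 4 * s := by linarith
  have c2 : |q + K * (μ * s)| ≤ 4 * s := by rw [abs_le]; constructor <;> linarith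
  have c3 : |p + A₂ * s| ≤ 4 * s := by rw [abs_le]; constructor <;> linarith
  have c4 : |p + A₃ * s| ≤ 4 * s := by rw [abs_le]; constructor <;> linarith
  refine (measure_mono ?_).trans (hD₀ s u y hs a2 fun k hk => ?_)
  swap
  · interval_cases k
    · rw [e0, f0]; exact ⟨c0, c0, le_rfl⟩
    · rw [e1, f1]; exact ⟨c2, c0, by linarith⟩
    · rw [e2, f2]; exact ⟨c3, c3, le_rfl⟩
    · rw [e3, f3]; exact ⟨c4, c4, le_rfl⟩
  rintro x ⟨hx, hnot⟩
  refine ⟨hx, fun hnod => hnot fun e Li w' _ _ hLi hLi2 hw1 hw2 => nvd_deg ?_ hDD⟩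
  have n0 := nodD_mono (hnod 0 (by norm_num)) hDD0
  have n1 := nodD_mono (hnod 1 (by norm_num)) hDD0
  have n2 := nodD_mono (hnod 2 (by norm_num)) hDD0
  have n3 := nodD_mono (hnod 3 (by norm_num)) hDD0
  rw [e0, f0] at n0
  rw [e1, f1] at n1
  rw [e2, f2] at n2
  rw [e3, f3] at n3
  have hB := hbx s x hs a1 hx
  obtain ⟨p1, p2⟩ := hB.pos _ c0
  obtain ⟨q1, q2⟩ := hB.pos _ c1
  obtain ⟨r1, r2⟩ := hB.pos _ c4
  have hinj : Set.InjOn (cc hn o.1.1) (Set.Iio (n - 1 + 1)) := by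
    have h5 := cc_inj hn o.1.1
    have e1 : n - 1 + 1 = n := by omega
    rw [e1]
    exact h5
  have hLow : ∀ i ≤ n - 1, ∀ a w, 0 ≤ w → w ≤ a → a ≤ 1 →
      a ≤ lvN (P' o.2) (cc hn o.1.1) (n - 1) P i a w := by
    intro i hi a w h1 h2 h3
    rw [lvN_eq (hn := hn) (P := P) (P' := P') (o := o) hi]
    exact (ll_bd (o := o) H (by omega) h1 h2 h3).1
  have hlaw : ∀ i < 3, Law (lvN (P' o.2) (cc hn o.1.1) (n - 1) P i) := fun i hi =>
    lf_law H (by omega)
  have hrm : ∀ l ≤ n - 1, ∀ a b : ℝ, |a| ≤ 4 * s → |b| ≤ 4 * s → b ≤ a →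
      lvN (P' o.2) (cc hn o.1.1) (n - 1) P l (x + a) (x + b) + E + 7 * ϱ ≤ 1 ∧
      lvN (P' o.2) (cc hn o.1.1) (n - 1) P l (x + a) (x + b) + E' + 7 * ϱ' ≤ 1 := by
    intro l hl a b ha hb hab
    have h1 := hB.room l hl a b ha hb hab
    have h2 := hroom l hl
    have h3 := hroom' l hl
    have h4 := min_le_left ϱ ϱ'
    have h5 := min_le_right ϱ ϱ'
    constructor <;> linarith
  have htK : t * (K * (μ * s)) ≤ (K + 1) * (μ * s) * t := by
    have : t * (K * (μ * s)) ≤ t * ((K + 1) * (μ * s)) := mul_le_mul_of_nonneg_left m3 ht.le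
    linarith
  have htK0 : 0 ≤ t * (K * (μ * s)) := by positivity
  refine hnv (s := μ * s) (e' := 4 * s) (E' := E') (ϱ' := ϱ') (a := x + p)
    (w₂ := x + (q + K * (μ * s))) (a₂ := x + (p + A₂ * s)) (a₃ := x + (p + A₃ * s))
    (U := lvN (P' o.2) (cc hn o.1.1) (n - 1) P 1 (x + p) (x + q) + Li + t * (K * (μ * s)) +
      μ * s / 2) (by omega) H.tmh hinj m0 (by linarith) hE.le hϱ hE'.le hϱ' hLow hLi
    (by linarith) hw1 hw2 le_rfl (by linarith) (by linarith) (by linarith) (by linarith) r2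
    (by linarith) n0 n1 n2 n3 ?_ ?_ ?_ ?_ ?_ ?_ ?_ ?_ ?_ ?_ ?_ ?_ ?_ ?_ ?_
  · intro l hl
    have := (hlaw l hl).mono_w (x + p) (x + q) (x + p) (by linarith) (by linarith) le_rfl p2.le
    linarith
  · have h3 := hB.le (l := 2) (by norm_num) c0 c0 le_rfl c0 c1 (by linarith)
    simp only [show (2 : ℕ) ≠ 1 by norm_num, if_false, if_true, zero_mul,
      sub_self, mul_zero] at h3
    linarith
  · have h3 := hB.le (l := 0) (by norm_num) c0 c0 le_rfl c0 c2 (by linarith)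
    simp only [show (0 : ℕ) ≠ 1 by norm_num, show (0 : ℕ) ≠ 2 by norm_num, if_false, zero_mul,
      sub_self, mul_zero] at h3
    linarith
  · intro l hl
    have h3 := (hrm l (by omega) _ _ c0 c1 (by linarith)).1
    linarith
  · intro l hl
    have h3 := (hrm l (by omega) _ _ c0 c0 le_rfl).1
    linarith
  · intro l hl
    have h3 := (hrm l (by omega) _ _ c3 c3 le_rfl).1
    linarith
  · intro l hl
    have h3 := (hrm l (by omega) _ _ c4 c4 le_rfl).1
    linarith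
  · intro l hl
    have h3 := (hrm l (by omega) _ _ c0 c2 (by linarith)).1
    linarith
  · linarith
  · have h3 := hB.le (l := 1) (by norm_num) c0 c2 (by linarith) c0 c1 (by linarith)
    simp only [show (1 : ℕ) ≠ 2 by norm_num, if_false, if_true, sub_self, mul_zero] at h3
    have e6 : t * (q + K * (μ * s) - q) = t * (K * (μ * s)) := by ring
    rw [e6] at h3
    linarith
  · have h3 := hB.le (l := 1) (by norm_num) c0 c1 (by linarith) c0 c0 le_rfl
    simp only [show (1 : ℕ) ≠ 2 by norm_num, if_false, if_true, sub_self, mul_zero] at h3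
    have h4 : t * (q - p) ≤ t * (- (th * s)) :=
      mul_le_mul_of_nonneg_left (by linarith) ht.le
    have e6 : t * (- (th * s)) = - (t * (th * s)) := by ring
    have h6 : 0 < t * (th * s) := by positivity
    have h7 : t * th / 8 * s = t * (th * s) / 8 := by ring
    rw [h7] at hLi2
    linarith
  · linarith
  · have h3 := hB.le (l := 1) (by norm_num) c0 c0 le_rfl c4 c4 le_rfl
    simp only [if_true, show (1 : ℕ) ≠ 2 by norm_num, if_false] at h3
    have e6 : 1 * (p - (p + A₃ * s)) + t * (p - (p + A₃ * s)) = - (A₃ * s) - t * (A₃ * s) := by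
      ring
    have h4 : lvN (P' o.2) (cc hn o.1.1) (n - 1) P 1 (x + p) (x + p) ≤
        lvN (P' o.2) (cc hn o.1.1) (n - 1) P 1 (x + (p + A₃ * s)) (x + (p + A₃ * s)) +
          (- (A₃ * s) - t * (A₃ * s)) + 2 * (μ / 4 * s) := by
      rw [← e6]
      linarith
    rw [m9] at h4
    have h6 : 0 ≤ (1 + t) * (A₂ * s) := by positivity
    linarith
  · have h3 := hB.le (l := 1) (by norm_num) c3 c3 le_rfl c4 c4 le_rfl
    simp only [if_true, show (1 : ℕ) ≠ 2 by norm_num, if_false] at h3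
    have e6 : 1 * (p + A₂ * s - (p + A₃ * s)) + t * (p + A₂ * s - (p + A₃ * s)) =
        (1 + t) * (A₂ * s) - (A₃ * s) - t * (A₃ * s) := by ring
    have h4 : lvN (P' o.2) (cc hn o.1.1) (n - 1) P 1 (x + (p + A₂ * s)) (x + (p + A₂ * s)) ≤
        lvN (P' o.2) (cc hn o.1.1) (n - 1) P 1 (x + (p + A₃ * s)) (x + (p + A₃ * s)) +
          ((1 + t) * (A₂ * s) - (A₃ * s) - t * (A₃ * s)) + 2 * (μ / 4 * s) := by
      rw [← e6]
      linarith
    rw [m9] at h4
    linarith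
  · have h3 := hB.le (l := 2) (by norm_num) c0 c0 le_rfl c3 c3 le_rfl
    simp only [show (2 : ℕ) ≠ 1 by norm_num, if_false, if_true, zero_mul] at h3
    have e6 : σ * (p - (p + A₂ * s)) = - (A₂ * s) - (σ - 1) * (A₂ * s) := by ring
    rw [e6, m8] at h3
    linarith

end Pool.NVX
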