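import Pool.Agent.H82.MV.Wnd
import Pool.Agent.H82.MV.Nvu12

/-!
# The variations for `c 0, c 1, c 2; c 3`, `c 1` static: the windows

`nvd_ball`: the variation of the label of `c 2` in the direction of `c 1` at a ball near the window,
`c 1` static. `NvdB`: the statement of the class theorem. `nvU_23b`: the variations near a window.
-/

set_option autoImplicit false

namespace Pool.NVX

open MeasureTheory Set Filter Topology
open Pool.Agent.H49.Ent Pool.Agent.H32.Dense Pool.STK Pool.KA Pool.KSAT Pool.K2S Pool.PB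
open Pool.GEN Pool.S6C Pool.CHT Pool.SHR Pool.ZL Pool.PKG Pool.Z4 Pool.ZFI
open Pool.ISO (lvN)
open Pool.LEV (Law)
open Pool.MV (DfO nodU_fac lvN_eq NvP NvU Bx bx_ex nod_sets lf_law)

/-- **The variation (1, 2) at a ball**, `c 1` static. -/
theorem nvd_ball {m D : ℕ} (h2 : NvTwo m D) : ∃ K : ℝ, 1 ≤ K ∧ ∀ {S : PCl m} {c : ℕ → Fin m}
    {r : ℕ} {β : ℕ → ℝ → ℝ → ℝ} {E ϱ g x s ν σ p κ κ₀ X Li : ℝ} {la t : ℕ → ℝ}, 2 ≤ r → TmH S →
    Set.InjOn c (Set.Iio (r + 1)) → (∀ i ≤ r, ∀ a w, 0 ≤ w → w ≤ a → a ≤ 1 → a ≤ β i a w) →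
    (∀ i < 3, Law (β i)) → Bx β r la t g x s ν ϱ → la 0 = 1 → t 0 = 0 → la 1 = σ → t 1 = 0 →
    1 < σ → 0 < g → 0 < s → 0 < κ₀ → 0 < E → 0 < ϱ → ν ≤ κ₀ / 4 →
    (σ + 2) * ((K + 1) * κ₀) ≤ κ → κ ≤ s → (σ - 1) * X = (K + 1) * κ₀ → X ≤ s → |p| ≤ s →
    5 * s ≤ ϱ → 2 * s ≤ g → (∀ l ≤ r, β l g g + E + 8 * ϱ < 1) →
    NodD S c r D β (4 * s) E ϱ (x + (p + K * κ₀)) (x + (p + K * κ₀)) →
    NodD S c r D β (4 * s) E ϱ (x + (p + K * κ₀ + X)) (x + (p + K * κ₀ + X)) →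
    NVD S c r 1 2 D β (4 * s) E ϱ (x + p) (x + p) (x + p) Li κ := by
  obtain ⟨K, hK, hnv⟩ := nvd_of h2
  refine ⟨K, hK, ?_⟩
  intro S c r β E ϱ g x s ν σ p κ κ₀ X Li la t hr hS hc hLow hlaw hB hla0 ht0 hla1 ht1 hσ hg0 hs hκ₀
    hE hϱ hν hκ hκs hX hXs hp hsϱ hsg hroom n1 n2
  have hK0 : 0 < K := by linarith
  have hKκ : 0 < (K + 1) * κ₀ := by positivity
  have h1 : (K + 1) * κ₀ * 3 ≤ κ := by nlinarith
  have hKκ1 : K * κ₀ ≤ (K + 1) * κ₀ := by nlinarith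
  have hKκ0 : 0 < K * κ₀ := by positivity
  have hκ₀1 : κ₀ ≤ (K + 1) * κ₀ := by nlinarith
  have hX0 : 0 < X := by
    by_contra h3
    push Not at h3
    have h4 : (σ - 1) * X ≤ 0 := mul_nonpos_of_nonneg_of_nonpos (by linarith) h3
    linarith
  have hp' := abs_le.1 hp
  have b0 : |p| ≤ 4 * s := by linarith
  have b1 : |p + K * κ₀| ≤ 4 * s := by
    rw [abs_le]
    constructor <;> linarith
  have b2 : |p + K * κ₀ + X| ≤ 4 * s := by
    rw [abs_le]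
    constructor <;> linarith
  obtain ⟨p1, p2⟩ := hB.pos _ b0
  obtain ⟨q1, q2⟩ := hB.pos _ b1
  obtain ⟨r1, r2⟩ := hB.pos _ b2
  have hmono : ∀ l < 2, β l (x + p) (x + p) ≤ β l (x + (p + K * κ₀)) (x + (p + K * κ₀)) := by
    intro l hl
    have h3 := (hlaw l (by omega)).mono_a (x + p) (x + (p + K * κ₀)) (x + p) (by linarith) le_rfl
      (by linarith) q2.le
    have h4 := (hlaw l (by omega)).mono_w (x + (p + K * κ₀)) (x + p) (x + (p + K * κ₀))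
      (by linarith) (by linarith) le_rfl q2.le
    linarith
  refine hnv (s := κ₀) (e' := 4 * s) (E' := E) (ϱ' := ϱ) (a := x + (p + K * κ₀))
    (w₂ := x + (p + K * κ₀)) (a₃ := x + (p + K * κ₀ + X)) hr hS hc hκ₀ (by linarith) hE.le hϱ
    hE.le hϱ hLow (by linarith) le_rfl le_rfl (by linarith) (by linarith) le_rfl (by linarith) r2
    (by linarith) n1 n1 n2 ?_ (by linarith) (by linarith) (by linarith) ?_ ?_ ?_ ?_ ?_ ?_ ?_
  · intro l hl
    have := hmono l hl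
    linarith
  · intro l hl
    have h3 := hB.room l (by omega) p p b0 b0 le_rfl
    have h4 := hroom l (by omega)
    linarith
  · intro l hl
    have h3 := hB.room l (by omega) _ _ b1 b1 le_rfl
    have h4 := hroom l (by omega)
    linarith
  · intro l hl
    have h3 := hB.room l (by omega) _ _ b2 b2 le_rfl
    have h4 := hroom l (by omega)
    linarith
  · intro l hl
    have h3 := hB.room l (by omega) _ _ b1 b1 le_rfl
    have h4 := hroom l (by omega)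
    linarith
  · have h3 := hB.le (l := 1) (by norm_num) b1 b1 le_rfl b0 b0 le_rfl
    rw [hla1, ht1] at h3
    have e1 : σ * (p + K * κ₀ - p) = σ * (K * κ₀) := by ring
    have e2 : (σ + 2) * ((K + 1) * κ₀) = σ * (K * κ₀) + 2 * (K * κ₀) + σ * κ₀ + 2 * κ₀ := by ring
    have e3 : 0 ≤ σ * κ₀ := by positivity
    rw [e1, zero_mul] at h3
    linarith
  · have h3 := hB.le (l := 1) (by norm_num) b1 b1 le_rfl b2 b2 le_rfl
    rw [hla1, ht1] at h3
    have e1 : σ * (p + K * κ₀ - (p + K * κ₀ + X)) = - X - (σ - 1) * X := by ring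
    rw [e1, zero_mul, hX] at h3
    linarith
  · have h3 := hB.le (l := 1) (by norm_num) b1 b1 le_rfl b2 b2 le_rfl
    rw [hla1, ht1] at h3
    have e1 : σ * (p + K * κ₀ - (p + K * κ₀ + X)) = - X - (σ - 1) * X := by ring
    rw [e1, zero_mul, hX] at h3
    linarith

/-- **The statement of the class theorem** for `c 0, c 1, c 2; c 3`, `c 1` static. -/
def NvdB (m D : ℕ) : Prop := ∃ K : ℝ, 1 ≤ K ∧ ∀ {S : PCl m} {c : ℕ → Fin m} {r : ℕ}
    {β : ℕ → ℝ → ℝ → ℝ}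
    {e e' E E' ϱ ϱ' a₀ a w w₂ w' a₂ a₃ Li Lo Li₁ Lo₁ s : ℝ}, 3 ≤ r → TmH S →
    Set.InjOn c (Set.Iio (r + 1)) → 0 < s → 0 ≤ e' → 0 ≤ E → 0 < ϱ → 0 ≤ E' → 0 < ϱ' →
    (∀ i ≤ r, ∀ a w, 0 ≤ w → w ≤ a → a ≤ 1 → a ≤ β i a w) →
    0 ≤ w → w ≤ w' → w' ≤ a₀ → a₀ ≤ a → w + K * s ≤ w₂ → w₂ ≤ a → a ≤ a₂ → a₂ ≤ a₃ → a₃ < 1 →
    K * s ≤ a₀ → NodD S c r D β e' E' ϱ' a a → NodD S c r D β e' E' ϱ' a w₂ →
    NodD S c r D β e' E' ϱ' a₂ a₂ → NodD S c r D β e' E' ϱ' a₃ a₃ →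
    NVD S c r 1 2 D β e' E' ϱ' a a a Li₁ Lo₁ → Lo₁ ≤ s →
    (∀ l < 3, β l a₀ w ≤ β l a a + s) → β 0 a a ≤ β 0 a w₂ + s → β 1 a a ≤ β 1 a w₂ + s →
    β 1 a w₂ ≤ β 1 a a + s →
    (∀ l < 4, e' + (E + ϱ) + β l a₀ w + K * s ≤ 1) →
    (∀ l < 3, e' + (E + ϱ) + β l a a + K * s ≤ 1) →
    (∀ l < 3, e' + β l a₂ a₂ + K * s ≤ 1) → (∀ l < 2, e' + β l a₃ a₃ + K * s ≤ 1) →
    (∀ l < 3, e' + β l a w₂ + K * s ≤ 1) →
    β 2 a w₂ + (a - w') + K * s ≤ β 2 a₀ w + Lo → β 2 a w₂ + K * s ≤ β 2 a a →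
    β 1 a a + (a₃ - a) + K * s ≤ β 1 a₃ a₃ → β 1 a₂ a₂ + (a₃ - a) + K * s ≤ β 1 a₃ a₃ →
    β 2 a a + (a₂ - a) + K * s ≤ β 2 a₂ a₂ → NVD S c r 2 3 D β e E ϱ a₀ w w' Li Lo

variable {n : ℕ} {hn : 2 ≤ n} {S : PCl n} {P : ℝ → ℝ → ℝ} {r : ℝ → ℝ}
  {P' : ℕ → List (Fin n) × Fin n → ℝ → ℝ → ℝ} {Λ : Finset (Fin n) → Fin n → ℝ → ℝ → ℝ}
  {o : Od n} {g : ℝ}

/-- **The variations near a window**, for `c 0, c 1, c 2; c 3`, `c 1` static. -/
theorem nvU_23b (hcls : ∀ D, 1 ≤ D → NvdB n D) (H : Pk hn S P r P' Λ) (hTop : Pool.TOP.TopS n)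
    (hF : FZX (n - 1)) (hn4 : 4 ≤ n)
    (hg : g ∈ Gs P r P' Λ o) (hDg : DgL hn P P' o g) (hdf : DfO hn P' o g)
    (hA0 : AffA (LF hn P P' o 0) g 1 0) {σ : ℝ} (hA1 : AffA (LF hn P P' o 1) g σ 0) (hσ : 1 < σ)
    {t : ℝ} (hA2 : AffA (LF hn P P' o 2) g 1 t) (ht : 0 < t) {E ϱ : ℝ} (hE : 0 < E) (hϱ : 0 < ϱ)
    (hroom : ∀ i ≤ n - 1, lvN (P' o.2) (cc hn o.1.1) (n - 1) P i g g + E + 8 * ϱ < 1) :
    NvU S (cc hn o.1.1) (n - 1) 2 3 (lvN (P' o.2) (cc hn o.1.1) (n - 1) P) E ϱ g := by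
  classical
  have hg0 : 0 < g := hg.1.1.1
  obtain ⟨E', ϱ', hE', hϱ', hroom', hND⟩ := nod_sets H hTop hF hg hDg hdf
  intro D th c₀ τ hth hc₀ hτ
  obtain ⟨D₀, s₂, hs₂, hD₀⟩ := hND 6 c₀ τ (by linarith) hτ
  obtain ⟨D', hD'⟩ : ∃ D', D' = max (max D D₀) 1 := ⟨_, rfl⟩
  have hDD : D ≤ D' := by rw [hD']; exact (le_max_left _ _).trans (le_max_left _ _)
  have hDD0 : D₀ ≤ D' := by rw [hD']; exact (le_max_right _ _).trans (le_max_left _ _)
  have hD1 : 1 ≤ D' := by rw [hD']; exact le_max_right _ _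
  obtain ⟨K₀, hK₀, hball⟩ := nvd_ball (nvTwo n D' hD1)
  obtain ⟨K, hK, hnv⟩ := hcls D' hD1
  -- the small numbers
  have hσ1 : 0 < σ - 1 := by linarith
  obtain ⟨μ, hμ⟩ : ∃ μ, μ = min (min 1 t * th / (16 * (t + 1) * (K + 1)))
      ((σ - 1) * min 1 t / (2 * (t + σ) * (K + 1))) := ⟨_, rfl⟩
  have hm1t : 0 < min 1 t := lt_min one_pos ht
  have hμ0 : 0 < μ := by
    rw [hμ]
    exact lt_min (by positivity) (by positivity)
  have hμ1 : (K + 1) * μ * (t + 1) ≤ min 1 t * th / 16 := by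
    have h1 : μ ≤ min 1 t * th / (16 * (t + 1) * (K + 1)) := by rw [hμ]; exact min_le_left _ _
    rw [le_div_iff₀ (by positivity)] at h1
    linarith
  have hμ2 : (K + 1) * μ * (t + σ) ≤ (σ - 1) * min 1 t / 2 := by
    have h1 : μ ≤ (σ - 1) * min 1 t / (2 * (t + σ) * (K + 1)) := by rw [hμ]; exact min_le_right _ _
    rw [le_div_iff₀ (by positivity)] at h1
    linarith
  obtain ⟨μ₀, hμ₀⟩ : ∃ μ₀, μ₀ = μ / ((σ + 2) * (K₀ + 1)) := ⟨_, rfl⟩
  have hμ₀0 : 0 < μ₀ := by rw [hμ₀]; positivity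
  have hμ₀e : (σ + 2) * ((K₀ + 1) * μ₀) = μ := by
    rw [hμ₀]
    field_simp
  obtain ⟨A₂, hA₂⟩ : ∃ A₂, A₂ = (K + 1) * μ / t := ⟨_, rfl⟩
  have hA₂e : t * A₂ = (K + 1) * μ := by rw [hA₂]; field_simp
  have hA₂0 : 0 < A₂ := by rw [hA₂]; positivity
  obtain ⟨A₃, hA₃⟩ : ∃ A₃, A₃ = ((K + 1) * μ + σ * A₂) / (σ - 1) := ⟨_, rfl⟩
  have hA₃e : (σ - 1) * A₃ = (K + 1) * μ + σ * A₂ := by rw [hA₃]; field_simp
  have hKμ0 : 0 < (K + 1) * μ := by positivity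
  have hA₃0 : 0 < A₃ := by rw [hA₃]; positivity
  obtain ⟨X₀, hX₀⟩ : ∃ X₀, X₀ = (K₀ + 1) * μ₀ / (σ - 1) := ⟨_, rfl⟩
  have hX₀e : (σ - 1) * X₀ = (K₀ + 1) * μ₀ := by rw [hX₀]; field_simp
  have hX₀0 : 0 < X₀ := by rw [hX₀]; positivity
  have hmt1 : min 1 t ≤ 1 := min_le_left _ _
  have hmtt : min 1 t ≤ t := min_le_right _ _
  -- the sizes of the offsets
  have hKμ1 : (K + 1) * μ ≤ 1 / 2 := by
    have h1 : (K + 1) * μ * (t + σ) ≤ (t + σ) / 2 := by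
      have h2 : (σ - 1) * min 1 t ≤ (σ - 1) * 1 := mul_le_mul_of_nonneg_left hmt1 hσ1.le
      linarith
    by_contra h2
    push Not at h2
    have h3 := mul_lt_mul_of_pos_right h2 (show 0 < t + σ by linarith)
    linarith
  have hA₃1 : A₃ ≤ 1 / 2 := by
    have h1 : t * (σ - 1) * A₃ = (K + 1) * μ * (t + σ) := by
      have : t * ((σ - 1) * A₃) = t * ((K + 1) * μ) + σ * (t * A₂) := by rw [hA₃e]; ring
      rw [hA₂e] at this
      linarith
    have h2 : (σ - 1) * min 1 t ≤ (σ - 1) * t := mul_le_mul_of_nonneg_left hmtt hσ1.le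
    by_contra h3
    push Not at h3
    have h4 := mul_lt_mul_of_pos_left h3 (show 0 < t * (σ - 1) by positivity)
    nlinarith
  have hA₂₃ : A₂ ≤ A₃ := by
    by_contra h1
    push Not at h1
    have h2 := mul_lt_mul_of_pos_left h1 hσ1
    rw [hA₃e] at h2
    nlinarith
  have hK0 : 0 < K := by linarith
  have hK₀0 : 0 < K₀ := by linarith
  have hKK : K * μ ≤ (K + 1) * μ := by nlinarith
  have hμμ : μ ≤ (K + 1) * μ := by nlinarith
  have hK₀μ : 0 < (K₀ + 1) * μ₀ := by positivity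
  have hKμ₀ : (K₀ + 1) * μ₀ * 3 ≤ μ := by nlinarith
  have hK₀K₀ : K₀ * μ₀ ≤ (K₀ + 1) * μ₀ := by nlinarith
  have hμ₀1 : μ₀ ≤ (K₀ + 1) * μ₀ := by nlinarith
  have hX₀1 : X₀ ≤ 1 := by
    have h1 : (σ - 1) * X₀ ≤ (σ - 1) * 1 := by
      rw [hX₀e]
      have h2 : (K + 1) * μ * 1 ≤ (K + 1) * μ * (t + σ) :=
        mul_le_mul_of_nonneg_left (by linarith) hKμ0.le
      have h3 : (σ - 1) * min 1 t ≤ (σ - 1) * 1 := mul_le_mul_of_nonneg_left hmt1 hσ1.le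
      linarith
    exact le_of_mul_le_mul_left h1 hσ1
  -- the scales
  obtain ⟨s₁, hs₁, hbx⟩ := bx_ex H hTop hF (by omega) hg hDg
    (la := fun l => if l = 1 then σ else 1) (t := fun l => if l = 2 then t else 0)
    (fun l hl => by
      have h3 : l = 0 ∨ l = 1 ∨ l = 2 := by omega
      rcases h3 with rfl | rfl | rfl
      · simpa using hA0
      · simpa using hA1
      · simpa using hA2) (ϱ := min ϱ ϱ') (c₀ := c₀) (κ := μ₀ / 4) (lt_min hϱ hϱ')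
    (by linarith) (by positivity)
  obtain ⟨s₀, hs₀⟩ : ∃ s₀ : ℝ, s₀ = min (min s₁ s₂) (min (min (ϱ / 5) (ϱ' / 5)) (g / 4)) :=
    ⟨_, rfl⟩
  have hs₀0 : 0 < s₀ := by
    rw [hs₀]
    exact lt_min (lt_min hs₁ hs₂) (lt_min (lt_min (by positivity) (by positivity)) (by positivity))
  refine ⟨1, s₀, one_pos, hs₀0, ?_⟩
  intro s p q hs hss hp hq hpq
  rw [hs₀] at hss
  simp only [lt_min_iff] at hss
  obtain ⟨⟨a1, a2⟩, ⟨a3, a4⟩, a5⟩ := hss
  have hp' := abs_le.1 hp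
  have hq' := abs_le.1 hq
  -- the offsets
  obtain ⟨y, hy⟩ : ∃ y : ℕ → ℝ, y = fun k => if k = 0 then p else if k = 1 then p else
      if k = 2 then p + A₂ * s else if k = 3 then p + A₃ * s else
      if k = 4 then p + K₀ * (μ₀ * s) else p + K₀ * (μ₀ * s) + X₀ * s := ⟨_, rfl⟩
  obtain ⟨u, hu⟩ : ∃ u : ℕ → ℝ, u = fun k => if k = 1 then q + K * (μ * s) else y k := ⟨_, rfl⟩
  have e0 : y 0 = p := by rw [hy]; simp
  have e1 : y 1 = p := by rw [hy]; simp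
  have e2 : y 2 = p + A₂ * s := by rw [hy]; simp
  have e3 : y 3 = p + A₃ * s := by rw [hy]; simp
  have e4 : y 4 = p + K₀ * (μ₀ * s) := by rw [hy]; simp
  have e5 : y 5 = p + K₀ * (μ₀ * s) + X₀ * s := by rw [hy]; simp
  have f0 : u 0 = p := by rw [hu]; simp [e0]
  have f1 : u 1 = q + K * (μ * s) := by rw [hu]; simp
  have f2 : u 2 = p + A₂ * s := by rw [hu]; simp [e2]
  have f3 : u 3 = p + A₃ * s := by rw [hu]; simp [e3]
  have f4 : u 4 = p + K₀ * (μ₀ * s) := by rw [hu]; simp [e4]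
  have f5 : u 5 = p + K₀ * (μ₀ * s) + X₀ * s := by rw [hu]; simp [e5]
  -- the scaled numbers
  have m0 : 0 < μ * s := by positivity
  have m1 : (K + 1) * (μ * s) * (t + 1) ≤ min 1 t * th * s / 16 := by
    have := mul_le_mul_of_nonneg_right hμ1 hs.le
    linarith
  have m2 : (K + 1) * (μ * s) ≤ s / 2 := by
    have := mul_le_mul_of_nonneg_right hKμ1 hs.le
    linarith
  have m3 : K * (μ * s) ≤ (K + 1) * (μ * s) := by nlinarith
  have m4 : μ * s ≤ (K + 1) * (μ * s) := by nlinarith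
  have m5 : A₂ * s ≤ A₃ * s := mul_le_mul_of_nonneg_right hA₂₃ hs.le
  have m6 : A₃ * s ≤ s / 2 := by
    have := mul_le_mul_of_nonneg_right hA₃1 hs.le
    linarith
  have m7 : 0 < A₂ * s := by positivity
  have m8 : t * (A₂ * s) = (K + 1) * (μ * s) := by rw [← mul_assoc, hA₂e]; ring
  have m9 : (σ - 1) * (A₃ * s) = (K + 1) * (μ * s) + σ * (A₂ * s) := by
    rw [← mul_assoc, hA₃e]; ring
  have m10 : 0 < μ₀ * s := by positivity
  have m11 : (K₀ + 1) * (μ₀ * s) * 3 ≤ μ * s := by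
    have := mul_le_mul_of_nonneg_right hKμ₀ hs.le
    linarith
  have m12 : X₀ * s ≤ s := by
    have := mul_le_mul_of_nonneg_right hX₀1 hs.le
    linarith
  have m13 : 0 < X₀ * s := by positivity
  have m14 : K₀ * (μ₀ * s) ≤ (K₀ + 1) * (μ₀ * s) := by nlinarith
  have m15 : μ₀ * s ≤ (K₀ + 1) * (μ₀ * s) := by nlinarith
  have m16 : 0 < K₀ * (μ₀ * s) := by positivity
  have m17 : 0 < K * (μ * s) := by positivity
  have hth1 : min 1 t * th * s ≤ th * s := by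
    have : min 1 t * (th * s) ≤ 1 * (th * s) := mul_le_mul_of_nonneg_right hmt1 (by positivity)
    linarith
  have htht : min 1 t * th * s ≤ t * (th * s) := by
    have : min 1 t * (th * s) ≤ t * (th * s) := mul_le_mul_of_nonneg_right hmtt (by positivity)
    linarith
  have m18 : (K + 1) * (μ * s) ≤ (K + 1) * (μ * s) * (t + 1) := by
    have : 0 ≤ (K + 1) * (μ * s) * t := by positivity
    linarith
  have hths : 0 < th * s := by positivity
  have c0 : |p| ≤ 4 * s := by linarith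
  have c1 : |q| ≤ 4 * s := by linarith
  have c2 : |q + K * (μ * s)| ≤ 4 * s := by rw [abs_le]; constructor <;> linarith
  have c3 : |p + A₂ * s| ≤ 4 * s := by rw [abs_le]; constructor <;> linarith
  have c4 : |p + A₃ * s| ≤ 4 * s := by rw [abs_le]; constructor <;> linarith
  have c5 : |p + K₀ * (μ₀ * s)| ≤ 4 * s := by rw [abs_le]; constructor <;> linarith
  have c6 : |p + K₀ * (μ₀ * s) + X₀ * s| ≤ 4 * s := by rw [abs_le]; constructor <;> linarith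
  refine (measure_mono ?_).trans (hD₀ s u y hs a2 fun k hk => ?_)
  swap
  · interval_cases k
    · rw [e0, f0]; exact ⟨c0, c0, le_rfl⟩
    · rw [e1, f1]; exact ⟨c2, c0, by linarith⟩
    · rw [e2, f2]; exact ⟨c3, c3, le_rfl⟩
    · rw [e3, f3]; exact ⟨c4, c4, le_rfl⟩
    · rw [e4, f4]; exact ⟨c5, c5, le_rfl⟩
    · rw [e5, f5]; exact ⟨c6, c6, le_rfl⟩
  rintro x ⟨hx, hnot⟩
  refine ⟨hx, fun hnod => hnot fun e Li w' _ _ hLi _ hw1 hw2 => nvd_deg ?_ hDD⟩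
  have n0 := nodD_mono (hnod 0 (by norm_num)) hDD0
  have n1 := nodD_mono (hnod 1 (by norm_num)) hDD0
  have n2 := nodD_mono (hnod 2 (by norm_num)) hDD0
  have n3 := nodD_mono (hnod 3 (by norm_num)) hDD0
  have n4 := nodD_mono (hnod 4 (by norm_num)) hDD0
  have n5 := nodD_mono (hnod 5 (by norm_num)) hDD0
  rw [e0, f0] at n0
  rw [e1, f1] at n1
  rw [e2, f2] at n2
  rw [e3, f3] at n3
  rw [e4, f4] at n4
  rw [e5, f5] at n5
  have hB := hbx s x hs a1 hx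
  have hB' : Bx (lvN (P' o.2) (cc hn o.1.1) (n - 1) P) (n - 1) (fun l => if l = 1 then σ else 1)
      (fun l => if l = 2 then t else 0) g x s (μ₀ / 4 * s) ϱ' :=
    ⟨hB.pos, hB.aff, fun l hl a b ha hb hab =>
      (hB.room l hl a b ha hb hab).trans (add_le_add_right (min_le_right _ _) _)⟩
  obtain ⟨p1, p2⟩ := hB.pos _ c0
  obtain ⟨q1, q2⟩ := hB.pos _ c1
  obtain ⟨r1, r2⟩ := hB.pos _ c4
  have hinj : Set.InjOn (cc hn o.1.1) (Set.Iio (n - 1 + 1)) := by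
    have h5 := cc_inj hn o.1.1
    have e1 : n - 1 + 1 = n := by omega
    rw [e1]
    exact h5
  have hLow : ∀ i ≤ n - 1, ∀ a w, 0 ≤ w → w ≤ a → a ≤ 1 →
      a ≤ lvN (P' o.2) (cc hn o.1.1) (n - 1) P i a w := by
    intro i hi a w h1 h2 h3
    rw [lvN_eq (hn := hn) (P := P) (P' := P') (o := o) hi]
    exact (ll_bd (o := o) H (by omega) h1 h2 h3).1
  have hlaw : ∀ i < 3, Law (lvN (P' o.2) (cc hn o.1.1) (n - 1) P i) := fun i hi =>
    lf_law H (by omega)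
  -- the ball
  have hvar : NVD S (cc hn o.1.1) (n - 1) 1 2 D' (lvN (P' o.2) (cc hn o.1.1) (n - 1) P) (4 * s) E'
      ϱ' (x + p) (x + p) (x + p) 0 (μ * s) := by
    refine hball (s := s) (κ := μ * s) (κ₀ := μ₀ * s) (X := X₀ * s) (σ := σ) (by omega) H.tmh hinj
      hLow hlaw hB' (by simp) (by simp) (by simp) (by simp) hσ hg0 hs m10 hE' hϱ' (by linarith) ?_
      (by linarith) ?_ m12 hp (by linarith) (by linarith) hroom' n4 n5
    · have : (σ + 2) * ((K₀ + 1) * (μ₀ * s)) = (σ + 2) * ((K₀ + 1) * μ₀) * s := by ring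
      rw [this, hμ₀e]
    · have : (σ - 1) * (X₀ * s) = (σ - 1) * X₀ * s := by ring
      rw [this, hX₀e]
      ring
  have hrm : ∀ l ≤ n - 1, ∀ a b : ℝ, |a| ≤ 4 * s → |b| ≤ 4 * s → b ≤ a →
      lvN (P' o.2) (cc hn o.1.1) (n - 1) P l (x + a) (x + b) + E + 7 * ϱ ≤ 1 ∧
      lvN (P' o.2) (cc hn o.1.1) (n - 1) P l (x + a) (x + b) + E' + 7 * ϱ' ≤ 1 := by
    intro l hl a b ha hb hab
    have h1 := hB.room l hl a b ha hb hab
    have h2 := hroom l hl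
    have h3 := hroom' l hl
    have h4 := min_le_left ϱ ϱ'
    have h5 := min_le_right ϱ ϱ'
    constructor <;> linarith
  refine hnv (s := μ * s) (e' := 4 * s) (E' := E') (ϱ' := ϱ') (a := x + p)
    (w₂ := x + (q + K * (μ * s))) (a₂ := x + (p + A₂ * s)) (a₃ := x + (p + A₃ * s))
    (Li₁ := 0) (Lo₁ := μ * s) (by omega) H.tmh hinj m0 (by linarith) hE.le hϱ hE'.le hϱ' hLow
    (by linarith) hw1 hw2 le_rfl (by linarith) (by linarith) (by linarith) (by linarith) r2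
    (by linarith) n0 n1 n2 n3 hvar le_rfl ?_ ?_ ?_ ?_ ?_ ?_ ?_ ?_ ?_ ?_ ?_ ?_ ?_ ?_
  · intro l hl
    have := (hlaw l hl).mono_w (x + p) (x + q) (x + p) (by linarith) (by linarith) le_rfl p2.le
    linarith
  · have h3 := hB.le (l := 0) (by norm_num) c0 c0 le_rfl c0 c2 (by linarith)
    simp only [show (0 : ℕ) ≠ 1 by norm_num, show (0 : ℕ) ≠ 2 by norm_num, if_false, zero_mul,
      sub_self, mul_zero] at h3
    linarith
  · have h3 := hB.le (l := 1) (by norm_num) c0 c0 le_rfl c0 c2 (by linarith)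
    simp only [if_true, show (1 : ℕ) ≠ 2 by norm_num, if_false, zero_mul,
      sub_self, mul_zero] at h3
    linarith
  · have := (hlaw 1 (by norm_num)).mono_w (x + p) (x + (q + K * (μ * s))) (x + p) (by linarith)
      (by linarith) le_rfl p2.le
    linarith
  · intro l hl
    have h3 := (hrm l (by omega) _ _ c0 c1 (by linarith)).1
    linarith
  · intro l hl
    have h3 := (hrm l (by omega) _ _ c0 c0 le_rfl).1
    linarith
  · intro l hl
    have h3 := (hrm l (by omega) _ _ c3 c3 le_rfl).1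
    linarith
  · intro l hl
    have h3 := (hrm l (by omega) _ _ c4 c4 le_rfl).1
    linarith
  · intro l hl
    have h3 := (hrm l (by omega) _ _ c0 c2 (by linarith)).1
    linarith
  · have h3 := hB.le (l := 2) (by norm_num) c0 c2 (by linarith) c0 c1 (by linarith)
    simp only [show (2 : ℕ) ≠ 1 by norm_num, if_false, if_true, sub_self, mul_zero] at h3
    have e6 : t * (q + K * (μ * s) - q) = t * (K * (μ * s)) := by ring
    rw [e6] at h3
    have h4 : t * (K * (μ * s)) ≤ (K + 1) * (μ * s) * t := by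
      have : t * (K * (μ * s)) ≤ t * ((K + 1) * (μ * s)) := mul_le_mul_of_nonneg_left m3 ht.le
      linarith
    linarith
  · have h3 := hB.le (l := 2) (by norm_num) c0 c2 (by linarith) c0 c0 le_rfl
    simp only [show (2 : ℕ) ≠ 1 by norm_num, if_false, if_true, sub_self, mul_zero] at h3
    have h4 : t * (q + K * (μ * s) - p) ≤ t * (K * (μ * s) - th * s) :=
      mul_le_mul_of_nonneg_left (by linarith) ht.le
    have e6 : t * (K * (μ * s) - th * s) = t * (K * (μ * s)) - t * (th * s) := by ring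
    have h5 : t * (K * (μ * s)) ≤ (K + 1) * (μ * s) * t := by
      have : t * (K * (μ * s)) ≤ t * ((K + 1) * (μ * s)) := mul_le_mul_of_nonneg_left m3 ht.le
      linarith
    have h6 : 0 < t * (th * s) := by positivity
    linarith
  · have h3 := hB.le (l := 1) (by norm_num) c0 c0 le_rfl c4 c4 le_rfl
    simp only [if_true, show (1 : ℕ) ≠ 2 by norm_num, if_false, zero_mul] at h3
    have e6 : σ * (p - (p + A₃ * s)) = - (A₃ * s) - (σ - 1) * (A₃ * s) := by ring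
    rw [e6, m9] at h3
    have h6 : 0 ≤ σ * (A₂ * s) := by positivity
    linarith
  · have h3 := hB.le (l := 1) (by norm_num) c3 c3 le_rfl c4 c4 le_rfl
    simp only [if_true, show (1 : ℕ) ≠ 2 by norm_num, if_false, zero_mul] at h3
    have e6 : σ * (p + A₂ * s - (p + A₃ * s)) = σ * (A₂ * s) - (A₃ * s) - (σ - 1) * (A₃ * s) := by
      ring
    rw [e6, m9] at h3
    linarith
  · have h3 := hB.le (l := 2) (by norm_num) c0 c0 le_rfl c3 c3 le_rfl
    simp only [show (2 : ℕ) ≠ 1 by norm_num, if_false, if_true] at h3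
    have e6 : 1 * (p - (p + A₂ * s)) + t * (p - (p + A₂ * s)) =
        - (A₂ * s) - t * (A₂ * s) := by ring
    have h4 : lvN (P' o.2) (cc hn o.1.1) (n - 1) P 2 (x + p) (x + p) ≤
        lvN (P' o.2) (cc hn o.1.1) (n - 1) P 2 (x + (p + A₂ * s)) (x + (p + A₂ * s)) +
          (- (A₂ * s) - t * (A₂ * s)) + 2 * (μ₀ / 4 * s) := by
      rw [← e6]
      linarith
    rw [m8] at h4
    linarith

end Pool.NVX
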