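import Pool.Agent.H82.MV.Uni
import Pool.Agent.H77.Z4.Nor6

/-!
# The data on the events at one pair of windows, from a direction closed at the first window

`mevD_of`: the data `MevD` at the windows `w₁`, `w₁ + δ`, from a node with a direction which is closed
at `w₁` (`PstQ`) and from the nodes at the pairs of a rational grid around `w₁`.
-/

set_option autoImplicit false

namespace Pool.MV

open MeasureTheory Set Filter Topology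
open Pool.Agent.H49.Ent Pool.Agent.H32.Dense Pool.STK Pool.KA Pool.KSAT Pool.K2S Pool.PB
open Pool.GEN Pool.S6C Pool.CHT Pool.SHR Pool.ZL Pool.PKG Pool.Z4 Pool.ZFI
open Pool.Z3 (NodQ Att3 nod_fac)
open Pool.ISO (lvN)
open Pool.LEV (Law)

variable {n : ℕ} {hn : 2 ≤ n} {S : PCl n} {P : ℝ → ℝ → ℝ} {r : ℝ → ℝ}
  {P' : ℕ → List (Fin n) × Fin n → ℝ → ℝ → ℝ} {Λ : Finset (Fin n) → Fin n → ℝ → ℝ → ℝ}
  {o : Od n}

/-- **The data on the events** at the windows `w₁`, `w₁ + δ`. -/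
theorem mevD_of (H : Pk hn S P r P' Λ) (hTop : Pool.TOP.TopS n) (hF : FZX (n - 1)) {l : ℕ}
    (hl : l < n - 1) {C gap : ℝ} {lam T : ℕ → ℝ} {rho w₁ g E ϱ e ρ₂ : ℝ} {δ X : ℚ} {Mg : ℕ}
    (V : Vs l n lam T gap) (R : Rat n (lam l) gap Mg) (hC : 1 ≤ C) (hC' : 4 * (n : ℝ) ≤ C)
    (hδ : 0 < δ) (hδX : δ < X) (hg₁ : w₁ ∈ Gs P r P' Λ o)
    (hE₁ : w₁ ∈ Eg (LF hn P P' o) l n lam T (epg n C gap) rho)
    (hw0 : 0 < w₁ + (X - X * Mg : ℝ)) (ha1 : w₁ + X < 1) (hrho : X * (Mg : ℝ) < rho)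
    (hE : 0 < E) (hϱ : 0 < ϱ)
    (hroom : ∀ i ≤ n - 1, lvN (P' o.2) (cc hn o.1.1) (n - 1) P i g g + E + 8 * ϱ < 1)
    (hlv : ∀ i ≤ n - 1, ∀ a w : ℝ, 0 < w → w ≤ a → a ≤ 1 → |a - g| ≤ ρ₂ → |w - g| ≤ ρ₂ →
      |lvN (P' o.2) (cc hn o.1.1) (n - 1) P i a w - lvN (P' o.2) (cc hn o.1.1) (n - 1) P i g g| ≤ ϱ)
    (hn1 : w₁ + X - g ≤ ρ₂) (hn2 : g - (w₁ + (X - X * Mg : ℝ)) ≤ ρ₂)
    (hatt : (w₁, w₁) ∈ Att3 (P' o.2) P)
    (hNQ : ∀ p q : ℚ, X - X * Mg ≤ q → q ≤ p → p ≤ X → NodQ S (cc hn o.1.1) (n - 1)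
      (lvN (P' o.2) (cc hn o.1.1) (n - 1) P) e E ϱ (w₁ + p) (w₁ + q))
    (hP : PstQ S (cc hn o.1.1) (n - 1) l (n - 1) (lvN (P' o.2) (cc hn o.1.1) (n - 1) P) e E ϱ
      (w₁ + X) (w₁ + (X - X * Mg : ℝ)) w₁ (2 * X)) :
    MevD hn S P P' o l C gap lam T rho w₁ δ := by
  obtain ⟨β, hβ⟩ : ∃ β, β = lvN (P' o.2) (cc hn o.1.1) (n - 1) P := ⟨_, rfl⟩
  have hβi : ∀ i ≤ n - 1, β i = LF hn P P' o i := fun i hi => by
    rw [hβ]
    exact lvN_eq hi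
  rw [← hβ] at hP
  simp only [← hβ] at hroom hlv hNQ
  have hX0 : (0 : ℝ) < X := by
    have h1 : (0 : ℝ) < δ := by exact_mod_cast hδ
    have h2 : (δ : ℝ) < X := by exact_mod_cast hδX
    linarith
  have hδ0 : (0 : ℝ) < δ := by exact_mod_cast hδ
  have hδX' : (δ : ℝ) < X := by exact_mod_cast hδX
  obtain ⟨a₀, ha₀⟩ : ∃ a₀ : ℝ, a₀ = w₁ + X := ⟨_, rfl⟩
  obtain ⟨w₀, hw₀⟩ : ∃ w₀ : ℝ, w₀ = w₁ + (X - X * Mg : ℝ) := ⟨_, rfl⟩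
  have hwn : wn a₀ X Mg 1 = w₀ := by
    unfold wn
    rw [pow_one, ha₀, hw₀]
    ring
  rw [← ha₀, ← hw₀] at hP
  rw [← hw₀] at hw0 hn2
  rw [← ha₀] at ha1 hn1
  obtain ⟨B, hlt⟩ := wn_bse (a₀ := a₀) V R hX0 (by rw [hwn]; exact hw0) ha1
  have haX : a₀ - X = w₁ := by rw [ha₀]; ring
  rw [hwn, haX] at B
  rw [hwn, haX] at hlt
  have hb := ll_bd01 (o := o) H l
  have hln : l < n := by omega
  have hb0 := B.h0
  have hgn := hg₁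
  -- the numbers at the windows
  obtain ⟨α₁, Q₁, c₁, F₁⟩ := H.fac hTop hF hg₁
  have hwg : |w₁ - g| ≤ ρ₂ := by
    rw [abs_le]
    constructor <;> linarith
  have hag : |a₀ - g| ≤ ρ₂ := by
    rw [abs_le]
    constructor <;> linarith
  have hw0g : |w₀ - g| ≤ ρ₂ := by
    rw [abs_le]
    constructor <;> linarith
  have hdg : |w₁ + δ - g| ≤ ρ₂ := by
    rw [abs_le]
    constructor <;> linarith
  have k1 : ∀ i ≤ n - 1, |β i w₁ w₁ - β i g g| ≤ ϱ := fun i hi =>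
    hlv i hi w₁ w₁ (by linarith) le_rfl (by linarith) hwg hwg
  have k2 : ∀ i ≤ n - 1, |β i (w₁ + δ) (w₁ + δ) - β i g g| ≤ ϱ := fun i hi =>
    hlv i hi _ _ (by linarith) le_rfl (by linarith) hdg hdg
  have k3 : ∀ i ≤ n - 1, |β i a₀ w₀ - β i g g| ≤ ϱ := fun i hi =>
    hlv i hi a₀ w₀ hw0 (by linarith) ha1.le hag hw0g
  obtain ⟨μ, hμ, hμ'⟩ := fin_pos n (f := fun i => 1 - (β i g g + E + 8 * ϱ)) fun i hi => by
    have := hroom i (by omega)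
    linarith
  obtain ⟨E₁, hE1⟩ : ∃ E₁ : ℝ, E₁ = 1 - 7 * ϱ - μ - β (n - 1) w₁ w₁ := ⟨_, rfl⟩
  have hEE : ∀ j ≤ n - 1, E + (β j w₁ w₁ - β (n - 1) w₁ w₁) ≤ E₁ := fun j hj => by
    have h1 := (abs_le.1 (k1 j hj)).2
    have h2 := hμ' j (by omega)
    rw [hE1]
    linarith
  -- the requests
  obtain ⟨Ψ, hΨ⟩ : ∃ Ψ : ℝ → ℝ → ℝ,
    Ψ = psi (LF hn P P' o) l n T a₀ w₀ (2 * X) (Kg n gap) := ⟨_, rfl⟩
  obtain ⟨Vd, hVd⟩ : ∃ Vd : Rq → Prop, Vd = fun q => ∃ r' s' : ℚ, 0 ≤ s' ∧ s' ≤ r' ∧ r' ≤ δ ∧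
    q.a = w₁ + r' ∧ q.w = w₁ + s' ∧ q.lam = C * Ψ q.a q.w ∧ 0 < q.η ∧ 0 < q.σ ∧ q.σ ≤ ϱ :=
    ⟨_, rfl⟩
  have hq0 : X - X * Mg ≤ 0 := by
    have h1 : (w₀ : ℝ) < w₁ := hlt
    rw [hw₀] at h1
    have h2 : (X : ℝ) - X * Mg < 0 := by linarith
    exact_mod_cast h2.le
  have hcast : ((X - X * Mg : ℚ) : ℝ) = X - X * Mg := by push_cast; ring
  have hw₀' : w₀ = w₁ + ((X - X * Mg : ℚ) : ℝ) := by rw [hcast, hw₀]
  have hBn : ∀ r' s' : ℚ, 0 ≤ s' → s' ≤ r' → r' ≤ δ →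
      Bn a₀ w₀ (w₁ + (r' : ℝ)) (w₁ + (s' : ℝ)) := by
    intro r' s' h1 h2 h3
    have g1 : (0 : ℝ) ≤ s' := by exact_mod_cast h1
    have g2 : (s' : ℝ) ≤ r' := by exact_mod_cast h2
    have g3 : (r' : ℝ) ≤ δ := by exact_mod_cast h3
    exact ⟨hw0.le, by linarith, by linarith, by linarith, ha1.le⟩
  have hvm : ∀ (r' s' : ℚ) (lm : ℝ) (Dr : ℕ) (η σ : ℝ), 0 ≤ s' → s' ≤ r' → r' ≤ δ →
      4 * (((n - 1 : ℕ) : ℝ) - l) * Ψ (w₁ + r') (w₁ + s') ≤ lm → 0 < η → 0 < σ → σ ≤ ϱ →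
      VdM S (cc hn o.1.1) (n - 1) l β e E ϱ a₀ w₀ w₁ (2 * X) ⟨w₁ + r', w₁ + s', lm, Dr, η, σ⟩ := by
    intro r' s' lm Dr η σ h1 h2 h3 h4 h5 h6 h7
    have g1 : (0 : ℝ) ≤ s' := by exact_mod_cast h1
    have g2 : (s' : ℝ) ≤ r' := by exact_mod_cast h2
    have g3 : (r' : ℝ) ≤ δ := by exact_mod_cast h3
    refine ⟨by simpa using g1, ?_, h5, h6, h7, ?_, ?_⟩
    · show w₁ + (r' : ℝ) < a₀
      linarith
    · show MeshQ S (cc hn o.1.1) (n - 1) β e E ϱ (w₁ + r') w₀ (w₁ + s')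
      rw [hw₀']
      exact mesh_rat (hq0.trans h1) fun p hp hp' => hNQ r' p hp (hp'.trans h2)
        (h3.trans hδX.le)
    · have h8 := vld_psi (b := 2 * X) V hb hβi (hBn r' s' h1 h2 h3) le_rfl
      rw [← hΨ] at h8
      exact ⟨_, _, _, _, h8, h4⟩
  have hnl : (0 : ℝ) ≤ ((n - 1 : ℕ) : ℝ) - l := by
    have : (l : ℝ) ≤ ((n - 1 : ℕ) : ℝ) := by exact_mod_cast hl.le
    linarith
  have hnl' : 4 * (((n - 1 : ℕ) : ℝ) - l) ≤ C := by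
    have h1 : ((n - 1 : ℕ) : ℝ) ≤ n := by exact_mod_cast Nat.sub_le n 1
    have h2 : (0 : ℝ) ≤ l := Nat.cast_nonneg l
    linarith
  have hΨ0 : ∀ r' s' : ℚ, 0 ≤ s' → s' ≤ r' → r' ≤ δ → 0 ≤ Ψ (w₁ + r') (w₁ + s') := by
    intro r' s' h1 h2 h3
    rw [hΨ]
    exact psi_nn hb V.K0.le hln (hBn r' s' h1 h2 h3)
  have hΨ1 : Ψ w₁ w₁ = 0 := by
    rw [hΨ]
    exact psi_diag V hC hb hE₁ B le_rfl B.h1.le (by
      have : (X : ℝ) * 1 ≤ X * Mg := mul_le_mul_of_nonneg_left (V.rat R).2.2.le hX0.le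
      linarith) (by
      rw [hw₀]
      linarith)
  have hVM : ∀ q, Vd q → VdM S (cc hn o.1.1) (n - 1) l β e E ϱ a₀ w₀ w₁ (2 * X) q := by
    intro q hq
    rw [hVd] at hq
    obtain ⟨r', s', h1, h2, h3, h4, h5, h6, h7, h8, h9⟩ := hq
    obtain ⟨qa, qw, ql, qD, qη, qσ⟩ := q
    simp only at h4 h5 h6 h7 h8 h9
    subst h4 h5
    refine hvm r' s' ql qD qη qσ h1 h2 h3 ?_ h7 h8 h9
    rw [h6]
    exact mul_le_mul_of_nonneg_right hnl' (hΨ0 r' s' h1 h2 h3)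
  have hinj : Set.InjOn (cc hn o.1.1) (Set.Iio (n - 1 + 1)) := by
    have h5 := cc_inj hn o.1.1
    have e1 : n - 1 + 1 = n := by omega
    rw [e1]
    exact h5
  obtain ⟨E', ϱ', -, hϱ', -, hN'⟩ := nod_fac F₁ H
  obtain ⟨M, hM1, hM2, hM3, hM4, hM5, hM6⟩ := mevt_of (S := S) (c := cc hn o.1.1) (r := n - 1)
    (l := l) (β := β) (e := e) (E := E) (ϱ := ϱ) (E' := E') (ϱ' := ϱ') (a₀ := a₀) (w₀ := w₀)
    (w₁ := w₁) (Λ := 2 * X) (E₁ := E₁) (Vd := Vd) hinj hl hw0 hlt.le B.h1 ha1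
    (fun i hi => by
      rw [hβi i hi]
      exact ZFI.ll_law H (by omega))
    (fun i hi a w h1 h2 h3 => by
      rw [hβi i hi]
      exact (ll_bd (o := o) H (by omega) h1 h2 h3).1) hE.le hϱ hϱ'
    (fun i hi => by
      have h1 := (abs_le.1 (k3 i hi)).2
      have h2 := hroom i hi
      linarith) (by positivity) H.tmh
    (fun j i h1 h2 h3 => by
      rw [hβ]
      exact srt_at H F₁ h2 h3) (fun j h1 h2 => hEE j h2)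
    (fun e' he' => by
      obtain ⟨ρ₀, hρ₀, h1⟩ := hN' e' he'
      rw [hβ]
      exact h1 w₁ w₁ hatt le_rfl (by rw [sub_self, abs_zero]; exact hρ₀.le)
        (by rw [sub_self, abs_zero]; exact hρ₀.le))
    (fun h hh => by
      have h1 := hvm 0 0 h 0 1 ϱ le_rfl le_rfl hδ.le (by
        rw [Rat.cast_zero, add_zero, hΨ1, mul_zero]
        exact hh.le) one_pos hϱ le_rfl
      rw [Rat.cast_zero, add_zero] at h1
      exact h1) hVM hP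
  refine ⟨a₀, w₀, 2 * X, B, hlt, by linarith, by
    rw [ha₀, hw₀]
    linarith, M, Vd, β, E₁, hβi, ⟨by rw [hM3]; exact hϱ, by rw [hM2]; exact hE.le, ?_, hM4,
      hM5⟩, ?_, ?_, ?_, ?_, ?_, hM6⟩
  · rw [hM2, hM3]
    have h1 := hroom (n - 1) le_rfl
    have h2 := (ll_bd (o := o) H (show n - 1 < n by omega) (a := w₁) (w := w₁)
      (by linarith) le_rfl (by linarith)).1
    rw [← hβi (n - 1) le_rfl] at h2
    linarith [(abs_le.1 (k1 (n - 1) le_rfl)).2]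
  · intro w hw i hi
    rw [hM2, hM3]
    have h1 := hroom i hi
    rcases hw with rfl | rfl
    · linarith [(abs_le.1 (k1 i hi)).2]
    · linarith [(abs_le.1 (k2 i hi)).2]
  · intro r' s' h1 h2 h3 Dr η σ h4 h5 h6
    rw [hVd]
    rw [hM3] at h6
    exact ⟨r', s', h1, h2, h3, rfl, rfl, by rw [hΨ], h4, h5, h6⟩
  · linarith [hEE (n - 1) le_rfl]
  · rw [hE1]
    linarith [(abs_le.1 (k1 (n - 1) le_rfl)).1, (abs_le.1 (k2 (n - 1) le_rfl)).2]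
  · intro q hq
    rw [hVd] at hq
    obtain ⟨r', s', h1, h2, h3, h4, h5, -⟩ := hq
    have g1 : (0 : ℝ) ≤ s' := by exact_mod_cast h1
    have g2 : (s' : ℝ) ≤ r' := by exact_mod_cast h2
    have g3 : (r' : ℝ) ≤ δ := by exact_mod_cast h3
    rw [h4, h5]
    constructor <;> linarith

end Pool.MV
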