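import Pool.Agent.H82.MV.One

/-!
# The windows of the stages

`pst_wn`: a direction closed at `w₁` from the nodes and the variations at the windows
`a₀ - X Mg ^ k`, `a₀ = w₁ + X`. `mevD_nv`: the data `MevD` from them.
-/

set_option autoImplicit false

namespace Pool.MV

open MeasureTheory Set Filter Topology
open Pool.Agent.H49.Ent Pool.Agent.H32.Dense Pool.STK Pool.KA Pool.KSAT Pool.K2S Pool.PB
open Pool.GEN Pool.S6C Pool.CHT Pool.SHR Pool.ZL Pool.PKG Pool.Z4 Pool.ZFI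
open Pool.Z3 (NodQ Att3 nod_fac)
open Pool.ISO (lvN)
open Pool.LEV (Law)

variable {n : ℕ} {hn : 2 ≤ n} {S : PCl n} {P : ℝ → ℝ → ℝ} {r : ℝ → ℝ}
  {P' : ℕ → List (Fin n) × Fin n → ℝ → ℝ → ℝ} {Λ : Finset (Fin n) → Fin n → ℝ → ℝ → ℝ}
  {o : Od n}

/-- The windows of the stages, as rational offsets from `w₁`. -/
def off (X : ℚ) (Mg k : ℕ) : ℚ := X - X * (Mg : ℚ) ^ k

theorem wn_off (w₁ : ℝ) (X : ℚ) (Mg k : ℕ) :
    wn (w₁ + X) X Mg k = w₁ + ((off X Mg k : ℚ) : ℝ) := by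
  unfold wn off
  push_cast
  ring

theorem off_mono {X : ℚ} {Mg : ℕ} (hX : 0 ≤ X) (hM : 1 ≤ Mg) {k k' : ℕ} (h : k ≤ k') :
    off X Mg k' ≤ off X Mg k := by
  have h1 : (1 : ℚ) ≤ Mg := by exact_mod_cast hM
  have h2 : (Mg : ℚ) ^ k ≤ (Mg : ℚ) ^ k' := pow_le_pow_right₀ h1 h
  have h3 := mul_le_mul_of_nonneg_left h2 hX
  unfold off
  linarith

/-- **A direction closed at `w₁`**, from the nodes and the variations at the windows of the
stages. -/
theorem pst_wn (H : Pk hn S P r P' Λ) {l : ℕ} (hl : l < n - 1) {C gap : ℝ} {lam T : ℕ → ℝ}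
    {rho w₁ g E ϱ e ρ₂ : ℝ} {X : ℚ} {Mg : ℕ} {D : ℕ → ℕ} (V : Vs l n lam T gap)
    (R : Rat n (lam l) gap Mg) (hC : 1 ≤ C) (hCg : gap * Mg ≤ C) (hX : 0 < X)
    (hE₁ : w₁ ∈ Eg (LF hn P P' o) l n lam T (epg n C gap) rho)
    (hw0 : 0 < w₁ + (off X Mg (n - 1 - l) : ℚ)) (ha1 : w₁ + X < 1)
    (hrho : X * (Mg : ℝ) ^ (n - 1 - l) < rho) (hXϱ : X * (Mg : ℝ) ^ (n - 1 - l) < ϱ)
    (hE : 0 < E) (hϱ : 0 < ϱ)
    (hroom : ∀ i ≤ n - 1, lvN (P' o.2) (cc hn o.1.1) (n - 1) P i g g + E + 8 * ϱ < 1)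
    (hlv : ∀ i ≤ n - 1, ∀ a w : ℝ, 0 < w → w ≤ a → a ≤ 1 → |a - g| ≤ ρ₂ → |w - g| ≤ ρ₂ →
      |lvN (P' o.2) (cc hn o.1.1) (n - 1) P i a w - lvN (P' o.2) (cc hn o.1.1) (n - 1) P i g g| ≤ ϱ)
    (hn1 : w₁ + X - g ≤ ρ₂) (hn2 : g - (w₁ + (off X Mg (n - 1 - l) : ℚ)) ≤ ρ₂)
    (hNQ : ∀ p q : ℚ, off X Mg (n - 1 - l) ≤ q → q ≤ p → p ≤ X → NodQ S (cc hn o.1.1) (n - 1)
      (lvN (P' o.2) (cc hn o.1.1) (n - 1) P) e E ϱ (w₁ + p) (w₁ + q))
    (hND : ∀ s, l ≤ s → s < n - 1 → NodD S (cc hn o.1.1) (n - 1) (D s)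
      (lvN (P' o.2) (cc hn o.1.1) (n - 1) P) e E ϱ (w₁ + X) (w₁ + (off X Mg (n - 1 - s) : ℚ)))
    (hNV : ∀ s, l ≤ s → s < n - 1 → ∀ s', s' = s ∨ s' = s + 1 →
      NVD S (cc hn o.1.1) (n - 1) l (s + 1) (D s)
      (lvN (P' o.2) (cc hn o.1.1) (n - 1) P) e E ϱ (w₁ + X) (w₁ + (off X Mg (n - 1 - s) : ℚ))
      (w₁ + (off X Mg (n - 1 - s') : ℚ)) (gap / (8 * C) * (X * (Mg : ℝ) ^ (n - 1 - s)))
      (X * (Mg : ℝ) ^ (n - 1 - s') + X * (Mg : ℝ) ^ (n - 1 - (s + 1)))) :
    PstQ S (cc hn o.1.1) (n - 1) l (n - 1) (lvN (P' o.2) (cc hn o.1.1) (n - 1) P) e E ϱ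
      (w₁ + X) (w₁ + (X - X * Mg : ℝ)) w₁ (2 * X) := by
  obtain ⟨β, hβ⟩ : ∃ β, β = lvN (P' o.2) (cc hn o.1.1) (n - 1) P := ⟨_, rfl⟩
  have hβi : ∀ i ≤ n - 1, β i = LF hn P P' o i := fun i hi => by
    rw [hβ]
    exact lvN_eq hi
  rw [← hβ]
  simp only [← hβ] at hroom hlv hNQ hND hNV
  have hX0 : (0 : ℝ) < X := by exact_mod_cast hX
  obtain ⟨hr1, -, hr3⟩ := V.rat R
  have hMg : 1 ≤ Mg := by
    have : (1 : ℝ) < Mg := hr3
    exact_mod_cast this.le
  have hM1 : (1 : ℝ) ≤ Mg := hr3.le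
  obtain ⟨a₀, ha₀⟩ : ∃ a₀ : ℝ, a₀ = w₁ + X := ⟨_, rfl⟩
  rw [← ha₀] at ha1 hn1 hND hNV ⊢
  obtain ⟨x, hx⟩ : ∃ x : ℕ → ℝ, x = fun s => X * (Mg : ℝ) ^ (n - 1 - s) := ⟨_, rfl⟩
  obtain ⟨om, hom⟩ : ∃ om : ℕ → ℝ, om = fun s => wn a₀ X Mg (n - 1 - s) := ⟨_, rfl⟩
  have hxe : ∀ s, x s = X * (Mg : ℝ) ^ (n - 1 - s) := fun s => by rw [hx]
  have home : ∀ s, om s = wn a₀ X Mg (n - 1 - s) := fun s => by rw [hom]
  have homo : ∀ s, om s = w₁ + (off X Mg (n - 1 - s) : ℚ) := fun s => by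
    rw [home, ha₀, wn_off]
  have homx : ∀ s, om s = a₀ - x s := fun s => by
    rw [home, hxe]
    rfl
  have hx0 : ∀ s, 0 < x s := fun s => by
    rw [hxe]
    positivity
  have hxs : ∀ s, s < n - 1 → x s = Mg * x (s + 1) := fun s hs => by
    rw [hxe, hxe]
    have e1 : n - 1 - s = n - 1 - (s + 1) + 1 := by omega
    rw [e1, pow_succ]
    ring
  have hxm : ∀ s, l ≤ s → x s ≤ x l := fun s hs => by
    rw [hxe, hxe]
    exact mul_le_mul_of_nonneg_left (pow_le_pow_right₀ hM1 (by omega)) hX0.le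
  have hxl : x l < ϱ := by rw [hxe]; exact hXϱ
  have hxr : x l < rho := by rw [hxe]; exact hrho
  have homl : ∀ s, l ≤ s → om l ≤ om s := fun s hs => by
    rw [homx, homx]
    linarith [hxm s hs]
  have hl0 : 0 < om l := by rw [homo]; exact hw0
  have hC0 : 0 < C := by linarith
  have hg0 := V.gap0
  have hn0 := V.n0
  have hb := ll_bd01 (o := o) H l
  have hln : l < n := by omega
  have haX : a₀ - X = w₁ := by rw [ha₀]; ring
  have hxn : x (n - 1) = X := by
    rw [hxe]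
    simp
  have hgl : g - om l ≤ ρ₂ := by rw [homo]; exact hn2
  have hNP := pst_allD (S := S) (c := cc hn o.1.1) (r := n - 1) (l := l) (β := β) (e := e)
    (E := E) (ϱ := ϱ) (a₀ := a₀) (x := ϱ) (om := om) (Li := fun s => gap / (8 * C) * x s)
    (Lo := fun s => 2 * x s) (Lo₀ := fun s => x (s - 1) + x s)
    (Ψ := fun s => psi (LF hn P P' o) l n T a₀ (om (s - 1)) (2 * x s) (Kg n gap) a₀ (om s))
    (D := D) (by
      have h5 := cc_inj hn o.1.1
      have e1 : n - 1 + 1 = n := by omega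
      rw [e1]
      exact h5) hl hl0 (fun s hs hs' => by
      rw [homx, homx, hxs s hs']
      have h1 := hx0 (s + 1)
      have h2 : 1 * x (s + 1) ≤ Mg * x (s + 1) := mul_le_mul_of_nonneg_right hM1 h1.le
      linarith) (by
      rw [homx]
      linarith [hx0 (n - 1)]) ha1.le (fun i hi a w h1 h2 h3 => by
      rw [hβi i hi]
      exact (ll_bd (o := o) H (by omega) h1 h2 h3).1) hE.le hϱ hϱ
    (fun s hs hs' j hj => by
      have h1 := homl s hs
      have h2 := hx0 s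
      have h3 := homx s
      have h4 := homx l
      have h7 : om l < a₀ := by linarith [hx0 l]
      have h5 := hlv j hj a₀ (om s) (by linarith) (by linarith) ha1.le (by
        rw [abs_le]
        constructor <;> linarith) (by
        rw [abs_le]
        constructor <;> linarith)
      have h6 := hroom j hj
      linarith [(abs_le.1 h5).2])
    (fun s hs hs' => by
      have h1 := hx0 (s + 1)
      have h2 : 1 * x (s + 1) ≤ Mg * x (s + 1) := mul_le_mul_of_nonneg_right hM1 h1.le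
      have h3 := hxs s hs'
      have h4 := hxm s hs
      have e1 : s + 1 - 1 = s := by omega
      refine ⟨by have := hx0 s; positivity, ?_, ?_, ?_⟩
      · show gap / (8 * C) * x s ≤ 2 * x (s + 1)
        rw [h3, div_mul_eq_mul_div, div_le_iff₀ (by positivity)]
        have h5 := mul_le_mul_of_nonneg_right hCg h1.le
        nlinarith
      · show 2 * x (s + 1) ≤ x (s + 1 - 1) + x (s + 1)
        rw [e1]
        linarith
      · show x (s + 1 - 1) + x (s + 1) < 2 * x (s + 1) + ϱ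
        rw [e1]
        linarith)
    (fun s hs hs' => by
      rw [homo]
      exact hND s hs hs')
    (fun s hs hs' => by
      rw [homo, homo, ha₀]
      refine mesh_rat (off_mono hX.le hMg (by omega)) fun p hp hp' => ?_
      have h1 : off X Mg (n - 1 - l) ≤ off X Mg (n - 1 - s) := off_mono hX.le hMg (by omega)
      have h2 : off X Mg (n - 1 - (s + 1)) ≤ X := by
        unfold off
        have : (0 : ℚ) ≤ X * (Mg : ℚ) ^ (n - 1 - (s + 1)) := by positivity
        linarith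
      exact hNQ X p (h1.trans hp) (hp'.trans h2) le_rfl)
    (fun s hs hs' => by
      have e1 : s + 1 - 1 = s := by omega
      have e2 : n - 1 - s = n - 1 - (s + 1) + 1 := by omega
      have h1 := homl s hs
      have h2 := homl (s + 1) (by omega)
      have h3 := homx (s + 1)
      have h4 := hx0 (s + 1)
      have h5 : om s ≤ om (s + 1) := by
        rw [homx, homx, hxs s (by omega)]
        have : 1 * x (s + 1) ≤ Mg * x (s + 1) := mul_le_mul_of_nonneg_right hM1 h4.le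
        linarith
      have hN : Bn a₀ (om s) a₀ (om (s + 1)) := ⟨by linarith, h5, by linarith, le_rfl, ha1.le⟩
      simp only [e1]
      constructor
      · have h6 := vld_psi (b := 2 * x (s + 1)) V hb hβi hN (show s + 1 ≤ n - 1 by omega)
        rw [sub_self, sub_zero] at h6
        exact ⟨_, _, _, h6⟩
      · have h7 := wn_stage (a₀ := a₀) (k := n - 1 - (s + 1)) V R hC hX0 (by rw [haX]; exact hE₁)
          (by
            rw [← e2, ← home]
            linarith) ha1 (by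
            rw [← e2, ← hxe]
            linarith [hxm s hs])
        rw [← e2, ← home, ← home, ← hxe] at h7
        have h8 : 4 * ((s : ℝ) + 1 - l) ≤ 4 * n := by
          have h9 : ((s + 1 : ℕ) : ℝ) ≤ n := by exact_mod_cast (by omega : s + 1 ≤ n)
          push_cast at h9
          have h10 : (0 : ℝ) ≤ l := Nat.cast_nonneg l
          linarith
        have h11 : 0 ≤ psi (LF hn P P' o) l n T a₀ (om s) (2 * x (s + 1)) (Kg n gap) a₀
          (om (s + 1)) := psi_nn hb V.K0.le hln hN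
        calc 4 * ((s : ℝ) + 1 - l) * psi (LF hn P P' o) l n T a₀ (om s) (2 * x (s + 1))
              (Kg n gap) a₀ (om (s + 1)) ≤ 4 * n * psi (LF hn P P' o) l n T a₀ (om s)
              (2 * x (s + 1)) (Kg n gap) a₀ (om (s + 1)) := mul_le_mul_of_nonneg_right h8 h11
          _ ≤ 4 * n * (2 * epg n C gap * x (s + 1)) :=
              mul_le_mul_of_nonneg_left h7 (by positivity)
          _ = gap / (8 * C) * x (s + 1) := by
              unfold epg
              field_simp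
              ring)
    (fun s hs hs' => by
      have e1 : s + 1 - 1 = s := by omega
      have h1 := hNV s hs hs' s (Or.inl rfl)
      have h2 := hNV s hs hs' (s + 1) (Or.inr rfl)
      rw [← homo, ← hxe, ← hxe] at h1
      rw [← homo, ← homo, ← hxe, ← hxe] at h2
      simp only [e1]
      refine ⟨h1, ?_⟩
      have e2 : 2 * x (s + 1) = x (s + 1) + x (s + 1) := by ring
      rw [e2]
      exact h2)
  have e1 : om (n - 1 - 1) = w₁ + (X - X * Mg : ℝ) := by
    rw [homx, hxe, ha₀]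
    have : n - 1 - (n - 1 - 1) = 1 := by omega
    rw [this, pow_one]
    ring
  have e2 : om (n - 1) = w₁ := by rw [homx, hxn, haX]
  rw [e1, e2] at hNP
  simp only [hxn] at hNP
  exact hNP

end Pool.MV
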