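import Pool.Agent.H2.GEN.Unf
import Pool.Agent.H77.Z3.Gnd

/-!
# The data of the paths, with exponents which follow the defect of the greedy order

`dfm`: the defect of the greedy order within the distance `R` of a centre. `efm`: the exponent of the
gradients of the list at the distance `R`. `ptN_at`: the data of the points near a centre, with given
exponents. `ptD_fm`: the data of a path with these exponents. `ptD_maxf`: uniform constants.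
-/

set_option autoImplicit false

namespace Pool.MV

open Finset Real MvPolynomial MeasureTheory
open Pool.Agent.H49.Ent Pool.Agent.H32.Dense Pool.STK Pool.KA Pool.KSAT Pool.K2S Pool.PB Pool.S6C
open Pool.GEN Pool.CHT Pool.CHX Pool.ISO
open Pool.LBT (ThrOf)
open Pool.LEV (Law)
open Pool.JTN (TgP Cen mod_all)
open Pool.STR (AttN)

variable {m : ℕ}

/-- The defects of the greedy order within the distance `R`. -/
def dfS (P : List (Fin m) × Fin m → ℝ → ℝ → ℝ) (c : ℕ → Fin m) (r : ℕ) (x R : ℝ) : Set ℝ :=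
  {y | y = 0 ∨ ∃ i l : ℕ, i < r ∧ l < i ∧ ∃ a w : ℝ, 0 < w ∧ w ≤ a ∧ a < 1 ∧ |a - x| ≤ R ∧
    |w - x| ≤ R ∧ y = bet P c l a w - tau P c l i a w}

/-- **The defect of the greedy order** within the distance `R`. -/
noncomputable def dfm (P : List (Fin m) × Fin m → ℝ → ℝ → ℝ) (c : ℕ → Fin m) (r : ℕ) (x R : ℝ) : ℝ :=
  sSup (dfS P c r x R)

/-- **The exponent of the gradients of the list** at the distance `R`. -/
noncomputable def efm (P : List (Fin m) × Fin m → ℝ → ℝ → ℝ) (c : ℕ → Fin m) (r : ℕ) (x R : ℝ) : ℝ :=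
  (Csl r r + 1) * dfm P c r x R + R ^ 2

section

variable {S : PCl m} {P : List (Fin m) × Fin m → ℝ → ℝ → ℝ} {θ : ℝ} {c : ℕ → Fin m} {r : ℕ}
  {x R : ℝ}

theorem dfS_bdd (hP : ThrOf (chsys m θ) S P) : BddAbove (dfS P c r x R) := by
  refine ⟨1, ?_⟩
  rintro y (rfl | ⟨i, l, -, -, a, w, hw, hwa, ha, -, -, rfl⟩)
  · exact zero_le_one
  · have h1 := hP.up ((List.range l).map c, c l) a w hw.le hwa ha.le
    have h2 := hP.low ((List.range l).map c, c i) a w hw.le hwa ha.le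
    have e1 : bet P c l a w = P ((List.range l).map c, c l) a w := rfl
    have e2 : tau P c l i a w = P ((List.range l).map c, c i) a w := rfl
    rw [e1, e2]
    linarith

theorem dfm_nn (hP : ThrOf (chsys m θ) S P) : 0 ≤ dfm P c r x R :=
  le_csSup (dfS_bdd hP) (Or.inl rfl)

theorem dfm_mono (hP : ThrOf (chsys m θ) S P) {R' : ℝ} (h : R ≤ R') :
    dfm P c r x R ≤ dfm P c r x R' := by
  refine csSup_le_csSup (dfS_bdd hP) ⟨0, Or.inl rfl⟩ ?_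
  rintro y (rfl | ⟨i, l, hi, hl, a, w, hw, hwa, ha, h1, h2, rfl⟩)
  · exact Or.inl rfl
  · exact Or.inr ⟨i, l, hi, hl, a, w, hw, hwa, ha, h1.trans h, h2.trans h, rfl⟩

theorem le_dfm (hP : ThrOf (chsys m θ) S P) {i l : ℕ} (hi : i < r) (hl : l < i) {a w : ℝ}
    (hw : 0 < w) (hwa : w ≤ a) (ha : a < 1) (h1 : |a - x| ≤ R) (h2 : |w - x| ≤ R) :
    bet P c l a w ≤ tau P c l i a w + dfm P c r x R := by
  have h3 : bet P c l a w - tau P c l i a w ∈ dfS P c r x R :=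
    Or.inr ⟨i, l, hi, hl, a, w, hw, hwa, ha, h1, h2, rfl⟩
  have := le_csSup (dfS_bdd hP) h3
  unfold dfm
  linarith

theorem dfm_le {M : ℝ} (h0 : 0 ≤ M) (h : ∀ i < r, ∀ l < i, ∀ a w : ℝ, 0 < w → w ≤ a → a < 1 →
    |a - x| ≤ R → |w - x| ≤ R → bet P c l a w ≤ tau P c l i a w + M) : dfm P c r x R ≤ M := by
  refine csSup_le ⟨0, Or.inl rfl⟩ ?_
  rintro y (rfl | ⟨i, l, hi, hl, a, w, hw, hwa, ha, h1, h2, rfl⟩)
  · exact h0
  · linarith [h i hi l hl a w hw hwa ha h1 h2]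

/-- The defect is small near a centre. -/
theorem dfm_sml (hP : ThrOf (chsys m θ) S P) {Pt : ℝ → ℝ → ℝ} (hQ : Law Pt) {sg E : ℝ}
    (hx : Cen P θ c r Pt x sg E) {ω : ℝ} (hω : 0 < ω) :
    ∃ ρ : ℝ, 0 < ρ ∧ ∀ R ≤ ρ, dfm P c r x R ≤ ω := by
  obtain ⟨ρ, hρ, h1⟩ := mod_all hP hQ hx (half_pos hω)
  refine ⟨ρ, hρ, fun R hR => dfm_le hω.le fun i hi l hl a w hw hwa ha h2 h3 => ?_⟩
  obtain ⟨h4, -⟩ := h1 a w hw.le hwa ha.le (h2.trans hR) (h3.trans hR)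
  have h5 := (abs_le.1 (h4 l (hl.trans hi) l le_rfl)).2
  have h6 := (abs_le.1 (h4 i hi l hl.le)).1
  have h7 := hx.gre i hi l hl
  rw [tau_self] at h5
  linarith

/-- **The data of the points near a centre**, with given exponents. -/
theorem ptN_at (hS0 : S.Ne) (hP : ThrOf (chsys m θ) S P) (hθ : 0 < θ) (hS : TmH S)
    (hc : Set.InjOn c (Set.Iio r)) {Pt : ℝ → ℝ → ℝ} (hQ : Law Pt)
    (hQl : ∀ a w, 0 < w → w ≤ a → a ≤ 1 → a ≤ Pt a w) {sg E : ℝ} (hx : Cen P θ c r Pt x sg E)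
    (hxP : Pt x x < 1) {Att : Set (ℝ × ℝ)}
    (hAtt : ∀ a w, (a, w) ∈ Att → 0 < w → w ≤ a → a < 1 →
      (∀ i < r, ∀ l ≤ i, Rc (tau P c l i) a w) ∧ ∀ i < r, Up1 (bet P c i) a w) {ρT : ℝ}
    (hρT : 0 < ρT)
    (hT : ∀ a w, (a, w) ∈ Att → 0 < w → w ≤ a → a < 1 → |a - x| ≤ ρT → |w - x| ≤ ρT →
      TgP S c r (Pt a w) a w sg) :
    ∃ em ρ₀ : ℝ, 0 < em ∧ 0 < ρ₀ ∧ ∀ a w vs e : ℝ, (a, w) ∈ Att → 0 < w → w ≤ a → a < 1 →
      |a - x| ≤ ρ₀ → |w - x| ≤ ρ₀ → 0 ≤ vs → Csl r r * vs < e → vs ≤ em → e ≤ em →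
      (∀ i < r, ∀ l < i, bet P c l a w ≤ tau P c l i a w + vs) →
      PtN S P θ c r Pt a w vs e e E sg := by
  have hr0 : (0 : ℝ) ≤ r := Nat.cast_nonneg r
  have hx0 := hx.x0
  have hx1 := hx.x1
  have hE0 := hx.E0
  obtain ⟨μv, hμv, hμv'⟩ := fin_pos r (f := fun i => 1 - (bet P c i x x + θ * x))
    (fun i hi => by
      have h1 := hx.vis i hi
      linarith)
  have hst : 0 < max (E + Pt x x - sg) (if 1 ≤ r then E + bet P c (r - 1) x x - sg else 0) := by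
    rw [lt_max_iff]
    rcases hx.top with h1 | ⟨h1, h2⟩
    · exact Or.inl (by linarith)
    · right
      rw [if_pos h1]
      linarith
  obtain ⟨s₀, hs₀⟩ : ∃ s₀ : ℝ, s₀ = max (E + Pt x x - sg)
    (if 1 ≤ r then E + bet P c (r - 1) x x - sg else 0) := ⟨_, rfl⟩
  rw [← hs₀] at hst
  obtain ⟨em, hem⟩ : ∃ em : ℝ, em = min (θ * x / 16) (E / (8 * (r + 1))) := ⟨_, rfl⟩
  have hem0 : 0 < em := by
    rw [hem]
    exact lt_min (by positivity) (by positivity)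
  have hem1 : em ≤ θ * x / 16 := by rw [hem]; exact min_le_left _ _
  have hem2 : em * (r + 1) ≤ E / 8 := by
    have h1 : em ≤ E / (8 * (r + 1)) := by rw [hem]; exact min_le_right _ _
    rw [le_div_iff₀ (by positivity)] at h1
    linarith
  obtain ⟨ω, hω⟩ : ∃ ω : ℝ, ω = min ((1 - Pt x x) / 2) (min (μv / 4) (s₀ / 2)) := ⟨_, rfl⟩
  have hω0 : 0 < ω := by
    rw [hω]
    exact lt_min (by linarith) (lt_min (by positivity) (by positivity))
  have hωP : ω ≤ (1 - Pt x x) / 2 := by rw [hω]; exact min_le_left _ _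
  have hω2 : ω ≤ μv / 4 := by
    rw [hω]
    exact (min_le_right _ _).trans (min_le_left _ _)
  have hω3 : ω ≤ s₀ / 2 := by
    rw [hω]
    exact (min_le_right _ _).trans (min_le_right _ _)
  obtain ⟨ρ₁, hρ₁, hmod⟩ := mod_all hP hQ hx hω0
  obtain ⟨ρ₀, hρ₀⟩ : ∃ ρ₀ : ℝ, ρ₀ = min (min ρ₁ ρT) (min (x / 2) (μv / (4 * θ))) := ⟨_, rfl⟩
  have hρ₀0 : 0 < ρ₀ := by
    rw [hρ₀]
    exact lt_min (lt_min hρ₁ hρT) (lt_min (by positivity) (by positivity))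
  have r1 : ρ₀ ≤ ρ₁ := by rw [hρ₀]; exact (min_le_left _ _).trans (min_le_left _ _)
  have r2 : ρ₀ ≤ ρT := by rw [hρ₀]; exact (min_le_left _ _).trans (min_le_right _ _)
  have r3 : ρ₀ ≤ x / 2 := by rw [hρ₀]; exact (min_le_right _ _).trans (min_le_left _ _)
  have r5 : θ * ρ₀ ≤ μv / 4 := by
    have h1 : ρ₀ ≤ μv / (4 * θ) := by
      rw [hρ₀]
      exact (min_le_right _ _).trans (min_le_right _ _)
    rw [le_div_iff₀ (by positivity)] at h1
    linarith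
  refine ⟨em, ρ₀, hem0, hρ₀0, fun a w vs e haw hw hwa ha h1 h2 hvs hvse hvem heem hgre => ?_⟩
  obtain ⟨hn1, hn2⟩ := hmod a w hw.le hwa ha.le (h1.trans r1) (h2.trans r1)
  have h3 := abs_le.1 h2
  have hθw : θ * w ≤ θ * x + θ * ρ₀ := by
    have := mul_le_mul_of_nonneg_left (show w ≤ x + ρ₀ by linarith [h3.2]) hθ.le
    linarith
  have hθw' : θ * x / 2 ≤ θ * w := by
    have := mul_le_mul_of_nonneg_left (show x / 2 ≤ w by linarith [h3.1]) hθ.le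
    linarith
  have hθx : 0 < θ * x := by positivity
  have he0 : 0 ≤ e := by
    have : 0 ≤ (Csl r r : ℝ) * vs := mul_nonneg (Nat.cast_nonneg _) hvs
    linarith
  refine ⟨Pts.of_up hS0 hP hθ hS hc hvs he0 (fun _ _ => hw) (fun _ _ => hwa)
    (fun _ _ => ha) (fun _ _ => by linarith) (fun _ _ => (hAtt a w haw hw hwa ha).1)
    (fun _ _ => (hAtt a w haw hw hwa ha).2) (fun _ _ i hi => ?_) (fun _ _ i hi l hl => hgre i hi l hl),
    hvs, hvse, le_rfl, ?_, ?_, hT a w haw hw hwa ha (h1.trans r2) (h2.trans r2),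
    hQl a w hw hwa ha.le, ?_⟩
  · have h4 := abs_le.1 (hn1 i hi i le_rfl)
    rw [tau_self] at h4
    have h5 := hμv' i hi
    linarith [h4.2]
  · have h4 : (e + vs) * (r + 1) ≤ (em + em) * (r + 1) :=
      mul_le_mul_of_nonneg_right (by linarith) (by linarith)
    linarith
  · have h4 := abs_le.1 hn2
    have h5 : s₀ ≤ E + Pt x x - sg ∨ s₀ ≤ if 1 ≤ r then E + bet P c (r - 1) x x - sg else 0 := by
      rw [← le_max_iff, hs₀]
    rcases h5 with h5 | h5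
    · exact Or.inl (by linarith [h4.1])
    · right
      by_cases h6 : 1 ≤ r
      · rw [if_pos h6] at h5
        have h7 := abs_le.1 (hn1 (r - 1) (by omega) (r - 1) le_rfl)
        rw [tau_self] at h7
        exact ⟨h6, by linarith [h7.1]⟩
      · rw [if_neg h6] at h5
        linarith
  · have h4 := abs_le.1 hn2
    linarith [h4.2]

/-- **The data of a path**, with the exponents of the defect. -/
theorem ptD_fm (hP : ThrOf (chsys m θ) S P) {Pt : ℝ → ℝ → ℝ} {em E sg ρ₀ : ℝ} {Att : Set (ℝ × ℝ)}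
    (hAN : AttN Att) (hx : ρ₀ < x) (hx1 : x + ρ₀ < 1)
    (hpt : ∀ a w vs e : ℝ, (a, w) ∈ Att → 0 < w → w ≤ a → a < 1 →
      |a - x| ≤ ρ₀ → |w - x| ≤ ρ₀ → 0 ≤ vs → Csl r r * vs < e → vs ≤ em → e ≤ em →
      (∀ i < r, ∀ l < i, bet P c l a w ≤ tau P c l i a w + vs) →
      PtN S P θ c r Pt a w vs e e E sg)
    (hem : ∀ R ≤ ρ₀, 0 < R → dfm P c r x R ≤ em ∧ efm P c r x R ≤ em) {a w ρ R₀ : ℝ} {S₀ : ℕ}
    (haw : (a, w) ∈ Att) (hwa : w ≤ a) (hR₀ : 0 < R₀) (ha : |a - x| ≤ R₀) (hw : |w - x| ≤ R₀)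
    (hR1 : R₀ ≤ ρ₀ / 2)
    (hρ : 0 < ρ) (hρ1 : ρ ≤ ρ₀ / 2) (hg : ∀ l ≤ r, ∀ κ : ℝ, 0 ≤ κ → κ ≤ ρ →
      lvN P c r Pt l a w ≤ lvN P c r Pt l (a - κ) (w - κ) + S₀ * κ) (hS₀ : 2 ≤ S₀ * ρ) :
    PtD S P θ c r Pt a w ρ S₀ (fun κ => dfm P c r x (R₀ + κ)) (fun κ => efm P c r x (R₀ + κ))
      (fun κ => efm P c r x (R₀ + κ)) (fun _ => E) (fun _ => sg) {κ | (a - κ, w - κ) ∈ Att} := by
  have ha' := abs_le.1 ha
  have hw' := abs_le.1 hw
  refine ⟨hρ, by linarith, hwa, by linarith, ?_, fun y z hy hyz hz => ?_,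
    fun κ h2 h3 h4 => ?_, fun κ h2 h3 h4 l hl => hg l hl κ h3 h4, hS₀⟩
  · show (a - 0, w - 0) ∈ Att
    rw [sub_zero, sub_zero]
    exact haw
  · have h2 := hAN a w hwa
    obtain ⟨t, h3, h4⟩ := (Measure.dense_of_ae h2).exists_between (neg_lt_neg hyz)
    have h5 := h3 (by linarith [h4.1]) (by linarith [h4.2])
    refine ⟨-t, ?_, by linarith [h4.2], by linarith [h4.1]⟩
    show (a - -t, w - -t) ∈ Att
    rw [sub_neg_eq_add, sub_neg_eq_add]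
    exact h5
  · have hRκ : R₀ + κ ≤ ρ₀ := by linarith
    have hRκ0 : 0 < R₀ + κ := by linarith
    have d1 : |a - κ - x| ≤ R₀ + κ := by
      rw [abs_le]
      constructor <;> linarith
    have d2 : |w - κ - x| ≤ R₀ + κ := by
      rw [abs_le]
      constructor <;> linarith
    obtain ⟨h5, h6⟩ := hem _ hRκ hRκ0
    have h7 := dfm_nn (c := c) (r := r) (x := x) (R := R₀ + κ) hP
    refine hpt _ _ _ _ h2 (by linarith) (by linarith) (by linarith) (d1.trans hRκ) (d2.trans hRκ)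
      h7 ?_ h5 h6 fun i hi l hl => le_dfm hP hi hl (by linarith) (by linarith) (by linarith) d1 d2
    unfold efm
    have h8 : 0 < (R₀ + κ) ^ 2 := by positivity
    have h9 : ((Csl r r : ℝ) + 1) * dfm P c r x (R₀ + κ) = Csl r r * dfm P c r x (R₀ + κ) +
        dfm P c r x (R₀ + κ) := by ring
    rw [h9]
    linarith

/-- **The data of the paths near a centre, with uniform constants.** -/
theorem ptD_maxf (hP : ThrOf (chsys m θ) S P) {Pt : ℝ → ℝ → ℝ} (hPt : Law Pt)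
    {em E sg ρ₀ : ℝ} {Att : Set (ℝ × ℝ)} (hAN : AttN Att) (hρ₀ : 0 < ρ₀) (hx : ρ₀ < x)
    (hx1 : x + ρ₀ < 1)
    (hpt : ∀ a w vs e : ℝ, (a, w) ∈ Att → 0 < w → w ≤ a → a < 1 →
      |a - x| ≤ ρ₀ → |w - x| ≤ ρ₀ → 0 ≤ vs → Csl r r * vs < e → vs ≤ em → e ≤ em →
      (∀ i < r, ∀ l < i, bet P c l a w ≤ tau P c l i a w + vs) →
      PtN S P θ c r Pt a w vs e e E sg)
    (hem : ∀ R ≤ ρ₀, 0 < R → dfm P c r x R ≤ em ∧ efm P c r x R ≤ em)
    (hD : ∀ l ≤ r, ∃ V t₀ : ℝ, 0 ≤ V ∧ 0 < t₀ ∧ ∀ t : ℝ, |t| < t₀ →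
      |lvN P c r Pt l (x + t) (x + t) - lvN P c r Pt l x x| ≤ V * |t|) {c₀ τ : ℝ} (hc₀ : 0 ≤ c₀)
    (hτ : 0 < τ) : ∃ (S₀ : ℕ) (s₁ : ℝ), 1 ≤ S₀ ∧ 0 < s₁ ∧ ∀ s u y : ℝ, 0 < s → s < s₁ → 0 ≤ u →
      u ≤ y → y ≤ s → volume {w : ℝ | |w - x| ≤ c₀ * s ∧ ¬ ∃ (ρ : ℝ) (Q : Set ℝ),
        PtD S P θ c r Pt (w + y) (w + u) ρ S₀ (fun κ => dfm P c r x ((c₀ + 1) * s + κ))
          (fun κ => efm P c r x ((c₀ + 1) * s + κ)) (fun κ => efm P c r x ((c₀ + 1) * s + κ))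
          (fun _ => E) (fun _ => sg) Q} ≤ ENNReal.ofReal (τ * s) := by
  obtain ⟨N, s₀, ρ, h1, h2, h3, h4, h5, h6⟩ := bk_maxn (f := fun l => lvN P c r Pt l)
    (show 0 < x by linarith) (show x < 1 by linarith) hc₀ (r + 1) (fun l hl => by
      have h7 : lvN P c r Pt l = if l < r then bet P c l else Pt := by
        funext a w
        unfold lvN
        split_ifs <;> rfl
      rw [h7]
      split_ifs
      · exact hP.law _
      · exact hPt) (fun l hl => hD l (by omega)) τ hτ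
  obtain ⟨ρ₁, hρ₁⟩ : ∃ ρ₁ : ℝ, ρ₁ = min ρ (ρ₀ / 2) := ⟨_, rfl⟩
  have hρ10 : 0 < ρ₁ := by rw [hρ₁]; exact lt_min h3 (by linarith)
  have hρ11 : ρ₁ ≤ ρ := by rw [hρ₁]; exact min_le_left _ _
  have hρ12 : ρ₁ ≤ ρ₀ / 2 := by rw [hρ₁]; exact min_le_right _ _
  obtain ⟨S₀, hS₀⟩ := exists_nat_ge (max N (2 / ρ₁) + 1)
  have hS1 : N ≤ S₀ := by linarith [le_max_left N (2 / ρ₁)]
  have hS2 : 2 / ρ₁ ≤ S₀ := by linarith [le_max_right N (2 / ρ₁)]
  have hS3 : (1 : ℝ) ≤ S₀ := by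
    have : 0 ≤ max N (2 / ρ₁) := h1.le.trans (le_max_left _ _)
    linarith
  rw [div_le_iff₀ hρ10] at hS2
  obtain ⟨s₁, hs₁⟩ : ∃ s₁ : ℝ, s₁ = min s₀ (ρ₀ / (2 * (c₀ + 1))) := ⟨_, rfl⟩
  have hs10 : 0 < s₁ := by rw [hs₁]; exact lt_min h2 (by positivity)
  have hs11 : s₁ ≤ s₀ := by rw [hs₁]; exact min_le_left _ _
  have hs12 : (c₀ + 1) * s₁ ≤ ρ₀ / 2 := by
    have h7 : s₁ ≤ ρ₀ / (2 * (c₀ + 1)) := by rw [hs₁]; exact min_le_right _ _
    rw [le_div_iff₀ (by positivity)] at h7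
    linarith
  refine ⟨S₀, s₁, by exact_mod_cast hS3, hs10, fun s u y hs hss hu huy hys => ?_⟩
  have h7 := h6 s u y hs (hss.trans_le hs11) hu huy hys
  have h8 : volume {w : ℝ | ¬ (0 < u + w → y + w < 1 → (y + w, u + w) ∈ Att)} = 0 :=
    ae_iff.1 (hAN y u huy)
  have h9 : (c₀ + 1) * s ≤ ρ₀ / 2 :=
    (mul_le_mul_of_nonneg_left hss.le (by linarith)).trans hs12
  have e9 : (c₀ + 1) * s = c₀ * s + s := by ring
  have h9' := h9
  rw [e9] at h9'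
  have h10 : ENNReal.ofReal (τ * s) = ENNReal.ofReal (τ * s) + 0 := (add_zero _).symm
  rw [h10, ← h8]
  refine (measure_mono ?_).trans ((measure_union_le _ _).trans (add_le_add_left h7 _))
  rintro w ⟨hw, hnot⟩
  by_contra hcon
  rw [Set.mem_union, not_or] at hcon
  obtain ⟨c1, c2⟩ := hcon
  simp only [Set.mem_ofPred_eq, not_and, not_not] at c1 c2
  have hw' := abs_le.1 hw
  have h11 := c2 (by linarith) (by linarith)
  rw [add_comm y w, add_comm u w] at h11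
  refine hnot ⟨ρ₁, {κ | (w + y - κ, w + u - κ) ∈ Att}, ptD_fm hP hAN hx hx1 hpt hem h11 (by linarith)
    (by positivity) (by
      rw [e9, abs_le]
      constructor <;> linarith) (by
      rw [e9, abs_le]
      constructor <;> linarith) h9 hρ10 hρ12 (fun l hl κ hκ hκρ => ?_) hS2⟩
  have h12 := c1 hw l (by omega) κ hκ (hκρ.trans hρ11)
  have h13 := mul_le_mul_of_nonneg_right hS1 hκ
  linarith

end

end Pool.MV
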