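import Pool.Agent.H45.EXA.Exv

/-!
# The numbers of all the coordinates over the first ones

`vn_le_thr`: in a greedy order, where the first `j` coordinates are not complete, the number of each
later coordinate over the first `j` ones is at most the threshold of its chain at the larger windows;
`vn_le_P`: at the window itself. `wp_swap`: at a tie of the thresholds of the chains the exchange of
the two coordinates is greedy.
-/

set_option autoImplicit false

namespace Pool.GRW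

open Finset Real MvPolynomial
open Pool.Agent.H49.Ent Pool.Agent.H32.Dense Pool.STK Pool.BFL Pool.KA Pool.KSAT Pool.K2S Pool.PB
open Pool.GEN Pool.S6C Pool.CHT
open Pool.LBT (LSys Slo Tri ThrOf)

variable {m n J : ℕ}

/-- **The number of a coordinate over the first `j` ones is attained.** -/
theorem vn_att {S : PCl m} {L : Finset (Fin m) → Fin m → ℝ → ℝ → ℝ} (hL : LamW S L)
    {ε : Fin n → Fin m} {w : ℝ} (hw0 : 0 < w) (hw : w < 1) (hc : Vct L ε w)
    {j : Fin n} (hj1 : vs L ε w j < 1) (k : Fin m) {e : ℝ} (he : 0 < e) : ∃ K,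
      Bas S (fun J F A => Lb F ((Finset.Iio j).image ε) k K ⌊e * J⌋₊ J ⌊w * J⌋₊
        ⌊min (vs L ε w j + e) 1 * J⌋₊ ⌊(vn L ε j k w - e) * J⌋₊ A) := by
  have h1 := hc j k
  rw [Metric.continuousAt_iff] at h1
  obtain ⟨δ, hδ, h2⟩ := h1 (e / 2) (half_pos he)
  obtain ⟨w', hw'⟩ : ∃ w', w' = w - δ / 2 := ⟨_, rfl⟩
  have h3 : |vn L ε j k w' - vn L ε j k w| < e / 2 := by
    have := @h2 w' (by rw [Real.dist_eq, hw', abs_lt]; constructor <;> linarith)
    rwa [Real.dist_eq] at this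
  have h4 := (abs_lt.1 h3).1
  obtain ⟨e', he'⟩ : ∃ e', e' = min (e / 2) (1 - vs L ε w j) := ⟨_, rfl⟩
  have he'0 : 0 < e' := by rw [he']; exact lt_min (half_pos he) (by linarith)
  have he'1 : e' ≤ e / 2 := by rw [he']; exact min_le_left _ _
  have he'2 : e' ≤ 1 - vs L ε w j := by rw [he']; exact min_le_right _ _
  obtain ⟨K, hK⟩ := hL.att ((Finset.Iio j).image ε) k w' w (vs L ε w' j) e' hw0 hw.le
    (by rw [hw']; linarith) he'0
  refine ⟨K, Bas.mono 0 hK ?_⟩
  intro J _ F A hG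
  have hJ : (0 : ℝ) ≤ J := Nat.cast_nonneg J
  have hr : vs L ε w' j ≤ vs L ε w j := vs_mono hL ε j (by rw [hw']; linarith)
  refine hG.mono (Finset.Subset.refl _) le_rfl
    (Nat.floor_le_floor (mul_le_mul_of_nonneg_right (by linarith) hJ)) le_rfl le_rfl
    (fl_le hw.le J) (Nat.floor_le_floor (mul_le_mul_of_nonneg_right ?_ hJ))
    (Nat.floor_le_floor (mul_le_mul_of_nonneg_right ?_ hJ))
  · exact le_min (by linarith) (by linarith)
  · have h6 : L ((Finset.Iio j).image ε) k w' (vs L ε w' j) = vn L ε j k w' := rfl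
    rw [h6]
    linarith

/-- **The numbers over the first coordinates are at most the thresholds of the chains**, at larger
windows. -/
theorem vn_le_thr {θ : ℝ} (hθ : 0 < θ) {S : PCl m} (hS : S.Ne) {C₀ : ℝ} (htm : TmC S C₀)
    (hpos : Bas S (fun _ F A => 0 < Pe F.p A)) {L : Finset (Fin m) → Fin m → ℝ → ℝ → ℝ}
    (hL : LamW S L) {P : List (Fin m) × Fin m → ℝ → ℝ → ℝ} (hP : ThrOf (chsys m θ) S P)
    {ε : Fin n → Fin m} (hε : Function.Injective ε) {c : ℕ → Fin m}
    (hcε : ∀ i : Fin n, c i = ε i) {w : ℝ} (hw : w ∈ Wv L ε) (hex : VExa S L ε w)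
    {j k : ℕ} (hjk : j ≤ k) (hk : k < n) (hlt : ∀ l ≤ j, vs L ε w l < 1)
    {w' : ℝ} (hww : w < w') (hw' : w' ≤ 1) :
    vn L ε ⟨j, hjk.trans_lt hk⟩ (ε ⟨k, hk⟩) w ≤ P ((List.range j).map c, c k) w' w' := by
  classical
  obtain ⟨hw0, hw1, hg, hct⟩ := hw
  by_contra hcon
  push Not at hcon
  obtain ⟨p, hp⟩ : ∃ p, p = P ((List.range j).map c, c k) w' w' := ⟨_, rfl⟩
  rw [← hp] at hcon
  obtain ⟨v, hv⟩ : ∃ v, v = vn L ε ⟨j, hjk.trans_lt hk⟩ (ε ⟨k, hk⟩) w := ⟨_, rfl⟩
  rw [← hv] at hcon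
  have hv1 : v ≤ 1 := by rw [hv]; exact hL.le1 _ _ _ _
  have hv0 : w ≤ v := by rw [hv]; exact hL.low _ _ _ _ hw1.le
  obtain ⟨h, hh⟩ : ∃ h, h = (v - p) / 2 := ⟨_, rfl⟩
  have hh0 : 0 < h := by rw [hh]; linarith
  have hs0 : ∀ l, w ≤ vs L ε w l := le_vs hL ε hw1.le
  obtain ⟨δ, hδ⟩ : ∃ δ, δ = min h (θ * w / 2) := ⟨_, rfl⟩
  have hθw : 0 < θ * w := mul_pos hθ hw0
  have hδ0 : 0 < δ := by rw [hδ]; exact lt_min hh0 (by linarith)
  have hδh : δ ≤ h := by rw [hδ]; exact min_le_left _ _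
  have hδθ : δ < θ * w := by
    have : δ ≤ θ * w / 2 := by rw [hδ]; exact min_le_right _ _
    linarith
  obtain ⟨c'', hc''⟩ : ∃ c'', c'' = Function.update c j (c k) := ⟨_, rfl⟩
  have hcj : c'' j = c k := by rw [hc'']; exact Function.update_self _ _ _
  have hcl : ∀ l, l ≠ j → c'' l = c l := fun l hl => by rw [hc'']; exact Function.update_of_ne hl _ _
  obtain ⟨s, hs⟩ : ∃ s : ℕ → ℝ, s = fun i => if i < j then vs L ε w (i + 1) else v := ⟨_, rfl⟩
  have hsl : ∀ l < j, s l = vs L ε w (l + 1) := fun l hl => by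
    rw [hs]
    simp only
    rw [if_pos hl]
  have hsj : s j = v := by
    rw [hs]
    simp
  have hinj : ∀ {x y : ℕ}, x < n → y < n → c x = c y → x = y := by
    intro x y hx hy hxy
    have h1 := hcε ⟨x, hx⟩
    have h2 := hcε ⟨y, hy⟩
    simp only at h1 h2
    rw [h1, h2] at hxy
    exact congrArg Fin.val (hε hxy)
  obtain ⟨K, d, hKd, hB⟩ := chn_of htm (c := c'') (r := j + 1) (w := w) (s := s) (b := fun i => i)
    (fun x hx y hy hxy => by
      have hx' : x < j + 1 := hx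
      have hy' : y < j + 1 := hy
      by_cases hxj : x = j
      · by_cases hyj : y = j
        · omega
        · rw [hxj, hcj, hcl y hyj] at hxy
          have := hinj hk (by omega) hxy
          omega
      · by_cases hyj : y = j
        · rw [hyj, hcj, hcl x hxj] at hxy
          have := hinj (by omega) hk hxy
          omega
        · rw [hcl x hxj, hcl y hyj] at hxy
          exact hinj (by omega) (by omega) hxy)
    hw0.le hw1 (fun _ => le_rfl) (fun i hi => by
      rcases Nat.lt_or_ge i j with h1 | h1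
      · rw [hsl i h1]
        exact hw0.le.trans (hs0 _)
      · have : i = j := by omega
        rw [this, hsj]
        exact hw0.le.trans hv0)
    (fun i hi l hl => by
      have hl' : l < j := by omega
      rw [hsl l hl']
      exact hlt (l + 1) (by omega))
    (fun ρ hρ => by
      refine (vst_crd hpos hL hcε hw0 hw1 hg hct hex hρ).mono 0 ?_
      intro J _ F A h1 V z z' hz i hi l hl
      have hl' : l < j := by
        have hl2 : l < i := hl
        omega
      have h2 := h1 V z z' hz l (by omega)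
      rw [hsl l hl', hcl l (by omega)]
      have h3 : (fun ω => ((fun l' : Fin l => F.X J ω (c'' l')), z' (slam F ⌊w * J⌋₊ ω), F.W ω)) =
          fun ω => ((fun l' : Fin l => F.X J ω (c l')), z' (slam F ⌊w * J⌋₊ ω), F.W ω) := by
        funext ω
        congr 1
        funext l'
        rw [hcl l' (by omega)]
      rw [h3]
      exact h2)
    (rd := fun i => vs L ε w i)
    (fun i hi e he => by
      have hbn : i < n := by omega
      have him : (range i).image c'' = (Iio (⟨i, hbn⟩ : Fin n)).image ε := by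
        rw [img_eq hcε ⟨i, hbn⟩]
        refine Finset.image_congr fun l hl => ?_
        have hl' : l < i := by simpa using hl
        exact hcl l (by omega)
      by_cases hij : i = j
      · subst hij
        obtain ⟨K, hK⟩ := vn_att hL hw0 hw1 hct (j := ⟨i, hbn⟩) (hlt i le_rfl) (ε ⟨k, hk⟩) he
        refine ⟨K, hK.mono 0 fun J _ F A h1 => ?_⟩
        rw [him, hcj, hcε ⟨k, hk⟩, hsj, hv]
        exact h1
      · obtain ⟨K, hK⟩ := vst_att1 hL hw0 hw1 hg hct i ⟨i, hbn⟩ rfl ⟨i, hbn⟩ le_rfl e he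
        refine ⟨K, hK.mono 0 fun J _ F A h1 => ?_⟩
        rw [him, hcl i hij, hcε ⟨i, hbn⟩, hsl i (by omega)]
        exact h1)
    (φ := fun _ => 1) (fun _ => one_pos) hδ0
  -- the chain labels
  obtain ⟨K₁, J₁, hK₁⟩ := le_lipE' hw0.le hδθ
  obtain ⟨K₀, hK₀⟩ : ∃ K₀, K₀ = max K₁ ((range (j + 1)).sup K) := ⟨_, rfl⟩
  have hph : p + h ≤ 1 := by
    rw [hh]
    linarith
  have hno := bas_half (hP.no' ((List.range j).map c, c k) K₀ (h := h) hw0.le le_rfl hww hww le_rfl
    hw' hh0 (by rw [← hp]; exact hph))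
  refine Clp.not_false hS (Bas.clp ((hB.and hno).mono J₁ ?_))
  rintro J hJ F A ⟨⟨B, hBA, hPe, hch⟩, h2⟩
  refine h2 B hBA hPe ?_
  have hJ0 : (0 : ℝ) ≤ J := Nat.cast_nonneg J
  have hmap : (List.range j).map c = (List.range j).map c'' := by
    refine List.map_congr_left fun l hl => ?_
    rw [List.mem_range] at hl
    exact (hcl l (by omega)).symm
  have hT := Cht.of_chN (θ := θ) (P := ⌊(p + h) * J⌋₊) (K₀ := K₀) (a := ⌊w * J⌋₊) (w := ⌊w * J⌋₊)
    hch le_rfl le_rfl le_rfl ?_ ?_ ?_ ?_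
  · rw [hcj, ← hmap, hp] at hT
    exact hT
  · refine Nat.add_le_add_right (Nat.floor_le_floor (mul_le_mul_of_nonneg_right ?_ hJ0)) _
    have h3 := (hKd j (Nat.lt_succ_self j)).2.1
    have h4 : v = p + 2 * h := by rw [hh]; ring
    rw [hsj]
    linarith
  · intro l hl
    rw [hK₀]
    exact (Finset.le_sup (f := K) (mem_range.2 hl)).trans (le_max_right _ _)
  · exact hK₁ K₀ (by rw [hK₀]; exact le_max_left _ _) J hJ
  · intro l hl
    refine Pool.LBT.fl_le' ?_ J
    have h3 := (hKd l (by omega)).1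
    have h4 : s l ≤ 1 := by
      rcases Nat.lt_or_ge l j with h5 | h5
      · rw [hsl l h5]
        exact vs_le1 hL ε hw1.le _
      · rw [show l = j by omega, hsj]
        exact hv1
    linarith

/-- **The numbers over the first coordinates are at most the thresholds of the chains.** -/
theorem vn_le_P {θ : ℝ} (hθ : 0 < θ) {S : PCl m} (hS : S.Ne) {C₀ : ℝ} (htm : TmC S C₀)
    (hpos : Bas S (fun _ F A => 0 < Pe F.p A)) {L : Finset (Fin m) → Fin m → ℝ → ℝ → ℝ}
    (hL : LamW S L) {P : List (Fin m) × Fin m → ℝ → ℝ → ℝ} (hP : ThrOf (chsys m θ) S P)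
    {ε : Fin n → Fin m} (hε : Function.Injective ε) {c : ℕ → Fin m}
    (hcε : ∀ i : Fin n, c i = ε i) {w : ℝ} (hw : w ∈ Wp L P ε) (hex : VExa S L ε w)
    {j k : ℕ} (hjk : j ≤ k) (hk : k < n) (hlt : ∀ l ≤ j, vs L ε w l < 1) :
    vn L ε ⟨j, hjk.trans_lt hk⟩ (ε ⟨k, hk⟩) w ≤ P ((List.range j).map c, c k) w w := by
  have hw0 := hw.1.1
  have hw1 := hw.1.2.1
  refine le_of_forall_pos_le_add fun e he => ?_
  have h1 := hw.2 ((List.range j).map c, c k)
  rw [Metric.continuousAt_iff] at h1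
  obtain ⟨δ, hδ, h2⟩ := h1 e he
  obtain ⟨w', hw'⟩ : ∃ w', w' = min (w + δ / 2) 1 := ⟨_, rfl⟩
  have hww : w < w' := by rw [hw']; exact lt_min (by linarith) hw1
  have hw'1 : w' ≤ 1 := by rw [hw']; exact min_le_right _ _
  have hw'2 : w' ≤ w + δ / 2 := by rw [hw']; exact min_le_left _ _
  have h3 := @h2 w' (by rw [Real.dist_eq, abs_lt]; constructor <;> linarith)
  rw [Real.dist_eq, dg_eq P _ (hw0.le.trans hww.le) hw'1, dg_eq P _ hw0.le hw1.le] at h3
  have h4 := vn_le_thr hθ hS htm hpos hL hP hε hcε hw.1 hex hjk hk hlt hww hw'1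
  have h5 := (abs_lt.1 h3).2
  linarith

/-! ### The exchange of the last two coordinates -/

theorem swap_lt {j : ℕ} {x y : Fin n} (hx : (x : ℕ) = j) (hy : (y : ℕ) = j + 1) {l : Fin n}
    (hl : (l : ℕ) < j) : Equiv.swap x y l = l := by
  refine Equiv.swap_apply_of_ne_of_ne (fun h => ?_) fun h => ?_
  · rw [h] at hl
    omega
  · rw [h] at hl
    omega

theorem swap_ge {j : ℕ} {x y : Fin n} (hx : (x : ℕ) = j) (hy : (y : ℕ) = j + 1) {l : Fin n}
    (hl : j ≤ (l : ℕ)) : j ≤ (Equiv.swap x y l : ℕ) := by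
  by_cases h1 : l = x
  · rw [h1, Equiv.swap_apply_left]
    omega
  · by_cases h2 : l = y
    · rw [h2, Equiv.swap_apply_right]
      omega
    · rw [Equiv.swap_apply_of_ne_of_ne h1 h2]
      exact hl

theorem iio_swap (ε : Fin n → Fin m) {j : ℕ} {x y : Fin n} (hx : (x : ℕ) = j)
    (hy : (y : ℕ) = j + 1) {l : Fin n} (hl : (l : ℕ) ≤ j) :
    (Iio l).image (fun i => ε (Equiv.swap x y i)) = (Iio l).image ε := by
  refine Finset.image_congr fun i hi => ?_
  have h1 : i < l := by simpa using hi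
  have h2 : (i : ℕ) < l := h1
  show ε (Equiv.swap x y i) = ε i
  rw [swap_lt hx hy (by omega)]

theorem vs_swap (L : Finset (Fin m) → Fin m → ℝ → ℝ → ℝ) (ε : Fin n → Fin m) (w : ℝ) {j : ℕ}
    {x y : Fin n} (hx : (x : ℕ) = j) (hy : (y : ℕ) = j + 1) {l : ℕ} (hl : l ≤ j) :
    vs L (fun i => ε (Equiv.swap x y i)) w l = vs L ε w l := by
  induction l with
  | zero => rfl
  | succ l ih =>
    have h1 : l < n := by have := x.2; omega
    rw [vs, vs, dif_pos h1, dif_pos h1, ih (by omega),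
      iio_swap ε hx hy (l := ⟨l, h1⟩) (by simp only; omega), swap_lt hx hy (l := ⟨l, h1⟩)
      (by simp only; omega)]

theorem vn_swap (L : Finset (Fin m) → Fin m → ℝ → ℝ → ℝ) (ε : Fin n → Fin m) (w : ℝ) {j : ℕ}
    {x y : Fin n} (hx : (x : ℕ) = j) (hy : (y : ℕ) = j + 1) {l : Fin n} (hl : (l : ℕ) ≤ j)
    (k : Fin m) : vn L (fun i => ε (Equiv.swap x y i)) l k w = vn L ε l k w := by
  unfold vn
  rw [iio_swap ε hx hy hl, vs_swap L ε w hx hy hl]

/-- **The exchange of the last two coordinates** at a tie. -/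
theorem wv_swap {L : Finset (Fin m) → Fin m → ℝ → ℝ → ℝ} {ε : Fin n → Fin m} {w : ℝ} {j : ℕ}
    {x y : Fin n} (hx : (x : ℕ) = j) (hy : (y : ℕ) = j + 1) (hn : j + 2 = n) (hw : w ∈ Wv L ε)
    (htie : vn L ε x (ε y) w ≤ vs L ε w (j + 1))
    (hc : Vct L (fun i => ε (Equiv.swap x y i)) w) :
    w ∈ Wv L fun i => ε (Equiv.swap x y i) := by
  obtain ⟨hw0, hw1, hg, hct⟩ := hw
  refine ⟨hw0, hw1, fun a b hab => ?_, hc⟩
  have hab' : (a : ℕ) ≤ b := hab
  rw [vs_succ]
  rcases Nat.lt_or_ge (a : ℕ) (j + 1) with h1 | h1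
  · have haj : (a : ℕ) ≤ j := by omega
    rw [vn_swap L ε w hx hy haj, vn_swap L ε w hx hy haj]
    rcases Nat.lt_or_ge (a : ℕ) j with h2 | h2
    · rw [swap_lt hx hy h2, ← vs_succ]
      refine hg a _ ?_
      rw [Fin.le_def]
      rcases Nat.lt_or_ge (b : ℕ) j with h3 | h3
      · rw [swap_lt hx hy h3]
        exact hab'
      · exact h2.le.trans (swap_ge hx hy h3)
    · have h3 : a = x := Fin.ext (by omega)
      subst h3
      rw [Equiv.swap_apply_left]
      rw [← hx] at htie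
      refine htie.trans (hg a _ ?_)
      rw [Fin.le_def, hx]
      exact swap_ge hx hy (by omega)
  · have h2 : a = b := Fin.ext (by have := b.2; omega)
    rw [h2]

end Pool.GRW
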