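import Pool.Agent.H77.Z4.Nor5
import Pool.Agent.H87.GEN.Pal
import Pool.Agent.H87.GEN.Mev
import Pool.Agent.H82.ZL.Win

/-!
# The numbers of the paths from the loss of a node

`vld_psi`: the numbers of the path (`Vld`) at a node, with the loss `psi` of the node. `lvN_eq`: the
levels of an order and of the target. `mesh_rat`: the mesh of the nodes between two windows of a
rational grid. `srt_at`: the levels of the base are sorted at a good window.
-/

set_option autoImplicit false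

namespace Pool.MV

open MeasureTheory Set Filter Topology
open Finset (range)
open Pool.Agent.H49.Ent Pool.Agent.H32.Dense Pool.STK Pool.KA Pool.KSAT Pool.K2S Pool.PB
open Pool.GEN Pool.S6C Pool.CHT Pool.SHR Pool.ZL Pool.PKG Pool.Z4 Pool.ZFI
open Pool.Z3 (NodQ Att3 nod_fac att3_line att3_grid)
open Pool.ISO (lvN)
open Pool.LEV (Law)

/-- **The numbers of the path** at a node, with the loss of the node. -/
theorem vld_psi {L β : ℕ → ℝ → ℝ → ℝ} {l n : ℕ} {lam T : ℕ → ℝ} {gap : ℝ} (V : Vs l n lam T gap)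
    (hb : Bd01 L l n) (hβ : ∀ i ≤ n - 1, β i = L i) {a₀ w₀ a w b : ℝ} (N : Bn a₀ w₀ a w) {s : ℕ}
    (hs : s ≤ n - 1) :
    Vld β l s w₀ (Kg n gap) (β l a₀ w₀ + b - (a₀ - a)) a w (psi L l n T a₀ w₀ b (Kg n gap) a w)
      (fun i => L i a w - T i * w) T := by
  have hl := V.ln
  have hK := V.K0
  have hn1 := V.n0
  refine Vld.low (r := n - 1) ⟨N.ww, N.wa, psi_nn hb hK.le hl N, hK, fun i h1 h2 => ?_,
    fun i h1 h2 ω h3 h4 => ?_, ?_⟩ hs
  · have h3 := V.gi i h1 (by omega)
    have e1 : (((n - 1 : ℕ) : ℝ) + 1) = n := by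
      have : n - 1 + 1 = n := by omega
      exact_mod_cast this
    rw [e1]
    unfold Kg
    have e2 : 4 * (n : ℝ) * (gap / (4 * n)) = gap := by field_simp
    rw [e2]
    exact h3
  · have h5 := le_csSup (psS_bdd (T := T) (b := b) hb hK.le hl N)
      (Or.inr ⟨i, h1, by omega, ω, h3, h4, rfl⟩)
    have e1 : L i a ω - (L i a w - T i * w) - T i * ω = L i a ω - L i a w - T i * (ω - w) := by
      ring
    rw [hβ i h2, e1]
    unfold psi
    linarith
  · have h3 := le_csSup (psS_bdd (T := T) (b := b) hb hK.le hl N) (Or.inl rfl)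
    rw [hβ l (by omega)]
    unfold psi
    unfold ps0 at h3
    have e1 : T l * (w - w₀) = T l * w - T l * w₀ := by ring
    rw [e1] at h3
    linarith

variable {n : ℕ} {hn : 2 ≤ n} {S : PCl n} {P : ℝ → ℝ → ℝ} {r : ℝ → ℝ}
  {P' : ℕ → List (Fin n) × Fin n → ℝ → ℝ → ℝ} {Λ : Finset (Fin n) → Fin n → ℝ → ℝ → ℝ}
  {o : Od n}

/-- The levels of the order and of the target. -/
theorem lvN_eq {i : ℕ} (hi : i ≤ n - 1) :
    lvN (P' o.2) (cc hn o.1.1) (n - 1) P i = LF hn P P' o i := by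
  funext a w
  unfold lvN LF
  split_ifs with h
  · rw [LL_low (by omega) (by omega)]
    rfl
  · have : i = n - 1 := by omega
    rw [this, LL_lst]

/-- **The mesh of the nodes** between two windows of a rational grid. -/
theorem mesh_rat {S : PCl n} {c : ℕ → Fin n} {R : ℕ} {β : ℕ → ℝ → ℝ → ℝ} {e E ϱ a w₁ : ℝ}
    {q q' : ℚ} (hq : q ≤ q') (h : ∀ p : ℚ, q ≤ p → p ≤ q' → NodQ S c R β e E ϱ a (w₁ + p)) :
    MeshQ S c R β e E ϱ a (w₁ + q) (w₁ + q') := by
  intro μ hμ
  obtain ⟨K, hK⟩ := exists_nat_gt (((q' : ℝ) - q) / μ)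
  have hqq : (0 : ℝ) ≤ (q' : ℝ) - q := by
    have : (q : ℝ) ≤ q' := by exact_mod_cast hq
    linarith
  have hK0 : (0 : ℝ) < K := lt_of_le_of_lt (by positivity) hK
  have hK1 : 0 < K := by exact_mod_cast hK0
  rw [div_lt_iff₀ hμ] at hK
  have hK0' : (K : ℚ) ≠ 0 := by
    have : (0 : ℚ) < K := by exact_mod_cast hK1
    exact this.ne'
  refine ⟨K, fun k => w₁ + ((q + k * ((q' - q) / K) : ℚ) : ℝ), hK1, ?_, ?_, fun k _ => ?_,
    fun k hk => ?_⟩
  · simp
  · have : q + K * ((q' - q) / K) = q' := by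
      field_simp
      ring
    show w₁ + ((q + K * ((q' - q) / K) : ℚ) : ℝ) = _
    rw [this]
  · push_cast
    have h1 : (0 : ℝ) ≤ ((q' : ℝ) - q) / K := by positivity
    have h2 : ((q' : ℝ) - q) / K ≤ μ := by
      rw [div_le_iff₀ hK0]
      linarith
    constructor <;> nlinarith
  · have h1 : (0 : ℚ) ≤ (q' - q) / K := div_nonneg (by linarith) (by positivity)
    have hkK : (k : ℚ) ≤ K := by exact_mod_cast hk
    refine h _ ?_ ?_
    · have : (0 : ℚ) ≤ k * ((q' - q) / K) := by positivity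
      linarith
    · have h2 : (k : ℚ) * ((q' - q) / K) ≤ K * ((q' - q) / K) := mul_le_mul_of_nonneg_right hkK h1
      have h3 : (K : ℚ) * ((q' - q) / K) = q' - q := by field_simp
      linarith

/-- **The levels of the base are sorted** at a good window. -/
theorem srt_at (H : Pk hn S P r P' Λ) {g α Q c : ℝ} (F : Fac hn S P r P' o g α Q c) {j i : ℕ}
    (hji : j ≤ i) (hi : i < n - 1) :
    lvN (P' o.2) (cc hn o.1.1) (n - 1) P j g g ≤ lvN (P' o.2) (cc hn o.1.1) (n - 1) P i g g := by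
  have h1 := F.gre i hi j hji
  have h2 := tau_mono (c := cc hn o.1.1) (l := j) (l' := i) (i := i) H.ne (H.cht o.2)
    ((cc_inj1 hn o.1.1).mono fun x hx => by
      rw [Set.mem_Iio] at hx ⊢
      omega) hji le_rfl F.g0 le_rfl (rc_of_cont F.g1 (F.con _))
  rw [tau_self] at h2
  unfold lvN
  rw [if_pos (by omega), if_pos hi]
  exact h1.trans h2

end Pool.MV
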