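import Pool.Agent.H82.MV.PtU
import Pool.Agent.H82.MV.Vld

/-!
# Nodes near a good window, with small exponents and one degree

`DfO`: at a distance `R` from the window the order is greedy up to `o (R)`. `nodD_pt`: a node of given
degree from the data of a path. `nodU_fac`: near a good window, at the scale `s`, nodes exist at all
good pairs with exponent `ε s` of the gradients of the list; for pairs with given offsets, outside a
set of measure `τ s` of windows, their degree is one number which depends neither on `ε` nor on `s`.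
-/

set_option autoImplicit false

namespace Pool.MV

open MeasureTheory Set Filter Topology
open Pool.Agent.H49.Ent Pool.Agent.H32.Dense Pool.STK Pool.KA Pool.KSAT Pool.K2S Pool.PB
open Pool.GEN Pool.S6C Pool.CHT Pool.SHR Pool.ZL Pool.PKG Pool.Z4 Pool.ZFI
open Pool.Z3 (NodQ NodS Att3 nod_one att3_line)
open Pool.ISO (lvN PtD PtN Att2)
open Pool.LEV (Law)
open Pool.FRN (AttC attN_attC)
open Pool.LBT (ThrOf)
open Pool.JTN (TgP Cen mod_all)
open Pool.STR (AttN)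

variable {n : ℕ} {hn : 2 ≤ n} {S : PCl n} {P : ℝ → ℝ → ℝ} {r : ℝ → ℝ}
  {P' : ℕ → List (Fin n) × Fin n → ℝ → ℝ → ℝ} {Λ : Finset (Fin n) → Fin n → ℝ → ℝ → ℝ}
  {o : Od n} {g α Q c : ℝ}

/-- **The order is greedy up to `o (R)`** at the distance `R` from `g`. -/
def DfO (hn : 2 ≤ n) (P' : ℕ → List (Fin n) × Fin n → ℝ → ℝ → ℝ) (o : Od n) (g : ℝ) : Prop :=
  ∀ ε : ℝ, 0 < ε → ∃ ρ : ℝ, 0 < ρ ∧ ∀ R : ℝ, 0 < R → R ≤ ρ → ∀ i < n - 1, ∀ l < i, ∀ a w : ℝ,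
    0 < w → w ≤ a → a < 1 → |a - g| ≤ R → |w - g| ≤ R →
    bet (P' o.2) (cc hn o.1.1) l a w ≤ tau (P' o.2) (cc hn o.1.1) l i a w + ε * R

theorem csl_one (hn : 2 ≤ n) : (1 : ℝ) ≤ Csl (n - 1) (n - 1) := by
  have h5 : 1 ≤ Csl (n - 1) (n - 1) := by
    obtain ⟨k, hk⟩ : ∃ k, n - 1 = k + 1 := ⟨n - 2, by omega⟩
    rw [hk]
    show 1 ≤ 1 + (k + 1) * (Csl (k + 1) k + 1)
    omega
  exact_mod_cast h5

/-- **A node of given degree** from the data of a path. -/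
theorem nodD_pt (F : Fac hn S P r P' o g α Q c) (H : Pk hn S P r P' Λ) {E ϱ : ℝ} (hE : 0 < E)
    (hϱ : 0 < ϱ) (hϱc : ϱ ≤ (c - tht o.2) / 2)
    (hlE : ∀ l ≤ n - 1, lvN (P' o.2) (cc hn o.1.1) (n - 1) P l g g + E + 8 * ϱ < 1) {S₀ : ℕ}
    (hS₀ : 1 ≤ S₀) : ∃ D : ℕ, ∀ (a w ρ e' : ℝ) (vs e : ℝ → ℝ) (Q' : Set ℝ),
      (a, w) ∈ Att3 (P' o.2) P → |w - g| ≤ g / 2 → a < α →
      (∀ l ≤ n - 1, |lvN (P' o.2) (cc hn o.1.1) (n - 1) P l a w -
        lvN (P' o.2) (cc hn o.1.1) (n - 1) P l g g| ≤ ϱ) →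
      PtD S (P' o.2) (tht o.2) (cc hn o.1.1) (n - 1) P a w ρ S₀ vs e e (fun _ => E)
        (fun _ => 1 - c) Q' → e 0 ≤ e' → e' ≤ E / 2 → e' ≤ tht o.2 * g / 8 → e' ≤ ϱ / 2 →
      NodD S (cc hn o.1.1) (n - 1) D (lvN (P' o.2) (cc hn o.1.1) (n - 1) P) e' E ϱ a w := by
  have hθ : 0 < tht o.2 := tht_pos _
  have hθc := F.thc
  have hg0 := F.g0
  have hg1 := F.g1
  obtain ⟨D, hD, hnod⟩ := nod_one (n - 1) S₀ (by omega) hS₀
  refine ⟨D, fun a w ρ e' vs e Q' haw hwg haα hlv hd hee' he1 he2 he3 => ⟨hD,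
    fun Dr η σ hη hσ hσϱ => ?_⟩⟩
  have hw0 := hd.w0
  have hwa := hd.wa
  have ha1 := hd.a1
  have h0 := hd.self
  have hw' := abs_le.1 hwg
  have hbl : ∀ l < n - 1, bet (P' o.2) (cc hn o.1.1) l a w ≤
      bet (P' o.2) (cc hn o.1.1) l g g + ϱ := fun l hl => by
    have h5 := (abs_le.1 (hlv l hl.le)).2
    have e1 : ∀ a w, lvN (P' o.2) (cc hn o.1.1) (n - 1) P l a w =
        bet (P' o.2) (cc hn o.1.1) l a w := fun a w => if_pos hl
    rw [e1, e1] at h5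
    linarith
  have hlv1 : ∀ l < n - 1, bet (P' o.2) (cc hn o.1.1) l g g + E + 8 * ϱ < 1 := fun l hl => by
    have h5 := hlE l hl.le
    have e1 : lvN (P' o.2) (cc hn o.1.1) (n - 1) P l g g = bet (P' o.2) (cc hn o.1.1) l g g :=
      if_pos hl
    rwa [e1] at h5
  have hlP : |P a w - P g g| ≤ ϱ := by
    have h5 := hlv (n - 1) le_rfl
    have e1 : ∀ a w, lvN (P' o.2) (cc hn o.1.1) (n - 1) P (n - 1) a w = P a w :=
      fun a w => if_neg (lt_irrefl _)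
    rwa [e1, e1] at h5
  have hlv2 : P g g + E + 8 * ϱ < 1 := by
    have h5 := hlE (n - 1) le_rfl
    have e1 : lvN (P' o.2) (cc hn o.1.1) (n - 1) P (n - 1) g g = P g g := if_neg (lt_irrefl _)
    rwa [e1] at h5
  have hn2' := abs_le.1 hlP
  have hvs0 := h0.vs0
  have hCs := csl_one hn
  have hvse : vs 0 ≤ e 0 := by
    have h5 := h0.e1
    have h6 := mul_le_mul_of_nonneg_right hCs hvs0
    linarith
  have hθw : tht o.2 * g / 2 ≤ tht o.2 * w := by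
    have := mul_le_mul_of_nonneg_left (show g / 2 ≤ w by linarith [hw'.1]) hθ.le
    linarith
  have hθw1 : tht o.2 * w < tht o.2 := by
    have := mul_lt_mul_of_pos_left (hwa.trans_lt ha1) hθ
    linarith
  have hθg : 0 < tht o.2 * g := mul_pos hθ hg0
  obtain ⟨vT, hvT⟩ : ∃ vT : ℝ, vT = 1 - E - 6 * ϱ - P a w := ⟨_, rfl⟩
  obtain ⟨K₁, d, ψ, k1, k2, k3, k4⟩ := hnod (σ := σ) (μ := ϱ) (μT := E + ϱ) (vT := vT)
    (H.cht o.2) (by rw [cc_top]; exact H.tgs) hθ H.tmh (by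
      have h5 := cc_inj hn o.1.1
      have e1 : n - 1 + 1 = n := by omega
      rw [e1]
      exact h5) hd (fun l _ => haw.1.1.1.up _ l) haw.2 hσ hϱ.le (by
      rw [hvT]
      linarith [hn2'.2]) (fun l hl => by
      rw [hvT]
      have h5 := hbl l hl
      have h6 := hlv1 l hl
      linarith) (by linarith) (by linarith) (fun l hl => by
      have h5 := F.le l hl a w hw0 hwa haα
      linarith) (by
      rw [hvT]
      linarith) (by linarith [hn2'.2]) Dr η hη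
  refine ⟨K₁, d, ψ, k1, k2, k3, Bas.mono 0 k4 ?_⟩
  rintro J - F' A ⟨B, l1, l2, T, TH, l3⟩
  refine ⟨B, l1, l2, T, TH, l3.lst.mono le_rfl (fun _ => le_rfl) le_rfl ?_, l3.top, l3.rlY⟩
  exact Nat.floor_le_floor (mul_le_mul_of_nonneg_right hee' (Nat.cast_nonneg J))

/-- **The data of a path at a good pair**, with the exponents of the defect. -/
theorem ptD_nearf {m : ℕ} {S : PCl m} {P : List (Fin m) × Fin m → ℝ → ℝ → ℝ} {θ : ℝ}
    {c : ℕ → Fin m} {r : ℕ} {x : ℝ} (hP : ThrOf (chsys m θ) S P) {Pt : ℝ → ℝ → ℝ}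
    {em E sg ρ₀ : ℝ} {Att : Set (ℝ × ℝ)} (hAN : AttN Att) (hx : ρ₀ < x)
    (hx1 : x + ρ₀ < 1)
    (hpt : ∀ a w vs e : ℝ, (a, w) ∈ Att → 0 < w → w ≤ a → a < 1 →
      |a - x| ≤ ρ₀ → |w - x| ≤ ρ₀ → 0 ≤ vs → Csl r r * vs < e → vs ≤ em → e ≤ em →
      (∀ i < r, ∀ l < i, bet P c l a w ≤ tau P c l i a w + vs) →
      PtN S P θ c r Pt a w vs e e E sg)
    (hem : ∀ R ≤ ρ₀, 0 < R → dfm P c r x R ≤ em ∧ efm P c r x R ≤ em) {a w R₀ : ℝ}
    (haw : (a, w) ∈ Att) (hwa : w ≤ a) (hR₀ : 0 < R₀) (ha : |a - x| ≤ R₀) (hw : |w - x| ≤ R₀)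
    (hR1 : R₀ ≤ ρ₀ / 2) (hbk : ∀ l < r, Pool.ISO.Bk1 (bet P c l) a w)
    (hbt : Pool.ISO.Bk1 Pt a w) :
    ∃ (ρ : ℝ) (S₀ : ℕ) (Q : Set ℝ), 1 ≤ S₀ ∧
      PtD S P θ c r Pt a w ρ S₀ (fun κ => dfm P c r x (R₀ + κ)) (fun κ => efm P c r x (R₀ + κ))
        (fun κ => efm P c r x (R₀ + κ)) (fun _ => E) (fun _ => sg) Q := by
  obtain ⟨V, o₀, hV, ho₀, h1⟩ := Pool.ISO.bk1_fin (f := fun l => if l < r then bet P c l else Pt)
    (a := a) (w := w) (r + 1) fun l hl => by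
      rcases Nat.lt_or_ge l r with h2 | h2
      · rw [if_pos h2]
        exact hbk l h2
      · rw [if_neg (by omega)]
        exact hbt
  have hρ₀ : 0 < ρ₀ := by linarith
  obtain ⟨ρ, hρ⟩ : ∃ ρ : ℝ, ρ = min (ρ₀ / 2) (o₀ / 2) := ⟨_, rfl⟩
  have hρ0 : 0 < ρ := by rw [hρ]; exact lt_min (by linarith) (by linarith)
  have hρ1 : ρ ≤ ρ₀ / 2 := by rw [hρ]; exact min_le_left _ _
  have hρ2 : ρ < o₀ := by
    have : ρ ≤ o₀ / 2 := by rw [hρ]; exact min_le_right _ _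
    linarith
  obtain ⟨S₀, hS₀⟩ := exists_nat_ge (max V (2 / ρ) + 1)
  have hS1 : V ≤ S₀ := by linarith [le_max_left V (2 / ρ)]
  have hS2 : 2 / ρ ≤ S₀ := by linarith [le_max_right V (2 / ρ)]
  have hS3 : (1 : ℝ) ≤ S₀ := by
    have : 0 ≤ max V (2 / ρ) := hV.trans (le_max_left _ _)
    linarith
  refine ⟨ρ, S₀, {κ | (a - κ, w - κ) ∈ Att}, by exact_mod_cast hS3, ptD_fm hP hAN hx hx1 hpt hem haw
    hwa hR₀ ha hw hR1 hρ0 hρ1 (fun l hl κ h3 h4 => ?_) ?_⟩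
  · have h5 := h1 l (by omega) κ h3 (by linarith)
    have h6 := mul_le_mul_of_nonneg_right hS1 h3
    unfold lvN
    split_ifs with h7
    · simp only [if_pos h7] at h5
      linarith
    · simp only [if_neg h7] at h5
      linarith
  · rw [div_le_iff₀ hρ0] at hS2
    exact hS2

/-- The exponent is `o (R)`. -/
theorem efm_o (hdf : DfO hn P' o g) {ε : ℝ} (hε : 0 < ε) :
    ∃ ρ : ℝ, 0 < ρ ∧ ∀ R : ℝ, 0 < R → R ≤ ρ →
      efm (P' o.2) (cc hn o.1.1) (n - 1) g R ≤ ε * R := by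
  obtain ⟨K, hK⟩ : ∃ K : ℝ, K = (Csl (n - 1) (n - 1) : ℝ) + 1 := ⟨_, rfl⟩
  have hK0 : 0 < K := by
    rw [hK]
    positivity
  obtain ⟨ρ, hρ, h1⟩ := hdf (ε / (2 * K)) (by positivity)
  refine ⟨min ρ (ε / 2), lt_min hρ (by positivity), fun R hR hR' => ?_⟩
  have h2 : dfm (P' o.2) (cc hn o.1.1) (n - 1) g R ≤ ε / (2 * K) * R :=
    dfm_le (by positivity) (h1 R hR (hR'.trans (min_le_left _ _)))
  have h3 : R * R ≤ ε / 2 * R := mul_le_mul_of_nonneg_right (hR'.trans (min_le_right _ _)) hR.le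
  unfold efm
  rw [← hK]
  have h4 := mul_le_mul_of_nonneg_left h2 hK0.le
  have e1 : K * (ε / (2 * K) * R) = ε / 2 * R := by
    field_simp
  rw [e1] at h4
  nlinarith

/-- **Nodes near a good window**, with small exponents, and one degree outside a small set. -/
theorem nodU_fac (F : Fac hn S P r P' o g α Q c) (H : Pk hn S P r P' Λ)
    (hDg : DgL hn P P' o g) (hdf : DfO hn P' o g) :
    ∃ E ϱ : ℝ, 0 < E ∧ 0 < ϱ ∧
      (∀ l ≤ n - 1, lvN (P' o.2) (cc hn o.1.1) (n - 1) P l g g + E + 8 * ϱ < 1) ∧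
      (∃ ρ : ℝ, 0 < ρ ∧ ∀ l ≤ n - 1, ∀ a w : ℝ, 0 < w → w ≤ a → a ≤ 1 → |a - g| ≤ ρ →
        |w - g| ≤ ρ → |lvN (P' o.2) (cc hn o.1.1) (n - 1) P l a w -
          lvN (P' o.2) (cc hn o.1.1) (n - 1) P l g g| ≤ ϱ) ∧
      (∀ ε c₀ : ℝ, 0 < ε → 0 ≤ c₀ → ∃ s₁ : ℝ, 0 < s₁ ∧ ∀ s : ℝ, 0 < s → s < s₁ → ∀ a w : ℝ,
        (a, w) ∈ Att3 (P' o.2) P → w ≤ a → |a - g| ≤ c₀ * s → |w - g| ≤ c₀ * s →
        NodQ S (cc hn o.1.1) (n - 1) (lvN (P' o.2) (cc hn o.1.1) (n - 1) P) (ε * s) E ϱ a w) ∧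
      ∀ c₀ τ : ℝ, 0 ≤ c₀ → 0 < τ → ∃ D : ℕ, ∀ ε : ℝ, 0 < ε → ∃ s₁ : ℝ, 0 < s₁ ∧
        ∀ s u y : ℝ, 0 < s → s < s₁ → |u| ≤ s → |y| ≤ s → u ≤ y →
          volume {w : ℝ | |w - g| ≤ c₀ * s ∧ ¬ NodD S (cc hn o.1.1) (n - 1) D
            (lvN (P' o.2) (cc hn o.1.1) (n - 1) P) (ε * s) E ϱ (w + y) (w + u)} ≤
            ENNReal.ofReal (τ * s) := by
  have hg0 := F.g0
  have hg1 := F.g1
  have hα := F.gα
  have hθ : 0 < tht o.2 := tht_pos _
  have hθc := F.thc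
  have hc0 : 0 < c := hθ.trans hθc
  obtain ⟨M, hM⟩ : ∃ M, M = max (P g g) (bet (P' o.2) (cc hn o.1.1) (n - 2) g g) := ⟨_, rfl⟩
  have hPc : P g g ≤ 1 - c := (F.PQ g g F.g0 le_rfl F.gα).trans F.Q1
  have hM1 : M ≤ 1 - c := by
    rw [hM]
    exact max_le hPc (F.le (n - 2) (by omega) g g F.g0 le_rfl F.gα)
  obtain ⟨E, hEE⟩ : ∃ E : ℝ, E = 1 - c / 2 - M := ⟨_, rfl⟩
  have hE0 : 0 < E := by rw [hEE]; linarith
  have hE : 1 - c < E + P g g ∨ 1 - c < E + bet (P' o.2) (cc hn o.1.1) (n - 2) g g := by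
    rcases max_choice (P g g) (bet (P' o.2) (cc hn o.1.1) (n - 2) g g) with h | h
    · left
      rw [hEE, hM, h]
      linarith
    · right
      rw [hEE, hM, h]
      linarith
  have hlE0 : ∀ l ≤ n - 1, lvN (P' o.2) (cc hn o.1.1) (n - 1) P l g g + E < 1 := fun l hl => by
    rw [hEE]
    unfold lvN
    split_ifs with h3
    · have h4 := F.bet_le H h3
      have h5 : bet (P' o.2) (cc hn o.1.1) (n - 2) g g ≤ M := by
        rw [hM]
        exact le_max_right _ _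
      linarith
    · have h5 : P g g ≤ M := by
        rw [hM]
        exact le_max_left _ _
      linarith
  obtain ⟨s, hs, hsl⟩ := fin_pos n
    (f := fun l => 1 - (lvN (P' o.2) (cc hn o.1.1) (n - 1) P l g g + E)) fun l hl => by
      have := hlE0 l (by omega)
      linarith
  obtain ⟨ϱ, hϱ⟩ : ∃ ϱ : ℝ, ϱ = min (s / 10) ((c - tht o.2) / 2) := ⟨_, rfl⟩
  have hϱ0 : 0 < ϱ := by rw [hϱ]; exact lt_min (by linarith) (by linarith)
  have hϱs : ϱ ≤ s / 10 := by rw [hϱ]; exact min_le_left _ _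
  have hϱc : ϱ ≤ (c - tht o.2) / 2 := by rw [hϱ]; exact min_le_right _ _
  have hlE : ∀ l ≤ n - 1, lvN (P' o.2) (cc hn o.1.1) (n - 1) P l g g + E + 8 * ϱ < 1 :=
    fun l hl => by
      have := hsl l (by omega)
      linarith
  have hcen := F.cen' hE0 hE
  -- the modulus
  obtain ⟨ρ₂, hρ₂, hmod⟩ := mod_all (H.cht o.2) (H.tgs.law ()) hcen hϱ0
  have hlv : ∀ l ≤ n - 1, ∀ a w : ℝ, 0 < w → w ≤ a → a ≤ 1 → |a - g| ≤ ρ₂ →
      |w - g| ≤ ρ₂ → |lvN (P' o.2) (cc hn o.1.1) (n - 1) P l a w -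
        lvN (P' o.2) (cc hn o.1.1) (n - 1) P l g g| ≤ ϱ := fun l hl a w hw hwa ha1 h1 h2 => by
    obtain ⟨h3, h4⟩ := hmod a w hw.le hwa ha1 h1 h2
    unfold lvN
    split_ifs with h5
    · have h6 := h3 l h5 l le_rfl
      exact h6
    · exact h4
  -- the exponents
  obtain ⟨em, ρ₁, hem0, hρ₁, hpt⟩ := ptN_at (S := S) H.ne (H.cht o.2) hθ H.tmh
    (cc_inj1 hn _) (H.tgs.law ()) (fun a w hw hwa ha1 => H.tgs.low () a w hw.le hwa ha1)
    hcen (by linarith)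
    (Att := AttC (P' o.2))
    (fun a w haw _ _ ha1 => ⟨fun i _ l _ => haw.1.rc ha1 _ l i, fun i _ => haw.1.up _ i⟩)
    (ρT := (α - g) / 2) (by linarith) (fun a w haw hw hwa ha1 hag _ => F.tgP H hw hwa (by
      have := (abs_le.1 hag).2
      linarith) haw)
  obtain ⟨K, hK⟩ : ∃ K : ℝ, K = (Csl (n - 1) (n - 1) : ℝ) + 1 := ⟨_, rfl⟩
  have hK1 : 1 ≤ K := by
    have : (0 : ℝ) ≤ Csl (n - 1) (n - 1) := Nat.cast_nonneg _
    rw [hK]
    linarith
  obtain ⟨ρ₃, hρ₃, h3⟩ := dfm_sml (H.cht o.2) (H.tgs.law ()) hcen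
    (show 0 < em / (2 * K) by positivity)
  obtain ⟨ρ₀, hρ₀⟩ : ∃ ρ₀ : ℝ, ρ₀ = min (min ρ₁ ρ₃) (min (min (g / 2) ((1 - g) / 2))
    (min (em / 2) 1)) := ⟨_, rfl⟩
  have hρ0 : 0 < ρ₀ := by
    rw [hρ₀]
    exact lt_min (lt_min hρ₁ hρ₃) (lt_min (lt_min (by linarith) (by linarith))
      (lt_min (by linarith) one_pos))
  have r1 : ρ₀ ≤ ρ₁ := by rw [hρ₀]; exact (min_le_left _ _).trans (min_le_left _ _)
  have r3 : ρ₀ ≤ ρ₃ := by rw [hρ₀]; exact (min_le_left _ _).trans (min_le_right _ _)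
  have r4 : ρ₀ ≤ g / 2 := by
    rw [hρ₀]; exact (min_le_right _ _).trans ((min_le_left _ _).trans (min_le_left _ _))
  have r5 : ρ₀ ≤ (1 - g) / 2 := by
    rw [hρ₀]; exact (min_le_right _ _).trans ((min_le_left _ _).trans (min_le_right _ _))
  have r6 : ρ₀ ≤ em / 2 := by
    rw [hρ₀]; exact (min_le_right _ _).trans ((min_le_right _ _).trans (min_le_left _ _))
  have r7 : ρ₀ ≤ 1 := by
    rw [hρ₀]; exact (min_le_right _ _).trans ((min_le_right _ _).trans (min_le_right _ _))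
  have hem : ∀ R ≤ ρ₀, 0 < R → dfm (P' o.2) (cc hn o.1.1) (n - 1) g R ≤ em ∧
      efm (P' o.2) (cc hn o.1.1) (n - 1) g R ≤ em := by
    intro R hR hR0
    have h4 := h3 R (hR.trans r3)
    have h5 : em / (2 * K) ≤ em / 2 := div_le_div_of_nonneg_left hem0.le (by norm_num) (by linarith)
    have h6 : K * (em / (2 * K)) = em / 2 := by field_simp
    have h7 := mul_le_mul_of_nonneg_left h4 (by linarith : (0 : ℝ) ≤ K)
    refine ⟨by linarith, ?_⟩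
    unfold efm
    rw [← hK]
    nlinarith
  have hpt' : ∀ a w vs e : ℝ, (a, w) ∈ AttC (P' o.2) → 0 < w → w ≤ a → a < 1 →
      |a - g| ≤ ρ₀ → |w - g| ≤ ρ₀ → 0 ≤ vs → Csl (n - 1) (n - 1) * vs < e → vs ≤ em → e ≤ em →
      (∀ i < n - 1, ∀ l < i, bet (P' o.2) (cc hn o.1.1) l a w ≤
        tau (P' o.2) (cc hn o.1.1) l i a w + vs) →
      PtN S (P' o.2) (tht o.2) (cc hn o.1.1) (n - 1) P a w vs e e E (1 - c) :=
    fun a w vs e h1 h2 h3 h4 h5 h6 => hpt a w vs e h1 h2 h3 h4 (h5.trans r1) (h6.trans r1)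
  -- the exponent `ε s`
  have heb : ∀ ε c₁ : ℝ, 0 < ε → 0 < c₁ → ∃ s₁ : ℝ, 0 < s₁ ∧ ∀ s : ℝ, 0 < s → s < s₁ →
      efm (P' o.2) (cc hn o.1.1) (n - 1) g (c₁ * s) ≤ ε * s ∧ ε * s ≤ E / 2 ∧
        ε * s ≤ tht o.2 * g / 8 ∧ ε * s ≤ ϱ / 2 := by
    intro ε c₁ hε hc₁
    obtain ⟨ρ₄, hρ₄, h4⟩ := efm_o hdf (show 0 < ε / c₁ by positivity)
    obtain ⟨b, hb⟩ : ∃ b : ℝ, b = min (E / 2) (min (tht o.2 * g / 8) (ϱ / 2)) := ⟨_, rfl⟩
    have hb0 : 0 < b := by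
      rw [hb]
      exact lt_min (by linarith) (lt_min (by positivity) (by linarith))
    refine ⟨min (ρ₄ / c₁) (b / ε), lt_min (by positivity) (by positivity), fun s hs hs' => ?_⟩
    have h5 : s < ρ₄ / c₁ := hs'.trans_le (min_le_left _ _)
    have h6 : s < b / ε := hs'.trans_le (min_le_right _ _)
    rw [lt_div_iff₀ hc₁] at h5
    rw [lt_div_iff₀ hε] at h6
    have h7 := h4 (c₁ * s) (by positivity) (by linarith)
    have e1 : ε / c₁ * (c₁ * s) = ε * s := by field_simp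
    rw [e1] at h7
    have h8 : ε * s ≤ b := by linarith
    have b1 : b ≤ E / 2 := by rw [hb]; exact min_le_left _ _
    have b2 : b ≤ tht o.2 * g / 8 := by rw [hb]; exact (min_le_right _ _).trans (min_le_left _ _)
    have b3 : b ≤ ϱ / 2 := by rw [hb]; exact (min_le_right _ _).trans (min_le_right _ _)
    exact ⟨h7, h8.trans b1, h8.trans b2, h8.trans b3⟩
  obtain ⟨ρ₅, hρ₅⟩ : ∃ ρ₅ : ℝ, ρ₅ = min (min (ρ₀ / 2) ρ₂) ((α - g) / 2) := ⟨_, rfl⟩
  have hρ50 : 0 < ρ₅ := by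
    rw [hρ₅]
    exact lt_min (lt_min (by linarith) hρ₂) (by linarith)
  have t1 : ρ₅ ≤ ρ₀ / 2 := by rw [hρ₅]; exact (min_le_left _ _).trans (min_le_left _ _)
  have t2 : ρ₅ ≤ ρ₂ := by rw [hρ₅]; exact (min_le_left _ _).trans (min_le_right _ _)
  have t3 : ρ₅ ≤ (α - g) / 2 := by rw [hρ₅]; exact min_le_right _ _
  refine ⟨E, ϱ, hE0, hϱ0, hlE, ⟨ρ₂, hρ₂, hlv⟩, fun ε c₀ hε hc₀ => ?_, fun c₀ τ hc₀ hτ => ?_⟩
  · obtain ⟨s₁, hs₁, h4⟩ := heb ε (c₀ + 1) hε (by linarith)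
    refine ⟨min s₁ (ρ₅ / (c₀ + 1)), lt_min hs₁ (by positivity), fun s hs hs' a w haw hwa ha hw => ?_⟩
    obtain ⟨k1, k2, k3, k4⟩ := h4 s hs (hs'.trans_le (min_le_left _ _))
    have h5 : s < ρ₅ / (c₀ + 1) := hs'.trans_le (min_le_right _ _)
    rw [lt_div_iff₀ (by linarith)] at h5
    have h6 : (c₀ + 1) * s ≤ ρ₅ := by linarith
    have h7 : c₀ * s ≤ (c₀ + 1) * s := mul_le_mul_of_nonneg_right (by linarith) hs.le
    have ha' := abs_le.1 (ha.trans (h7.trans h6))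
    have hw' := abs_le.1 (hw.trans (h7.trans h6))
    obtain ⟨ρ, S₀, Q', hS₀, hd⟩ := ptD_nearf (H.cht o.2) (attN_attC (H.cht o.2))
      (by linarith) (by linarith) hpt' hem (R₀ := (c₀ + 1) * s) haw.1.1 hwa (by positivity)
      (ha.trans h7) (hw.trans h7) (by linarith) (fun l _ => haw.1.2.1 _) haw.1.2.2
    obtain ⟨D, hD⟩ := nodD_pt F H hE0 hϱ0 hϱc hlE hS₀
    refine nodQ_iff.2 ⟨D, hD a w ρ (ε * s) _ _ Q' haw (by
      rw [abs_le]
      constructor <;> linarith) (by linarith) (fun l hl => hlv l hl a w (by linarith) hwa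
        (by linarith) (by
          rw [abs_le]
          constructor <;> linarith) (by
          rw [abs_le]
          constructor <;> linarith)) hd (by rw [add_zero]; exact k1) k2 k3 k4⟩
  · obtain ⟨S₀, s₁, hS₀, hs₁, h4⟩ := ptD_maxf (H.cht o.2) (H.tgs.law ()) (attN_attC (H.cht o.2))
      hρ0 (by linarith) (by linarith) hpt' hem hDg (c₀ := c₀ + 1) (τ := τ / 2) (by linarith)
      (half_pos hτ)
    obtain ⟨D, hD⟩ := nodD_pt F H hE0 hϱ0 hϱc hlE hS₀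
    refine ⟨D, fun ε hε => ?_⟩
    obtain ⟨s₂, hs₂, h5⟩ := heb ε ((c₀ + 1 + 1) * 2) hε (by linarith)
    refine ⟨min (min (s₁ / 2) s₂) (ρ₅ / (c₀ + 2)), lt_min (lt_min (by linarith) hs₂)
      (by positivity), fun s u y hs hs' hu hy huy => ?_⟩
    have hs1 : s < s₁ / 2 := (hs'.trans_le (min_le_left _ _)).trans_le (min_le_left _ _)
    obtain ⟨k1, k2, k3, k4⟩ := h5 s hs ((hs'.trans_le (min_le_left _ _)).trans_le
      (min_le_right _ _))
    have h6 : s < ρ₅ / (c₀ + 2) := hs'.trans_le (min_le_right _ _)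
    rw [lt_div_iff₀ (by linarith)] at h6
    have hu' := abs_le.1 hu
    have hy' := abs_le.1 hy
    have h7 := h4 (2 * s) (u + s) (y + s) (by linarith) (by linarith) (by linarith) (by linarith)
      (by linarith)
    have e1 : τ / 2 * (2 * s) = τ * s := by ring
    rw [e1] at h7
    -- the shifted set
    have h8 := att3_line (hP := H.cht o.2) (H.tgs.law ()) y u huy
    have h9 : volume {w : ℝ | ¬ (0 < u + w → y + w < 1 → (y + w, u + w) ∈ Att3 (P' o.2) P)} = 0 :=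
      ae_iff.1 h8
    have e2 : ENNReal.ofReal (τ * s) = ENNReal.ofReal (τ * s) + 0 := (add_zero _).symm
    rw [e2, ← h9]
    have h10 := h7
    rw [← measure_preimage_add_right volume (-s)] at h10
    refine (measure_mono ?_).trans ((measure_union_le _ _).trans (add_le_add_left h10 _))
    rintro w ⟨hw, hnot⟩
    by_contra hcon
    rw [Set.mem_union, not_or] at hcon
    obtain ⟨c1, c2⟩ := hcon
    simp only [Set.mem_preimage, Set.mem_ofPred_eq, not_and, not_not] at c1 c2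
    have hcs : c₀ * s + 2 * s ≤ ρ₅ := by
      have : (c₀ + 2) * s = c₀ * s + 2 * s := by ring
      linarith
    have hw' := abs_le.1 hw
    have hcs0 : 0 ≤ c₀ * s := by positivity
    have haw := c2 (by linarith) (by linarith)
    rw [add_comm y w, add_comm u w] at haw
    obtain ⟨ρ, Q', hd⟩ := c1 (by
      rw [abs_le]
      have : (c₀ + 1) * (2 * s) = 2 * (c₀ * s) + 2 * s := by ring
      constructor <;> linarith)
    have e3 : w + -s + (y + s) = w + y := by ring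
    have e4 : w + -s + (u + s) = w + u := by ring
    rw [e3, e4] at hd
    refine hnot (hD (w + y) (w + u) ρ (ε * s) _ _ Q' haw (by
      rw [abs_le]
      constructor <;> linarith) (by linarith) (fun l hl => hlv l hl _ _ (by linarith)
        (by linarith) (by linarith) (by
          rw [abs_le]
          constructor <;> linarith) (by
          rw [abs_le]
          constructor <;> linarith)) hd (by
          rw [add_zero]
          have e5 : (c₀ + 1 + 1) * (2 * s) = (c₀ + 1 + 1) * 2 * s := by ring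
          rw [e5]
          exact k1) k2 k3 k4)

end Pool.MV
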