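import Pool.Agent.H87.GEN.Row1
import Pool.Agent.H82.MV.Tie
import Pool.Agent.H82.MV.Uni

/-!
# The exchange of the last two coordinates of the base

`swp`: the order with the last two coordinates of the base exchanged. `gs_swp`: at almost every good
window of an order at which the thresholds of the last two coordinates over the first ones are equal,
the window is good for the exchanged order.
-/

set_option autoImplicit false

namespace Pool.MV

open MeasureTheory Set Filter Topology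
open Pool.Agent.H49.Ent Pool.Agent.H32.Dense Pool.STK Pool.KA Pool.KSAT Pool.K2S Pool.PB
open Pool.GEN Pool.S6C Pool.CHT Pool.GRW Pool.PKG
open Pool.TOP (TopS)

variable {n : ℕ} {hn : 2 ≤ n} {S : PCl n} {P : ℝ → ℝ → ℝ} {r : ℝ → ℝ}
  {P' : ℕ → List (Fin n) × Fin n → ℝ → ℝ → ℝ} {Λ : Finset (Fin n) → Fin n → ℝ → ℝ → ℝ}
  {o : Od n}

/-- The order with the last two coordinates of the base exchanged. -/
def swp (h4 : 4 ≤ n) (o : Od n) : Od n :=
  (⟨(Equiv.swap (⟨n - 3, by omega⟩ : Fin (n - 1)) ⟨n - 2, by omega⟩).trans o.1.1, fun i hi => by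
    rw [Equiv.trans_apply, swap_lt (j := n - 3) (x := (⟨n - 3, by omega⟩ : Fin (n - 1))) rfl
      (by simp only; omega) (l := i) (by omega)]
    exact o.1.2 i hi⟩, o.2)

theorem swp_app (h4 : 4 ≤ n) (o : Od n) (i : Fin (n - 1)) :
    (swp h4 o).1.1 i = o.1.1 (Equiv.swap (⟨n - 3, by omega⟩ : Fin (n - 1)) ⟨n - 2, by omega⟩ i) :=
  rfl

theorem swp_snd (h4 : 4 ≤ n) (o : Od n) : (swp h4 o).2 = o.2 := rfl

theorem cc_swp (h4 : 4 ≤ n) (o : Od n) {l : ℕ} (hl : l < n - 3) :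
    cc hn (swp h4 o).1.1 l = cc hn o.1.1 l := by
  have h1 : l < n - 1 := by omega
  rw [cc_lt hn _ h1, cc_lt hn _ h1, swp_app, swap_lt (j := n - 3) rfl (by simp only; omega)
    (l := ⟨l, h1⟩) hl]

theorem cc_swp1 (h4 : 4 ≤ n) (o : Od n) :
    cc hn (swp h4 o).1.1 (n - 3) = cc hn o.1.1 (n - 2) := by
  have h1 : n - 3 < n - 1 := by omega
  have h2 : n - 2 < n - 1 := by omega
  rw [cc_lt hn _ h1, cc_lt hn _ h2, swp_app, Equiv.swap_apply_left]

theorem cc_swp2 (h4 : 4 ≤ n) (o : Od n) :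
    cc hn (swp h4 o).1.1 (n - 2) = cc hn o.1.1 (n - 3) := by
  have h1 : n - 3 < n - 1 := by omega
  have h2 : n - 2 < n - 1 := by omega
  rw [cc_lt hn _ h1, cc_lt hn _ h2, swp_app, Equiv.swap_apply_right]

theorem map_swp (h4 : 4 ≤ n) (o : Od n) {l : ℕ} (hl : l ≤ n - 3) :
    (List.range l).map (cc hn (swp h4 o).1.1) = (List.range l).map (cc hn o.1.1) := by
  refine List.map_congr_left fun i hi => ?_
  rw [List.mem_range] at hi
  exact cc_swp h4 o (by omega)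

theorem bet_swp (h4 : 4 ≤ n) (o : Od n) {l : ℕ} (hl : l < n - 3) :
    bet (P' (swp h4 o).2) (cc hn (swp h4 o).1.1) l = bet (P' o.2) (cc hn o.1.1) l := by
  unfold bet
  rw [map_swp h4 o hl.le, cc_swp h4 o hl, swp_snd]

theorem bet_swp1 (h4 : 4 ≤ n) (o : Od n) :
    bet (P' (swp h4 o).2) (cc hn (swp h4 o).1.1) (n - 3) =
      tau (P' o.2) (cc hn o.1.1) (n - 3) (n - 2) := by
  unfold bet tau
  rw [map_swp h4 o le_rfl, cc_swp1 h4 o, swp_snd]

theorem tau_swp1 (h4 : 4 ≤ n) (o : Od n) :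
    tau (P' (swp h4 o).2) (cc hn (swp h4 o).1.1) (n - 3) (n - 2) =
      bet (P' o.2) (cc hn o.1.1) (n - 3) := by
  unfold bet tau
  rw [map_swp h4 o le_rfl, cc_swp2 h4 o, swp_snd]

/-- **The numbers of the closed labels at a good window**: they are the thresholds. -/
theorem vs_gs (H : Pk hn S P r P' Λ) (hTop : TopS n) (hF : FZX (n - 1)) {g : ℝ}
    (hg : g ∈ Gs P r P' Λ o) : VExa S Λ (fun i => bse (o.1.1 i)) g ∧ ∀ l < n - 1,
      vs Λ (fun i => bse (o.1.1 i)) g (l + 1) < 1 ∧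
      bet (P' o.2) (cc hn o.1.1) l g g = vs Λ (fun i => bse (o.1.1 i)) g (l + 1) := by
  obtain ⟨α, Q, c, F⟩ := H.fac hTop hF hg
  obtain ⟨al, g₀, s, d, e, K₀, N, hal, hg₀, hC⟩ := H.cl
  have hW := hg.1
  have hg0 := F.g0
  have hg1 := F.g1
  have hth := tht_pos o.2
  have hcε : ∀ i : Fin (n - 1), cc hn o.1.1 i = bse (o.1.1 i) := fun i => cc_lt hn _ i.2
  have hex : VExa S Λ (fun i => bse (o.1.1 i)) g := by
    intro ρ hρ
    refine vst_exa hF hC.ne (C₀ := 6) (by norm_num) H.tmc H.lam hal hg₀ hC.actm H.pos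
      (bse_inj.comp o.1.1.injective) (fun k hk => hC.actb _ ?_) hg0 hg1 hW.1.2.2.1 hW.1.2.2.2 hρ
    exact o.1.2 k hk
  refine ⟨hex, fun l hl => ?_⟩
  have h2 : bet (P' o.2) (cc hn o.1.1) l g g < 1 - tht o.2 * g := by
    have h3 := F.le l hl g g hg0 le_rfl F.gα
    have h4 : tht o.2 * g ≤ tht o.2 := mul_le_of_le_one_right hth.le hg1.le
    have h5 := F.thc
    linarith
  have h3 := (bet_lt_iff hth hC.ne (C₀ := 6) (by norm_num) H.tmc H.lam (H.cht o.2)
    (bse_inj.comp o.1.1.injective) hcε hW hex hl).1 h2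
  refine ⟨h3.trans (by nlinarith), bet_eq_vst hth hC.ne (C₀ := 6) (by norm_num) H.tmc H.lam
    (H.cht o.2) (bse_inj.comp o.1.1.injective) hcε hW hex hl h3⟩

/-- **The exchanged order** is greedy at almost every good window with a tie. -/
theorem gs_swp (H : Pk hn S P r P' Λ) (hTop : TopS n) (hF : FZX (n - 1)) (h4 : 4 ≤ n) :
    ∀ᵐ g : ℝ, ∀ o : Od n, g ∈ Gs P r P' Λ o →
      tau (P' o.2) (cc hn o.1.1) (n - 3) (n - 2) g g ≤ bet (P' o.2) (cc hn o.1.1) (n - 3) g g →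
      g ∈ Gs P r P' Λ (swp h4 o) := by
  have h1 : ∀ᵐ g : ℝ, ∀ o : Od n, Vct Λ (fun i => bse ((swp h4 o).1.1 i)) g := by
    refine ae_all_iff.2 fun o => ?_
    have h2 := (vct_ae H.lam (fun i => bse ((swp h4 o).1.1 i))).ae_notMem volume
    filter_upwards [h2] with g h3
    by_contra hcon
    exact h3 hcon
  filter_upwards [h1] with g hv o hg htie
  obtain ⟨hex, hvs⟩ := vs_gs H hTop hF hg
  obtain ⟨al, g₀, s, d, e, K₀, N, hal, hg₀, hC⟩ := H.cl
  have hcε : ∀ i : Fin (n - 1), cc hn o.1.1 i = bse (o.1.1 i) := fun i => cc_lt hn _ i.2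
  have hlt : ∀ l ≤ n - 3, vs Λ (fun i => bse (o.1.1 i)) g l < 1 := by
    intro l hl
    rcases Nat.eq_zero_or_pos l with h0 | h0
    · rw [h0]
      exact hg.1.1.2.1
    · obtain ⟨k, hk⟩ : ∃ k, l = k + 1 := ⟨l - 1, by omega⟩
      rw [hk]
      exact (hvs k (by omega)).1
  have h3 := vn_le_P (tht_pos o.2) hC.ne H.tmc H.pos H.lam (H.cht o.2)
    (bse_inj.comp o.1.1.injective) hcε hg.1 hex (j := n - 3) (k := n - 2) (by omega) (by omega) hlt
  have h5 : vn Λ (fun i => bse (o.1.1 i)) ⟨n - 3, by omega⟩ (bse (o.1.1 ⟨n - 2, by omega⟩)) g ≤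
      vs Λ (fun i => bse (o.1.1 i)) g (n - 3 + 1) := by
    rw [← (hvs (n - 3) (by omega)).2]
    exact h3.trans htie
  have h6 := wv_swap (L := Λ) (ε := fun i => bse (o.1.1 i)) (w := g) (j := n - 3)
    (x := ⟨n - 3, by omega⟩) (y := ⟨n - 2, by omega⟩) rfl (by simp only; omega) (by omega) hg.1.1
    h5 (hv o)
  exact ⟨⟨h6, hg.1.2⟩, hg.2⟩

end Pool.MV
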