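import Pool.Agent.H82.MV.MevY

/-!
# Finitely many nodes near a window, and the affine levels

`nod_sets`: near a good window, at the scale `s`, outside a set of windows of measure `τ s` there are
nodes of one degree at finitely many given offsets. `Bx`: near the window `x` the first three levels
are affine up to `ν`, and there is room. `bx_ex`: this holds at all small scales.
-/

set_option autoImplicit false

namespace Pool.MV

open MeasureTheory Set Filter Topology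
open Pool.Agent.H49.Ent Pool.Agent.H32.Dense Pool.STK Pool.KA Pool.KSAT Pool.K2S Pool.PB
open Pool.GEN Pool.S6C Pool.CHT Pool.SHR Pool.ZL Pool.PKG Pool.Z4 Pool.ZFI
open Pool.ISO (lvN)
open Pool.LEV (Law)

variable {n : ℕ} {hn : 2 ≤ n} {S : PCl n} {P : ℝ → ℝ → ℝ} {r : ℝ → ℝ}
  {P' : ℕ → List (Fin n) × Fin n → ℝ → ℝ → ℝ} {Λ : Finset (Fin n) → Fin n → ℝ → ℝ → ℝ}
  {o : Od n} {g : ℝ}

/-- **Finitely many nodes near a window.** -/
theorem nod_sets (H : Pk hn S P r P' Λ) (hTop : Pool.TOP.TopS n) (hF : FZX (n - 1))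
    (hg : g ∈ Gs P r P' Λ o) (hDg : DgL hn P P' o g) (hdf : DfO hn P' o g) :
    ∃ E ϱ : ℝ, 0 < E ∧ 0 < ϱ ∧
      (∀ l ≤ n - 1, lvN (P' o.2) (cc hn o.1.1) (n - 1) P l g g + E + 8 * ϱ < 1) ∧
      ∀ (N : ℕ) (c₀ τ : ℝ), 0 ≤ c₀ → 0 < τ → ∃ (D : ℕ) (s₁ : ℝ), 0 < s₁ ∧
        ∀ (s : ℝ) (u y : ℕ → ℝ), 0 < s → s < s₁ →
          (∀ k < N, |u k| ≤ 4 * s ∧ |y k| ≤ 4 * s ∧ u k ≤ y k) →
          volume {w : ℝ | |w - g| ≤ c₀ * s ∧ ¬ ∀ k < N, NodD S (cc hn o.1.1) (n - 1) D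
            (lvN (P' o.2) (cc hn o.1.1) (n - 1) P) (4 * s) E ϱ (w + y k) (w + u k)} ≤
            ENNReal.ofReal (τ * s) := by
  obtain ⟨α, Q, c, F⟩ := H.fac hTop hF hg
  obtain ⟨E, ϱ, hE, hϱ, hroom, -, -, hND⟩ := nodU_fac F H hDg hdf
  refine ⟨E, ϱ, hE, hϱ, hroom, fun N c₀ τ hc₀ hτ => ?_⟩
  obtain ⟨τ', hτ'⟩ : ∃ τ', τ' = τ / (4 * ((N : ℝ) + 1)) := ⟨_, rfl⟩
  have hN0 : (0 : ℝ) ≤ N := Nat.cast_nonneg N
  have hτ0 : 0 < τ' := by rw [hτ']; positivity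
  obtain ⟨D, hD⟩ := hND c₀ τ' hc₀ hτ0
  obtain ⟨s₁, hs₁, h1⟩ := hD 1 one_pos
  refine ⟨D, s₁ / 4, by positivity, fun s u y hs hss huy => ?_⟩
  have hsub : {w : ℝ | |w - g| ≤ c₀ * s ∧ ¬ ∀ k < N, NodD S (cc hn o.1.1) (n - 1) D
      (lvN (P' o.2) (cc hn o.1.1) (n - 1) P) (4 * s) E ϱ (w + y k) (w + u k)} ⊆
      ⋃ k ∈ Finset.range N, {w : ℝ | |w - g| ≤ c₀ * (4 * s) ∧ ¬ NodD S (cc hn o.1.1) (n - 1) D
        (lvN (P' o.2) (cc hn o.1.1) (n - 1) P) (1 * (4 * s)) E ϱ (w + y k) (w + u k)} := by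
    rintro w ⟨hw, hno⟩
    push Not at hno
    obtain ⟨k, hk, h2⟩ := hno
    refine mem_iUnion₂.2 ⟨k, Finset.mem_range.2 hk, ?_, ?_⟩
    · have : 0 ≤ c₀ * s := by positivity
      linarith
    · rw [one_mul]
      exact h2
  refine (measure_mono hsub).trans ((measure_biUnion_finset_le _ _).trans ?_)
  have h2 : ∀ k ∈ Finset.range N, volume {w : ℝ | |w - g| ≤ c₀ * (4 * s) ∧
      ¬ NodD S (cc hn o.1.1) (n - 1) D (lvN (P' o.2) (cc hn o.1.1) (n - 1) P) (1 * (4 * s)) E ϱ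
        (w + y k) (w + u k)} ≤ ENNReal.ofReal (τ' * (4 * s)) := by
    intro k hk
    obtain ⟨b1, b2, b3⟩ := huy k (Finset.mem_range.1 hk)
    exact h1 (4 * s) (u k) (y k) (by positivity) (by linarith) b1 b2 b3
  refine (Finset.sum_le_sum h2).trans ?_
  rw [Finset.sum_const, Finset.card_range, nsmul_eq_mul,
    ← ENNReal.ofReal_natCast, ← ENNReal.ofReal_mul hN0]
  refine ENNReal.ofReal_le_ofReal ?_
  have h3 : (N : ℝ) * (τ' * (4 * s)) = τ * s * (N / (N + 1)) := by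
    rw [hτ']
    field_simp
  rw [h3]
  have h4 : (N : ℝ) / (N + 1) ≤ 1 := by
    rw [div_le_one (by positivity)]
    linarith
  have h5 : 0 ≤ τ * s := by positivity
  exact mul_le_of_le_one_right h5 h4

/-- **The levels near the window `x`**, at the scale `s`: the first three are affine up to `ν`. -/
structure Bx (β : ℕ → ℝ → ℝ → ℝ) (r : ℕ) (la t : ℕ → ℝ) (g x s ν ϱ : ℝ) : Prop where
  pos : ∀ u : ℝ, |u| ≤ 4 * s → g / 2 ≤ x + u ∧ x + u < 1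
  aff : ∀ l < 3, ∀ u v : ℝ, |u| ≤ 4 * s → |v| ≤ 4 * s → v ≤ u →
    |β l (x + u) (x + v) - (β l g g + la l * (x + u - g) + t l * (x + v - g))| ≤ ν
  room : ∀ l ≤ r, ∀ u v : ℝ, |u| ≤ 4 * s → |v| ≤ 4 * s → v ≤ u →
    β l (x + u) (x + v) ≤ β l g g + ϱ

/-- The difference of two values of a level. -/
theorem Bx.le {β : ℕ → ℝ → ℝ → ℝ} {r : ℕ} {la t : ℕ → ℝ} {g x s ν ϱ : ℝ}
    (B : Bx β r la t g x s ν ϱ) {l : ℕ} (hl : l < 3) {u v u' v' : ℝ} (hu : |u| ≤ 4 * s)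
    (hv : |v| ≤ 4 * s) (huv : v ≤ u) (hu' : |u'| ≤ 4 * s) (hv' : |v'| ≤ 4 * s) (huv' : v' ≤ u') :
    β l (x + u) (x + v) ≤ β l (x + u') (x + v') + la l * (u - u') + t l * (v - v') + 2 * ν := by
  have h1 := (abs_le.1 (B.aff l hl u v hu hv huv)).2
  have h2 := (abs_le.1 (B.aff l hl u' v' hu' hv' huv')).1
  linarith

theorem lf_law (H : Pk hn S P r P' Λ) {l : ℕ} (hl : l ≤ n - 1) :
    Law (lvN (P' o.2) (cc hn o.1.1) (n - 1) P l) := by
  rw [lvN_eq (hn := hn) (P := P) (P' := P') (o := o) hl]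
  exact ll_law H (by omega)

/-- **The levels near a window**, at all small scales. -/
theorem bx_ex (H : Pk hn S P r P' Λ) (hTop : Pool.TOP.TopS n) (hF : FZX (n - 1)) (hn3 : 3 ≤ n)
    (hg : g ∈ Gs P r P' Λ o) (hDg : DgL hn P P' o g) {la t : ℕ → ℝ}
    (hA : ∀ l < 3, AffA (LF hn P P' o l) g (la l) (t l)) {ϱ c₀ κ : ℝ} (hϱ : 0 < ϱ) (hc₀ : 0 ≤ c₀)
    (hκ : 0 < κ) : ∃ s₁ : ℝ, 0 < s₁ ∧ ∀ s x : ℝ, 0 < s → s < s₁ → |x - g| ≤ c₀ * s →
      Bx (lvN (P' o.2) (cc hn o.1.1) (n - 1) P) (n - 1) la t g x s (κ * s) ϱ := by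
  obtain ⟨α, Q, c, F⟩ := H.fac hTop hF hg
  have hg0 := F.g0
  have hg1 := F.g1
  obtain ⟨R, hR⟩ : ∃ R : ℝ, R = c₀ + 5 := ⟨_, rfl⟩
  have hR0 : 0 < R := by rw [hR]; linarith
  have haff : ∀ l : ℕ, ∃ r₁ : ℝ, 0 < r₁ ∧ (l < 3 → ∀ r : ℝ, 0 < r → r < r₁ → ∀ a w : ℝ,
      g - r ≤ w → w ≤ a → a ≤ g + r →
      |LF hn P P' o l a w - (LF hn P P' o l g g + la l * (a - g) + t l * (w - g))| ≤
        κ / R * r) := by
    intro l
    by_cases hl : l < 3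
    · obtain ⟨r₁, h1, h2⟩ := hA l hl (κ / R) (by positivity)
      exact ⟨r₁, h1, fun _ => h2⟩
    · exact ⟨1, one_pos, fun h => absurd h hl⟩
  choose r₁ hr₁ haff using haff
  obtain ⟨r₂, hr₂, hr₂'⟩ := fin_pos 3 (f := r₁) fun i _ => hr₁ i
  have hdg : ∀ l : ℕ, ∃ V t₀ : ℝ, 0 ≤ V ∧ 0 < t₀ ∧ (l ≤ n - 1 → ∀ t : ℝ, |t| < t₀ →
      |lvN (P' o.2) (cc hn o.1.1) (n - 1) P l (g + t) (g + t) -
      lvN (P' o.2) (cc hn o.1.1) (n - 1) P l g g| ≤ V * |t|) := by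
    intro l
    by_cases hl : l ≤ n - 1
    · obtain ⟨V, t₀, h1, h2, h3⟩ := hDg l hl
      exact ⟨V, t₀, h1, h2, fun _ => h3⟩
    · exact ⟨0, 1, le_rfl, one_pos, fun h => absurd h hl⟩
  choose V t₀ hV0 ht₀ hVt using hdg
  obtain ⟨t₁, ht₁, ht₁'⟩ := fin_pos n (f := fun l => min (t₀ l) (ϱ / (V l + 1))) fun i _ => by
    have := hV0 i
    exact lt_min (ht₀ i) (by positivity)
  obtain ⟨s₁, hs₁⟩ : ∃ s₁, s₁ = min (min (r₂ / R) (t₁ / R)) (min (g / (2 * R)) ((1 - g) / (2 * R))) :=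
    ⟨_, rfl⟩
  have h1g : 0 < 1 - g := by linarith
  have hs₁0 : 0 < s₁ := by
    rw [hs₁]
    exact lt_min (lt_min (by positivity) (by positivity)) (lt_min (by positivity) (by positivity))
  refine ⟨s₁, hs₁0, fun s x hs hss hx => ?_⟩
  rw [hs₁] at hss
  simp only [lt_min_iff] at hss
  obtain ⟨⟨a1, a2⟩, a3, a4⟩ := hss
  rw [lt_div_iff₀ hR0] at a1 a2
  rw [lt_div_iff₀ (by positivity)] at a3 a4
  have hRs : s * R = c₀ * s + 5 * s := by rw [hR]; ring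
  have hx' := abs_le.1 hx
  have hin : ∀ u : ℝ, |u| ≤ 4 * s → |x + u - g| ≤ s * R := by
    intro u hu
    have hu' := abs_le.1 hu
    rw [abs_le]
    constructor <;> linarith
  have hpos : ∀ u : ℝ, |u| ≤ 4 * s → g / 2 ≤ x + u ∧ x + u < 1 := by
    intro u hu
    have h1 := abs_le.1 (hin u hu)
    constructor <;> nlinarith
  refine ⟨hpos, fun l hl u v hu hv huv => ?_, fun l hl u v hu hv huv => ?_⟩
  · have h1 := abs_le.1 (hin u hu)
    have h2 := abs_le.1 (hin v hv)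
    rw [lvN_eq (hn := hn) (P := P) (P' := P') (o := o) (i := l) (by omega)]
    refine (haff l hl (s * R) (by positivity) (a1.trans_le (hr₂' l hl)) (x + u) (x + v)
      (by linarith) (by linarith) (by linarith)).trans (le_of_eq ?_)
    field_simp
  · obtain ⟨b1, b2⟩ := hpos u hu
    obtain ⟨b3, b4⟩ := hpos v hv
    have h1 := (lf_law (o := o) H hl).mono_w (x + u) (x + v) (x + u) (by linarith) (by linarith)
      le_rfl b2.le
    refine h1.trans ?_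
    have h2 := ht₁' l (show l < n by omega)
    have h3 : |x + u - g| < t₀ l :=
      (hin u hu).trans_lt (a2.trans_le (h2.trans (min_le_left _ _)))
    have h4 := hVt l hl (x + u - g) h3
    have e1 : g + (x + u - g) = x + u := by ring
    rw [e1] at h4
    have h5 : |x + u - g| ≤ ϱ / (V l + 1) :=
      ((hin u hu).trans_lt (a2.trans_le (h2.trans (min_le_right _ _)))).le
    have hVl := hV0 l
    have h6 : V l * |x + u - g| ≤ ϱ := by
      have h7 : (V l + 1) * |x + u - g| ≤ (V l + 1) * (ϱ / (V l + 1)) :=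
        mul_le_mul_of_nonneg_left h5 (by linarith)
      have h8 : (V l + 1) * (ϱ / (V l + 1)) = ϱ := by field_simp
      have h9 := abs_nonneg (x + u - g)
      linarith
    have h7 := (abs_le.1 h4).2
    linarith

end Pool.MV
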